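import Pool.Agent.H41.VH.Fib
import Pool.Agent.H8.VR.F4

/-! MODULE FewI (reserved for helper8; F4). Few matroids have few isolated nonbases and few nonisolated ones.

`N = n.choose r`, `L = N (log n)^2 / n^2`. The pair `(WW r B, iso r B)` determines `B` (`NB r B = WW cup iso`). Number of `W` inside `Base n r` with at most `L` elements:
at most `(e N / L)^L = 2^(o(N/n))`; for every `W` (`few_small_two` with `xi = 0.3`, `R = reg r W`) at most `2^(0.3 N/n)` sets `I` with `I.card <= kap N/n`; and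
`m >= 2^(N/n)` (B3: a colour class of `sum mod n` of size `>= N/n`, all its subsets are stable; `rebuild` / A5).
All this is `Pool.Agent.H8.VR.few_iso` (file `H8/VR/F4`). -/

open scoped BigOperators
open Filter

namespace Pool.Agent.H41.VH

open Pool.Agent.H28.Johnson Pool.Agent.H28.V8 Pool.Agent.H8.VM Pool.Agent.H8.VR
open Pool.Agent.H13.VM Pool.Agent.H97.VZ

private theorem FewI_log : ∀ᶠ n : ℕ in atTop,
    Real.log (n : ℝ) ^ 2 / (n : ℝ) ^ 2 ≤ 1 / ((n : ℝ) * Real.sqrt n) := by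
  have h1 : Tendsto (fun x : ℝ => Real.log x / x ^ (1 / 4 : ℝ)) atTop (nhds 0) :=
    (isLittleO_log_rpow_atTop (by norm_num : (0 : ℝ) < 1 / 4)).tendsto_div_nhds_zero
  have h2 : ∀ᶠ n : ℕ in atTop, Real.log (n : ℝ) / (n : ℝ) ^ (1 / 4 : ℝ) ≤ 1 :=
    (h1.comp tendsto_natCast_atTop_atTop).eventually_le_const (by norm_num)
  filter_upwards [h2, eventually_ge_atTop 1] with n hn hn1
  have hn0 : (0 : ℝ) < n := by exact_mod_cast hn1
  have hn1' : (1 : ℝ) ≤ n := by exact_mod_cast hn1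
  have hq : (0 : ℝ) < (n : ℝ) ^ (1 / 4 : ℝ) := by positivity
  rw [div_le_one hq] at hn
  have hL0 : 0 ≤ Real.log (n : ℝ) := Real.log_nonneg hn1'
  have hsq : Real.log (n : ℝ) ^ 2 ≤ Real.sqrt n := by
    calc Real.log (n : ℝ) ^ 2 ≤ ((n : ℝ) ^ (1 / 4 : ℝ)) ^ 2 := pow_le_pow_left₀ hL0 hn 2
      _ = Real.sqrt n := by
        rw [← Real.rpow_natCast, ← Real.rpow_mul hn0.le, Real.sqrt_eq_rpow]
        norm_num
  have hs0 : 0 < Real.sqrt n := Real.sqrt_pos.mpr hn0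
  rw [div_le_div_iff₀ (by positivity) (by positivity), one_mul]
  calc Real.log (n : ℝ) ^ 2 * ((n : ℝ) * Real.sqrt n) ≤
      Real.sqrt n * ((n : ℝ) * Real.sqrt n) := mul_le_mul_of_nonneg_right hsq (by positivity)
    _ = (n : ℝ) * (Real.sqrt n * Real.sqrt n) := by ring
    _ = (n : ℝ) ^ 2 := by rw [Real.mul_self_sqrt hn0.le]; ring

private theorem FewI_pow : ∀ᶠ n : ℕ in atTop, n ^ 5 ≤ 2 ^ n := by
  have h : Tendsto (fun n : ℕ => (n : ℝ) ^ 5 / (2 : ℝ) ^ n) atTop (nhds 0) :=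
    tendsto_pow_const_div_const_pow_of_one_lt 5 (by norm_num)
  filter_upwards [h.eventually_le_const (by norm_num : (0 : ℝ) < 1)] with n hn
  rw [div_le_one (by positivity)] at hn
  exact_mod_cast hn

open Classical in
theorem few_iso : ∃ kap : ℝ, 0 < kap ∧ ∀ ε : ℝ, 0 < ε → ∀ᶠ n : ℕ in atTop, ∀ r : ℕ,
    2 * r ≤ n → Cen n r →
    (((Mats n r).filter fun B =>
      ((WW r B).card : ℝ) ≤ (n.choose r : ℝ) * (Real.log n ^ 2 / (n : ℝ) ^ 2) ∧
        ¬ kap * ((n.choose r : ℝ) / n) ≤ ((iso r B).card : ℝ)).card : ℝ) ≤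
      ε * ((Mats n r).card : ℝ) := by
  obtain ⟨κ, hκ, hev⟩ := Pool.Agent.H8.VR.few_iso
  refine ⟨κ, hκ, fun ε hε => ?_⟩
  have hbig : ∀ᶠ n : ℕ in atTop, 1 / ε ≤ (n : ℝ) / 2 * Real.log 2 := by
    have h1 : Tendsto (fun n : ℕ => (n : ℝ) / 2 * Real.log 2) atTop atTop :=
      (tendsto_natCast_atTop_atTop.atTop_div_const (by norm_num)).atTop_mul_const
        (Real.log_pos (by norm_num))
    exact h1.eventually_ge_atTop _
  filter_upwards [hev, FewI_log, FewI_pow, hbig, eventually_ge_atTop 1] with n hn hlog hpow hbig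
    hn1 r h2 hc
  obtain ⟨hc1, hc2, hc3⟩ := hc
  have hn0 : (0 : ℝ) < n := by exact_mod_cast hn1
  have h := hn r hc2 h2
  set N : ℝ := (n.choose r : ℝ) with hN
  have hN0 : 0 ≤ N := Nat.cast_nonneg _
  set m : ℝ := ((Mats n r).card : ℝ) with hm
  set A := (Mats n r).filter fun B => ((WW r B).card : ℝ) ≤ N / (n * Real.sqrt n) ∧
      ((iso r B).card : ℝ) ≤ κ * (N / n) with hA
  have hsub : (((Mats n r).filter fun B =>
      ((WW r B).card : ℝ) ≤ N * (Real.log n ^ 2 / (n : ℝ) ^ 2) ∧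
        ¬ κ * (N / n) ≤ ((iso r B).card : ℝ)).card : ℝ) ≤ (A.card : ℝ) := by
    have : ((Mats n r).filter fun B =>
      ((WW r B).card : ℝ) ≤ N * (Real.log n ^ 2 / (n : ℝ) ^ 2) ∧
        ¬ κ * (N / n) ≤ ((iso r B).card : ℝ)).card ≤ A.card := by
      refine Finset.card_le_card fun B hB => ?_
      rw [Finset.mem_filter] at hB
      rw [hA, Finset.mem_filter]
      refine ⟨hB.1, hB.2.1.trans ?_, ?_⟩
      · calc N * (Real.log n ^ 2 / (n : ℝ) ^ 2) ≤ N * (1 / ((n : ℝ) * Real.sqrt n)) :=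
            mul_le_mul_of_nonneg_left hlog hN0
          _ = N / (n * Real.sqrt n) := by ring
      · have := hB.2.2
        push Not at this
        exact this.le
    exact_mod_cast this
  refine hsub.trans ?_
  -- `2^(N/(2n)) >= 1/ε`
  have hNn : (n : ℝ) ≤ N / n := by
    rw [le_div_iff₀ hn0]
    have h1 : n ^ 3 * (n * n) ≤ n ^ 3 * n.choose r := by
      calc n ^ 3 * (n * n) = n ^ 5 := by ring
        _ ≤ 2 ^ n := hpow
        _ ≤ _ := hc1
    have h2 : n * n ≤ n.choose r := Nat.le_of_mul_le_mul_left h1 (by positivity)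
    rw [hN]
    exact_mod_cast h2
  have hpow2 : 1 / ε ≤ (2 : ℝ) ^ (1 / 2 * (N / n)) := by
    have h1 : (2 : ℝ) ^ ((n : ℝ) / 2) ≤ (2 : ℝ) ^ (1 / 2 * (N / n)) :=
      Real.rpow_le_rpow_of_exponent_le (by norm_num) (by linarith)
    refine le_trans ?_ h1
    rw [Real.rpow_def_of_pos (by norm_num)]
    have h2 := Real.add_one_le_exp (Real.log 2 * ((n : ℝ) / 2))
    linarith
  have h3 : (A.card : ℝ) * (1 / ε) ≤ m :=
    (mul_le_mul_of_nonneg_left hpow2 (Nat.cast_nonneg _)).trans h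
  rw [mul_one_div, div_le_iff₀ hε] at h3
  linarith

end Pool.Agent.H41.VH
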