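import Pool.Agent.H8.VR.Sites

/-! MODULE Many (H3, H4, H5 of `h13_vamos_paper.md`, proved by helper8 in `H8/VR/Sites`).

`I` a stable family of `r`-sets with at least `kap N / n` members such that for all but `N / n^10` members `U` of `I` the pair graph of `U` has no
4-cycle (a cell with `ab = U` and `ac, ad, bc, bd` in `I`). Then a constant fraction of all `r`-sets `S` is `ac` of a cell with `ab, ad, bc, bd` in `I`. -/

open scoped BigOperators
open Filter

namespace Pool.Agent.H41.VH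

open Pool.Agent.H28.Johnson Pool.Agent.H28.Windows Pool.Agent.H8.VM

open Classical in
theorem many_sites (kap : ℝ) (hk : 0 < kap) : ∃ c : ℝ, 0 < c ∧ ∀ᶠ n : ℕ in atTop, ∀ r : ℕ,
    49 * n ≤ 100 * r → 100 * r ≤ 51 * n → ∀ I ∈ stables n r,
      kap * ((n.choose r : ℝ) / n) ≤ (I.card : ℝ) →
      ((I.filter fun U => ∃ c ∈ cells n r, c.at Qab = U ∧ c.at Qac ∈ I ∧ c.at Qad ∈ I ∧
        c.at Qbc ∈ I ∧ c.at Qbd ∈ I).card : ℝ) ≤ (n.choose r : ℝ) / (n : ℝ) ^ 10 →
      c * (n.choose r : ℝ) ≤ (((Base n r).filter fun S => ∃ c ∈ cells n r, c.at Qac = S ∧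
        c.at Qab ∈ I ∧ c.at Qad ∈ I ∧ c.at Qbc ∈ I ∧ c.at Qbd ∈ I).card : ℝ) := by
  obtain ⟨c, hc, h⟩ := Pool.Agent.H8.VR.many_sites kap hk
  refine ⟨c, hc, h.mono fun n hn r h49 h51 I hI h1 h2 => ?_⟩
  have := hn r h49 h51 I hI h1 (by convert h2)
  convert this

end Pool.Agent.H41.VH
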