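import Pool.Agent.H41.VH.Low
import Pool.Agent.H41.VH.Many

/-! MODULE LowF (about 130 lines). Typical matroids have many good cells.

`N = n.choose r`. Suppose `(gcells r B).card < 2 ^ (0.9 n)`. `Cen n r` gives `N >= 2 ^ n / n ^ 3`, so `2 ^ (0.9 n) <= N / (2 n ^ 10)` and `<= c N / 10` for large `n`. By `five` and
`Typ` (`wx <= N / n ^ 20`) the number of bad `U` is at most `2 ^ (0.9 n) + 70 n ^ 8 N / n ^ 20 <= N / n ^ 10`; `iso r B` is stable (`iso_mem_stables`) and has at least `kap N / n`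
members (`Typ`), so `many_sites` gives at least `c N` sites. By `sites`, `nbh_many` (`A = WW r B`, `WW <= N log^2 n / n^2`: number of `S` times `sqrt n` is at most `N log^2 n`) and `Typ` the
number of sites is at most `2 ^ (0.9 n) + 71 n ^ 8 N / n ^ 20 + N log^2 n / sqrt n + N log^2 n / n < c N` for large `n`: contradiction. -/

open scoped BigOperators
open Filter

namespace Pool.Agent.H41.VH

open Pool.Agent.H28.Johnson Pool.Agent.H28.V8 Pool.Agent.H8.VM Pool.Agent.H8.VR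
open Pool.Agent.H13.VM Pool.Agent.H97.VZ

/-- powers are below the exponential -/
private lemma LowF_exp (k : ℕ) (a : ℝ) (ha : 0 < a) : ∀ᶠ n : ℕ in atTop,
    (n : ℝ) ^ k * (2 : ℝ) ^ ((9 / 10 : ℝ) * n) ≤ a * (2 : ℝ) ^ n := by
  have h1 : Tendsto (fun n : ℕ => (n : ℝ) ^ k / ((2 : ℝ) ^ ((1 / 10 : ℝ))) ^ n) atTop (nhds 0) := by
    have hb : (1 : ℝ) < (2 : ℝ) ^ ((1 / 10 : ℝ)) := Real.one_lt_rpow (by norm_num) (by norm_num)
    exact tendsto_pow_const_div_const_pow_of_one_lt k hb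
  filter_upwards [h1.eventually_lt_const ha] with n hn
  have h2 : (0 : ℝ) < ((2 : ℝ) ^ ((1 / 10 : ℝ))) ^ n := by positivity
  have h3 : (n : ℝ) ^ k ≤ a * ((2 : ℝ) ^ ((1 / 10 : ℝ))) ^ n := by
    rw [div_lt_iff₀ h2] at hn
    exact hn.le
  have e1 : ((2 : ℝ) ^ ((1 / 10 : ℝ))) ^ n = (2 : ℝ) ^ ((1 / 10 : ℝ) * n) := by
    rw [← Real.rpow_natCast, ← Real.rpow_mul (by norm_num)]
  have e2 : (2 : ℝ) ^ n = (2 : ℝ) ^ ((1 / 10 : ℝ) * n) * (2 : ℝ) ^ ((9 / 10 : ℝ) * n) := by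
    rw [← Real.rpow_add (by norm_num), ← Real.rpow_natCast]
    congr 1
    ring
  rw [e1] at h3
  rw [e2, ← mul_assoc]
  exact mul_le_mul_of_nonneg_right h3 (by positivity)

private lemma LowF_log (a : ℝ) (ha : 0 < a) : ∀ᶠ n : ℕ in atTop,
    Real.log n ^ 2 / Real.sqrt n ≤ a := by
  have h1 : (fun x : ℝ => Real.log x ^ 4) =o[atTop] (id : ℝ → ℝ) := Real.isLittleO_pow_log_id_atTop
  have h2 := (h1.comp_tendsto tendsto_natCast_atTop_atTop).bound (c := a ^ 2) (by positivity)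
  filter_upwards [h2, eventually_ge_atTop 1] with n hn hn1
  have hn0 : (0 : ℝ) < n := by exact_mod_cast hn1
  have h3 : Real.log n ^ 4 ≤ a ^ 2 * n := by
    have := hn
    simp only [Function.comp, id] at this
    rw [Real.norm_of_nonneg (by positivity), Real.norm_of_nonneg hn0.le] at this
    exact this
  have hs : 0 < Real.sqrt n := Real.sqrt_pos.mpr hn0
  rw [div_le_iff₀ hs]
  apply le_of_sq_le_sq _ (by positivity)
  calc (Real.log n ^ 2) ^ 2 = Real.log n ^ 4 := by ring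
    _ ≤ a ^ 2 * n := h3
    _ = (a * Real.sqrt n) ^ 2 := by
      rw [mul_pow, Real.sq_sqrt hn0.le]

theorem low (kap : ℝ) (hk : 0 < kap) : ∀ᶠ n : ℕ in atTop, ∀ r : ℕ, 2 * r ≤ n → Cen n r →
    ∀ B ∈ Mats n r, Typ kap n r B → (2 : ℝ) ^ ((9 / 10 : ℝ) * n) ≤ ((gcells r B).card : ℝ) := by
  classical
  obtain ⟨c, hc, hev⟩ := many_sites kap hk
  have hc10 : 0 < c / 10 := by positivity
  have hpow : ∀ k : ℕ, ∀ a : ℝ, 0 < a → 0 < k → ∀ᶠ n : ℕ in atTop, a ≤ (n : ℝ) ^ k := by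
    intro k a _ hk0
    have h1 : Tendsto (fun n : ℕ => (n : ℝ) ^ k) atTop atTop :=
      (tendsto_pow_atTop hk0.ne').comp tendsto_natCast_atTop_atTop
    exact h1.eventually_ge_atTop a
  filter_upwards [hev, LowF_exp 13 (1 / 2) (by norm_num), LowF_exp 3 (c / 10) hc10,
    LowF_log (c / 10) hc10, hpow 12 (700 / c) (by positivity) (by norm_num),
    hpow 18 (10 / c) (by positivity) (by norm_num), eventually_ge_atTop 100]
    with n h1 h2 h3 h4 h5 h6 hn100 r hr hC B hB hT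
  obtain ⟨hC1, hC2, hC3⟩ := hC
  obtain ⟨t1, t2, t3, t4⟩ := hT
  have hn0 : (0 : ℝ) < n := by
    have : 0 < n := by omega
    exact_mod_cast this
  have hn100' : (100 : ℝ) ≤ n := by exact_mod_cast hn100
  have hrn : r ≤ n := by omega
  set N : ℝ := (n.choose r : ℝ) with hN
  have hN0 : 0 < N := by
    rw [hN]
    exact_mod_cast Nat.choose_pos hrn
  have hNbig : (2 : ℝ) ^ n ≤ (n : ℝ) ^ 3 * N := by
    rw [hN]
    exact_mod_cast hC1
  set P : ℝ := (2 : ℝ) ^ ((9 / 10 : ℝ) * n) with hP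
  have hP0 : 0 < P := by positivity
  by_contra hcon
  push Not at hcon
  set G : ℝ := ((gcells r B).card : ℝ) with hG
  have hG0 : 0 ≤ G := Nat.cast_nonneg _
  -- P is small
  have hP1 : P ≤ N / (2 * (n : ℝ) ^ 10) := by
    rw [le_div_iff₀ (by positivity)]
    have e : (n : ℝ) ^ 3 * (P * (2 * (n : ℝ) ^ 10)) ≤ (n : ℝ) ^ 3 * N := by
      calc (n : ℝ) ^ 3 * (P * (2 * (n : ℝ) ^ 10)) = 2 * ((n : ℝ) ^ 13 * P) := by ring
        _ ≤ 2 * (1 / 2 * (2 : ℝ) ^ n) := by linarith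
        _ = (2 : ℝ) ^ n := by ring
        _ ≤ _ := hNbig
    exact le_of_mul_le_mul_left e (by positivity)
  have hP2 : P ≤ c / 10 * N := by
    have e : (n : ℝ) ^ 3 * P ≤ (n : ℝ) ^ 3 * (c / 10 * N) := by
      calc (n : ℝ) ^ 3 * P ≤ c / 10 * (2 : ℝ) ^ n := h3
        _ ≤ c / 10 * ((n : ℝ) ^ 3 * N) := mul_le_mul_of_nonneg_left hNbig hc10.le
        _ = _ := by ring
    exact le_of_mul_le_mul_left e (by positivity)
  -- exceptional sets
  have hwx0 : (0 : ℝ) ≤ ((wx r B).card : ℝ) := Nat.cast_nonneg _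
  have hw1 : (n : ℝ) ^ 8 * ((wx r B).card : ℝ) ≤ N / (n : ℝ) ^ 12 := by
    calc (n : ℝ) ^ 8 * ((wx r B).card : ℝ) ≤ (n : ℝ) ^ 8 * (N / (n : ℝ) ^ 20) :=
          mul_le_mul_of_nonneg_left t2 (by positivity)
      _ = N / (n : ℝ) ^ 12 := by
        rw [show (20 : ℕ) = 8 + 12 from rfl, pow_add]
        field_simp
  have hw2 : (n : ℝ) ^ 2 * ((wx r B).card : ℝ) ≤ N / (n : ℝ) ^ 18 := by
    calc (n : ℝ) ^ 2 * ((wx r B).card : ℝ) ≤ (n : ℝ) ^ 2 * (N / (n : ℝ) ^ 20) :=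
          mul_le_mul_of_nonneg_left t2 (by positivity)
      _ = N / (n : ℝ) ^ 18 := by
        rw [show (20 : ℕ) = 2 + 18 from rfl, pow_add]
        field_simp
  -- few bad sets
  have hbad := five (n := n) (r := r) (B := B)
  have hbad' : (((iso r B).filter fun U => ∃ c ∈ cells n r, c.at Qab = U ∧ c.at Qac ∈ iso r B ∧
      c.at Qad ∈ iso r B ∧ c.at Qbc ∈ iso r B ∧ c.at Qbd ∈ iso r B).card : ℝ) ≤
      N / (n : ℝ) ^ 10 := by
    have e1 : (((iso r B).filter fun U => ∃ c ∈ cells n r, c.at Qab = U ∧ c.at Qac ∈ iso r B ∧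
        c.at Qad ∈ iso r B ∧ c.at Qbc ∈ iso r B ∧ c.at Qbd ∈ iso r B).card : ℝ) ≤
        G + 70 * ((n : ℝ) ^ 8 * ((wx r B).card : ℝ)) := by
      rw [hG]
      exact_mod_cast hbad
    have e2 : N / (2 * (n : ℝ) ^ 10) = N / (n : ℝ) ^ 10 * (1 / 2) := by
      field_simp
    have e3 : 70 * (N / (n : ℝ) ^ 12) ≤ N / (n : ℝ) ^ 10 * (1 / 2) := by
      have : N / (n : ℝ) ^ 12 = N / (n : ℝ) ^ 10 * (1 / (n : ℝ) ^ 2) := by
        rw [show (12 : ℕ) = 10 + 2 from rfl, pow_add]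
        field_simp
      rw [this]
      have h7 : 1 / (n : ℝ) ^ 2 ≤ 1 / 140 := by
        apply one_div_le_one_div_of_le (by norm_num)
        nlinarith
      have h8 : 0 ≤ N / (n : ℝ) ^ 10 := by positivity
      nlinarith [mul_le_mul_of_nonneg_left h7 h8]
    rw [e2] at hP1
    linarith
  have hsites := h1 r hC2 hC3 (iso r B) iso_mem_stables t3 hbad'
  have hs := sites (n := n) (r := r) (B := B)
  set M : ℝ := ((((Base n r).filter fun S => n < (nbh r S ∩ WW r B).card ^ 2).card : ℕ) : ℝ) with hM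
  set K : ℝ := ((((Base n r).filter fun S => 2 ^ (4 * n / 5) < cost r B S).card : ℕ) : ℝ) with hK
  have hs' : (((Base n r).filter fun S => ∃ c ∈ cells n r, c.at Qac = S ∧
      c.at Qab ∈ iso r B ∧ c.at Qad ∈ iso r B ∧ c.at Qbc ∈ iso r B ∧ c.at Qbd ∈ iso r B).card : ℝ) ≤
      G + 70 * ((n : ℝ) ^ 8 * ((wx r B).card : ℝ)) + (n : ℝ) ^ 2 * ((wx r B).card : ℝ) + M + K := by
    rw [hG, hM, hK]
    exact_mod_cast hs
  -- the term with many neighbours
  have hsq : 0 < Real.sqrt n := Real.sqrt_pos.mpr hn0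
  have hM1 : M ≤ c / 10 * N := by
    have e1 := nbh_many (n := n) (r := r) (WW r B)
    have e2 : M * Real.sqrt n ≤ N * Real.log n ^ 2 := by
      refine (le_trans e1 (mul_le_mul_of_nonneg_left t1 (by positivity))).trans (le_of_eq ?_)
      field_simp
    have e3 : Real.log n ^ 2 ≤ c / 10 * Real.sqrt n := by
      rwa [div_le_iff₀ hsq] at h4
    have e4 : M * Real.sqrt n ≤ (c / 10 * N) * Real.sqrt n := by
      refine e2.trans ?_
      nlinarith [mul_le_mul_of_nonneg_left e3 hN0.le]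
    exact le_of_mul_le_mul_right e4 hsq
  have hK1 : K ≤ c / 10 * N := by
    refine t4.trans ?_
    have e3 : Real.log n ^ 2 ≤ c / 10 * Real.sqrt n := by
      rwa [div_le_iff₀ hsq] at h4
    have e5 : Real.sqrt n ≤ n := by
      rw [Real.sqrt_le_left hn0.le]
      nlinarith
    have e6 : Real.log n ^ 2 / n ≤ c / 10 := by
      rw [div_le_iff₀ hn0]
      nlinarith
    nlinarith [mul_le_mul_of_nonneg_left e6 hN0.le]
  have hA : 70 * (N / (n : ℝ) ^ 12) ≤ c / 10 * N := by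
    have : 70 * (N / (n : ℝ) ^ 12) = 70 * N / (n : ℝ) ^ 12 := by ring
    rw [this, div_le_iff₀ (by positivity)]
    have h9 : 700 ≤ c * (n : ℝ) ^ 12 := by
      rw [div_le_iff₀ hc] at h5
      linarith
    nlinarith
  have hB' : N / (n : ℝ) ^ 18 ≤ c / 10 * N := by
    rw [div_le_iff₀ (by positivity)]
    have h9 : 10 ≤ c * (n : ℝ) ^ 18 := by
      rw [div_le_iff₀ hc] at h6
      linarith
    nlinarith
  have hfin : c * N ≤ c / 10 * N + c / 10 * N + c / 10 * N + c / 10 * N + c / 10 * N := by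
    linarith [hsites.trans hs']
  nlinarith [mul_pos hc hN0]

end Pool.Agent.H41.VH
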