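import Pool.Agent.H41.VH.Defs
import Pool.Agent.H13.VM.D7
import Pool.Agent.H13.VM.C3

/-! MODULE FewH (helper13; from Theorem D and C3). Few matroids have a large heavy part.

Theorem D: the number of matroids with (G) and `s0 n r <= (hvy r B).card` is at most `2^(-n) m`; C3: the number of matroids without (G) is at most
`m 2^(-0.4 n)`. -/

open scoped BigOperators
open Filter

namespace Pool.Agent.H41.VH

open Pool.Agent.H28.Johnson Pool.Agent.H28.V8 Pool.Agent.H8.VM Pool.Agent.H8.VR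
open Pool.Agent.H13.VM Pool.Agent.H97.VZ

private lemma FewH_num (ε : ℝ) (hε : 0 < ε) : ∀ᶠ n : ℕ in atTop,
    (2 : ℝ) ^ (-(n : ℝ)) + (2 : ℝ) ^ (-(0.4 : ℝ) * n) ≤ ε := by
  have h1 : Tendsto (fun n : ℕ => (2 : ℝ) ^ (-(n : ℝ))) atTop (nhds 0) := by
    have h : Tendsto (fun x : ℝ => (2 : ℝ) ^ x) atBot (nhds 0) :=
      tendsto_rpow_atBot_of_base_gt_one 2 (by norm_num)
    exact h.comp (tendsto_neg_atTop_atBot.comp tendsto_natCast_atTop_atTop)
  have h2 : Tendsto (fun n : ℕ => (2 : ℝ) ^ (-(0.4 : ℝ) * n)) atTop (nhds 0) := by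
    have h : Tendsto (fun x : ℝ => (2 : ℝ) ^ x) atBot (nhds 0) :=
      tendsto_rpow_atBot_of_base_gt_one 2 (by norm_num)
    exact h.comp (tendsto_natCast_atTop_atTop.const_mul_atTop_of_neg (by norm_num))
  have h3 := h1.add h2
  rw [add_zero] at h3
  exact (h3.eventually (ge_mem_nhds hε))

open Classical in
theorem few_heavy (ε : ℝ) (hε : 0 < ε) : ∀ᶠ n : ℕ in atTop, ∀ r : ℕ, 2 * r ≤ n → Cen n r →
    (((Mats n r).filter fun B => s0 n r ≤ ((hvy r B).card : ℝ)).card : ℝ) ≤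
      ε * ((Mats n r).card : ℝ) := by
  filter_upwards [heavy_small, girth, FewH_num ε hε] with n h1 h2 h3 r _ hc
  have h4 := h1 r hc
  have h5 := h2 r hc
  have h6 : ((Mats n r).filter fun B => s0 n r ≤ ((hvy r B).card : ℝ)) ⊆
      ((Mats n r).filter fun B => GG (gg n) B ∧ s0 n r ≤ (hvy r B).card) ∪
        ((Mats n r).filter fun B => ¬ GG (gg n) B) := by
    intro B hB
    rw [Finset.mem_filter] at hB
    rw [Finset.mem_union, Finset.mem_filter, Finset.mem_filter]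
    by_cases hg : GG (gg n) B
    · exact Or.inl ⟨hB.1, hg, hB.2⟩
    · exact Or.inr ⟨hB.1, hg⟩
  have h7 : (((Mats n r).filter fun B => s0 n r ≤ ((hvy r B).card : ℝ)).card : ℝ) ≤
      (((Mats n r).filter fun B => GG (gg n) B ∧ s0 n r ≤ (hvy r B).card).card : ℝ) +
        (((Mats n r).filter fun B => ¬ GG (gg n) B).card : ℝ) := by
    exact_mod_cast (Finset.card_le_card h6).trans (Finset.card_union_le _ _)
  have hm : (0 : ℝ) ≤ ((Mats n r).card : ℝ) := Nat.cast_nonneg _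
  calc _ ≤ _ := h7
    _ ≤ (2 : ℝ) ^ (-(n : ℝ)) * ((Mats n r).card : ℝ) +
        (2 : ℝ) ^ (-(0.4 : ℝ) * n) * ((Mats n r).card : ℝ) := add_le_add h4 h5
    _ = ((2 : ℝ) ^ (-(n : ℝ)) + (2 : ℝ) ^ (-(0.4 : ℝ) * n)) * ((Mats n r).card : ℝ) := by ring
    _ ≤ ε * ((Mats n r).card : ℝ) := mul_le_mul_of_nonneg_right h3 hm

end Pool.Agent.H41.VH
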