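import Pool.Agent.H41.VH.Lmean
import Pool.Agent.H41.VH.FewH

/-! MODULE TypA. The nonisolated nonbases and the exceptional ones are few for typical matroids. -/

open scoped BigOperators
open Filter

namespace Pool.Agent.H41.VH

open Pool.Agent.H28.Johnson Pool.Agent.H28.V8 Pool.Agent.H8.VM Pool.Agent.H8.VR
open Pool.Agent.H13.VM Pool.Agent.H97.VZ

/-- `2^(-n^0.05) <= 1 / (2 n^20)` for large `n` -/
private lemma TypA_small : ∀ᶠ n : ℕ in atTop,
    (2 : ℝ) ^ (-((n : ℝ) ^ (0.05 : ℝ))) ≤ 1 / (2 * (n : ℝ) ^ 20) := by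
  have hl : 0 < Real.log 2 := Real.log_pos (by norm_num)
  have h0 := Real.tendsto_pow_mul_exp_neg_atTop_nhds_zero 400
  have h1 : Tendsto (fun n : ℕ => Real.log 2 * (n : ℝ) ^ (0.05 : ℝ)) atTop atTop := by
    refine Tendsto.const_mul_atTop hl ?_
    exact (tendsto_rpow_atTop (by norm_num : (0 : ℝ) < 0.05)).comp tendsto_natCast_atTop_atTop
  have h2 := h0.comp h1
  have hc : 0 < (Real.log 2) ^ 400 / 2 := by positivity
  filter_upwards [h2.eventually (gt_mem_nhds hc), eventually_ge_atTop 1] with n hn hn1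
  have hn0 : (0 : ℝ) < n := by exact_mod_cast hn1
  have hy : ((n : ℝ) ^ (0.05 : ℝ)) ^ 400 = (n : ℝ) ^ 20 := by
    rw [← Real.rpow_natCast, ← Real.rpow_mul hn0.le, ← Real.rpow_natCast]
    norm_num
  simp only [Function.comp] at hn
  rw [mul_pow, hy] at hn
  have he : (2 : ℝ) ^ (-((n : ℝ) ^ (0.05 : ℝ))) = Real.exp (-(Real.log 2 * (n : ℝ) ^ (0.05 : ℝ))) := by
    rw [Real.rpow_def_of_pos (by norm_num : (0 : ℝ) < 2), mul_neg]
  rw [he, le_div_iff₀ (by positivity)]
  have hL : 0 < (Real.log 2) ^ 400 := by positivity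
  have h3 : Real.log 2 ^ 400 * (Real.exp (-(Real.log 2 * (n : ℝ) ^ (0.05 : ℝ))) * (2 * (n : ℝ) ^ 20)) ≤
      Real.log 2 ^ 400 * 1 := by
    nlinarith [hn]
  exact le_of_mul_le_mul_left h3 hL

/-- Markov -/
private lemma TypA_markov {α : Type*} (S : Finset α) (f : α → ℕ) (t : ℝ)
    (p : α → Prop) [DecidablePred p] (hp : ∀ x ∈ S, p x → t ≤ (f x : ℝ)) :
    ((S.filter p).card : ℝ) * t ≤ ((∑ x ∈ S, f x : ℕ) : ℝ) := by
  push_cast
  calc ((S.filter p).card : ℝ) * t = ∑ x ∈ S.filter p, t := by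
        rw [Finset.sum_const, nsmul_eq_mul]
    _ ≤ ∑ x ∈ S.filter p, (f x : ℝ) :=
        Finset.sum_le_sum fun x hx => hp x (Finset.mem_filter.mp hx).1 (Finset.mem_filter.mp hx).2
    _ ≤ ∑ x ∈ S, (f x : ℝ) :=
        Finset.sum_le_sum_of_subset_of_nonneg (Finset.filter_subset _ _) fun _ _ _ =>
          Nat.cast_nonneg _

private lemma TypA_WW {n r : ℕ} (B : Finset (Finset (Fin n))) :
    (WW r B).card ≤ (lit r B).card + (hvy r B).card := by
  classical
  refine (Finset.card_le_card ?_).trans (Finset.card_union_le _ _)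
  intro X hX
  rw [Finset.mem_union]
  by_cases h : X ∈ hvy r B
  · exact Or.inr h
  · exact Or.inl (mem_lit.mpr ⟨hX, h⟩)

open Classical in
private lemma TypA_wx {n r : ℕ} (hr : 1 ≤ r) (hrn : r < n) {B : Finset (Finset (Fin n))}
    (hB : IsMat n r B) :
    (wx r B).card ≤ ((lit r B).filter fun X => 25 ≤ nl r B X).card + (hvy r B).card := by
  refine (Finset.card_le_card ?_).trans (Finset.card_union_le _ _)
  intro X hX
  obtain ⟨hN, h⟩ := mem_wx.mp hX
  rw [Finset.mem_union, Finset.mem_filter]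
  by_cases hh : X ∈ hvy r B
  · exact Or.inr hh
  · have h25 : 25 ≤ nl r B X := h.resolve_left hh
    left
    refine ⟨mem_lit.mpr ⟨mem_WW.mpr ⟨hN, fun hi => ?_⟩, hh⟩, h25⟩
    have h1 : linesOf r B (comp r (NB r B) X) = ∅ := by
      rw [comp_iso hi, Finset.eq_empty_iff_forall_notMem]
      intro L hL
      obtain ⟨hL1, Y, hY, hL2⟩ := mem_linesOf.mp hL
      rw [Finset.mem_singleton] at hY
      have h2 := (iso_iff hB hr hrn hN).mp hi
      have h3 : L ∈ thr r B X := mem_thr.mpr ⟨hL1, hY ▸ hL2⟩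
      rw [h2] at h3
      exact absurd h3 (Finset.notMem_empty _)
    rw [nl, h1, Finset.card_empty] at h25
    omega

private lemma TypA_s0 : ∀ᶠ n : ℕ in atTop, ∀ r : ℕ,
    s0 n r ≤ (n.choose r : ℝ) / (2 * (n : ℝ) ^ 20) := by
  filter_upwards [TypA_small] with n hn r
  rw [s0]
  calc (n.choose r : ℝ) * (2 : ℝ) ^ (-((n : ℝ) ^ (0.05 : ℝ)))
      ≤ (n.choose r : ℝ) * (1 / (2 * (n : ℝ) ^ 20)) :=
        mul_le_mul_of_nonneg_left hn (Nat.cast_nonneg _)
    _ = _ := by ring

open Classical in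
theorem typ_ww (ε : ℝ) (hε : 0 < ε) : ∀ᶠ n : ℕ in atTop, ∀ r : ℕ, 2 * r ≤ n → Cen n r →
    (((Mats n r).filter fun B =>
      ¬ ((WW r B).card : ℝ) ≤ (n.choose r : ℝ) * (Real.log n ^ 2 / (n : ℝ) ^ 2)).card : ℝ) ≤
      ε * ((Mats n r).card : ℝ) := by
  obtain ⟨C, hC, hlm⟩ := lit_mean
  have hlog : Tendsto (fun n : ℕ => Real.log (n : ℝ)) atTop atTop :=
    Real.tendsto_log_atTop.comp tendsto_natCast_atTop_atTop
  filter_upwards [few_heavy (ε / 2) (by positivity), hlm, TypA_s0, eventually_ge_atTop 600,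
    hlog.eventually_ge_atTop 1, hlog.eventually_ge_atTop (4 * C / ε)]
    with n hfh hlm hs0 hn hl1 hl2 r h2r hcen
  have hn0 : (1 : ℝ) ≤ n := by exact_mod_cast (by omega : 1 ≤ n)
  have hnp : (0 : ℝ) < n := by linarith
  have hrn : r ≤ n := by omega
  have hN : (0 : ℝ) < (n.choose r : ℝ) := by exact_mod_cast Nat.choose_pos hrn
  set t : ℝ := (n.choose r : ℝ) * (Real.log n ^ 2 / (2 * (n : ℝ) ^ 2)) with ht
  have hlp : 0 < Real.log n := by linarith
  have htp : 0 < t := by positivity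
  have hs1 : s0 n r ≤ t := by
    refine (hs0 r).trans ?_
    rw [ht, ← mul_div_assoc]
    rw [div_le_div_iff₀ (by positivity) (by positivity)]
    have h1 : (1 : ℝ) ≤ Real.log n ^ 2 := by nlinarith
    have h2 : (n : ℝ) ^ 2 ≤ (n : ℝ) ^ 20 := pow_le_pow_right₀ hn0 (by norm_num)
    have h3 : (n : ℝ) ^ 2 ≤ Real.log n ^ 2 * (n : ℝ) ^ 20 := by
      have : 0 < (n : ℝ) ^ 20 := by positivity
      nlinarith
    nlinarith [mul_le_mul_of_nonneg_left h3 hN.le]
  have hsub : ((Mats n r).filter fun B =>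
      ¬ ((WW r B).card : ℝ) ≤ (n.choose r : ℝ) * (Real.log n ^ 2 / (n : ℝ) ^ 2)) ⊆
      ((Mats n r).filter fun B => s0 n r ≤ ((hvy r B).card : ℝ)) ∪
      ((Mats n r).filter fun B => t < ((lit r B).card : ℝ)) := by
    intro B hB
    rw [Finset.mem_filter] at hB
    rw [Finset.mem_union, Finset.mem_filter, Finset.mem_filter]
    by_cases hh : s0 n r ≤ ((hvy r B).card : ℝ)
    · exact Or.inl ⟨hB.1, hh⟩
    · refine Or.inr ⟨hB.1, ?_⟩
      push Not at hh
      have h1 := hB.2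
      push Not at h1
      have h2 : ((WW r B).card : ℝ) ≤ ((lit r B).card : ℝ) + ((hvy r B).card : ℝ) := by
        exact_mod_cast TypA_WW B
      have h3 : (n.choose r : ℝ) * (Real.log n ^ 2 / (n : ℝ) ^ 2) = 2 * t := by
        rw [ht]; field_simp
      rw [h3] at h1
      linarith
  have h1 : ((((Mats n r).filter fun B => t < ((lit r B).card : ℝ)).card : ℝ)) ≤
      ε / 2 * ((Mats n r).card : ℝ) := by
    have hm := TypA_markov (Mats n r) (fun B => (lit r B).card) t
      (fun B => t < ((lit r B).card : ℝ)) (fun B _ h => h.le)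
    have hm2 := hm.trans (hlm r hcen.2.1 hcen.2.2)
    have h5 : C * ((n.choose r : ℝ) * Real.log n / (n : ℝ) ^ 2) * ((Mats n r).card : ℝ) ≤
        ε / 2 * ((Mats n r).card : ℝ) * t := by
      have h6 : 4 * C ≤ ε * Real.log n := by
        rw [div_le_iff₀ hε] at hl2; linarith
      have h7 : C * ((n.choose r : ℝ) * Real.log n / (n : ℝ) ^ 2) ≤ ε / 2 * t := by
        rw [ht]
        have e1 : C * ((n.choose r : ℝ) * Real.log n / (n : ℝ) ^ 2) =
            (4 * C) * ((n.choose r : ℝ) * Real.log n / (4 * (n : ℝ) ^ 2)) := by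
          field_simp
        have e2 : ε / 2 * ((n.choose r : ℝ) * (Real.log n ^ 2 / (2 * (n : ℝ) ^ 2))) =
            (ε * Real.log n) * ((n.choose r : ℝ) * Real.log n / (4 * (n : ℝ) ^ 2)) := by
          field_simp; norm_num
        rw [e1, e2]
        exact mul_le_mul_of_nonneg_right h6 (by positivity)
      calc _ ≤ (ε / 2 * t) * ((Mats n r).card : ℝ) :=
            mul_le_mul_of_nonneg_right h7 (Nat.cast_nonneg _)
        _ = _ := by ring
    exact le_of_mul_le_mul_right (hm2.trans h5) htp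
  have h2 := hfh r h2r hcen
  calc _ ≤ ((((Mats n r).filter fun B => s0 n r ≤ ((hvy r B).card : ℝ)) ∪
      ((Mats n r).filter fun B => t < ((lit r B).card : ℝ))).card : ℝ) := by
        exact_mod_cast Finset.card_le_card hsub
    _ ≤ ((((Mats n r).filter fun B => s0 n r ≤ ((hvy r B).card : ℝ)).card : ℝ)) +
        ((((Mats n r).filter fun B => t < ((lit r B).card : ℝ)).card : ℝ)) := by
        exact_mod_cast Finset.card_union_le _ _
    _ ≤ ε / 2 * ((Mats n r).card : ℝ) + ε / 2 * ((Mats n r).card : ℝ) := add_le_add h2 h1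
    _ = _ := by ring

open Classical in
theorem typ_wx (ε : ℝ) (hε : 0 < ε) : ∀ᶠ n : ℕ in atTop, ∀ r : ℕ, 2 * r ≤ n → Cen n r →
    (((Mats n r).filter fun B =>
      ¬ ((wx r B).card : ℝ) ≤ (n.choose r : ℝ) / (n : ℝ) ^ 20).card : ℝ) ≤
      ε * ((Mats n r).card : ℝ) := by
  have hnt : Tendsto (fun n : ℕ => (n : ℝ)) atTop atTop := tendsto_natCast_atTop_atTop
  filter_upwards [few_heavy (ε / 2) (by positivity), TypA_s0, eventually_ge_atTop 600,
    hnt.eventually_ge_atTop (4 * 5 ^ 25 / ε)]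
    with n hfh hs0 hn hl2 r h2r hcen
  have hn0 : (1 : ℝ) ≤ n := by exact_mod_cast (by omega : 1 ≤ n)
  have hnp : (0 : ℝ) < n := by linarith
  have hrn : r < n := by omega
  have hr1 : 1 ≤ r := by have := hcen.2.1; omega
  have hN : (0 : ℝ) < (n.choose r : ℝ) := by exact_mod_cast Nat.choose_pos hrn.le
  set t : ℝ := (n.choose r : ℝ) / (2 * (n : ℝ) ^ 20) with ht
  have htp : 0 < t := by positivity
  have hsub : ((Mats n r).filter fun B =>
      ¬ ((wx r B).card : ℝ) ≤ (n.choose r : ℝ) / (n : ℝ) ^ 20) ⊆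
      ((Mats n r).filter fun B => s0 n r ≤ ((hvy r B).card : ℝ)) ∪
      ((Mats n r).filter fun B => t < (((lit r B).filter fun X => 25 ≤ nl r B X).card : ℝ)) := by
    intro B hB
    rw [Finset.mem_filter] at hB
    rw [Finset.mem_union, Finset.mem_filter, Finset.mem_filter]
    by_cases hh : s0 n r ≤ ((hvy r B).card : ℝ)
    · exact Or.inl ⟨hB.1, hh⟩
    · refine Or.inr ⟨hB.1, ?_⟩
      push Not at hh
      have h1 := hB.2
      push Not at h1
      have h2 : ((wx r B).card : ℝ) ≤ (((lit r B).filter fun X => 25 ≤ nl r B X).card : ℝ) +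
          ((hvy r B).card : ℝ) := by
        exact_mod_cast TypA_wx hr1 hrn (mem_Mats.mp hB.1)
      have h3 : (n.choose r : ℝ) / (n : ℝ) ^ 20 = 2 * t := by
        rw [ht]; field_simp
      rw [h3] at h1
      have h4 := hs0 r
      linarith
  have h1 : ((((Mats n r).filter fun B =>
      t < (((lit r B).filter fun X => 25 ≤ nl r B X).card : ℝ)).card : ℝ)) ≤
      ε / 2 * ((Mats n r).card : ℝ) := by
    have hm := TypA_markov (Mats n r) (fun B => ((lit r B).filter fun X => 25 ≤ nl r B X).card) t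
      (fun B => t < (((lit r B).filter fun X => 25 ≤ nl r B X).card : ℝ)) (fun B _ h => h.le)
    have h25 := lit25 hn hcen.2.1 hcen.2.2
    have h25' : (n : ℝ) ^ 25 * ((∑ B ∈ Mats n r,
        ((lit r B).filter fun X => 25 ≤ nl r B X).card : ℕ) : ℝ) ≤
        5 ^ 25 * ((n.choose r : ℝ) * ((Mats n r).card : ℝ)) := by exact_mod_cast h25
    have h6 : 4 * 5 ^ 25 ≤ ε * (n : ℝ) ^ 5 := by
      rw [div_le_iff₀ hε] at hl2
      have h8 : (n : ℝ) ≤ (n : ℝ) ^ 5 := by
        calc (n : ℝ) = (n : ℝ) ^ 1 := (pow_one _).symm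
          _ ≤ (n : ℝ) ^ 5 := pow_le_pow_right₀ hn0 (by norm_num)
      nlinarith [mul_le_mul_of_nonneg_left h8 hε.le]
    have h7 : (n : ℝ) ^ 25 * (((((Mats n r).filter fun B =>
        t < (((lit r B).filter fun X => 25 ≤ nl r B X).card : ℝ)).card : ℝ)) * t) ≤
        (n : ℝ) ^ 25 * (ε / 2 * ((Mats n r).card : ℝ) * t) := by
      refine (mul_le_mul_of_nonneg_left hm (by positivity)).trans (h25'.trans ?_)
      have e1 : (n : ℝ) ^ 25 * (ε / 2 * ((Mats n r).card : ℝ) * t) =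
          (ε * (n : ℝ) ^ 5) / 4 * ((n.choose r : ℝ) * ((Mats n r).card : ℝ)) := by
        rw [ht]; field_simp; ring
      rw [e1]
      refine mul_le_mul_of_nonneg_right ?_ (by positivity)
      linarith
    have h8 := le_of_mul_le_mul_left h7 (by positivity)
    exact le_of_mul_le_mul_right h8 htp
  have h2 := hfh r h2r hcen
  calc _ ≤ ((((Mats n r).filter fun B => s0 n r ≤ ((hvy r B).card : ℝ)) ∪
      ((Mats n r).filter fun B =>
        t < (((lit r B).filter fun X => 25 ≤ nl r B X).card : ℝ))).card : ℝ) := by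
        exact_mod_cast Finset.card_le_card hsub
    _ ≤ ((((Mats n r).filter fun B => s0 n r ≤ ((hvy r B).card : ℝ)).card : ℝ)) +
        ((((Mats n r).filter fun B =>
          t < (((lit r B).filter fun X => 25 ≤ nl r B X).card : ℝ)).card : ℝ)) := by
        exact_mod_cast Finset.card_union_le _ _
    _ ≤ ε / 2 * ((Mats n r).card : ℝ) + ε / 2 * ((Mats n r).card : ℝ) := add_le_add h2 h1
    _ = _ := by ring

end Pool.Agent.H41.VH
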