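import Pool.Agent.H41.VH.Fib
import Pool.Agent.H8.VR.CostFinal

/-! MODULE TypB (about 80 lines). Few expensive sites for typical matroids.

The sum over `B` in `Mats n r` of the number of `S` with `2 ^ (4 n / 5) < cost r B S` is by `fib_sum` the sum over `W` of the sum over `I` in `stabs r (reg r W)` of the number of `S`
with `2 ^ (4 n / 5) < LamR r (reg r W) I S` (`cost r B S = LamR r (reg r (WW r B)) (iso r B) S` by definition), at most
`C (N log n / n) * sum over W of (stabs r (reg r W)).card = C (N log n / n) m` (`cost_bound`, `fib_sum` with `F = 1`). Markov with threshold `N log^2 n / n`: at most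
`(C / log n) m` matroids. -/

open scoped BigOperators
open Filter

namespace Pool.Agent.H41.VH

open Pool.Agent.H28.Johnson Pool.Agent.H28.V8 Pool.Agent.H8.VM Pool.Agent.H8.VR
open Pool.Agent.H13.VM Pool.Agent.H97.VZ

open Classical in
theorem typ_cost (ε : ℝ) (hε : 0 < ε) : ∀ᶠ n : ℕ in atTop, ∀ r : ℕ, 2 * r ≤ n → Cen n r →
    (((Mats n r).filter fun B =>
      ¬ (((Base n r).filter fun S => 2 ^ (4 * n / 5) < cost r B S).card : ℝ) ≤
        (n.choose r : ℝ) * (Real.log n ^ 2 / n)).card : ℝ) ≤
      ε * ((Mats n r).card : ℝ) := by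
  obtain ⟨C, hC, hev⟩ := cost_bound
  have hlog : Tendsto (fun n : ℕ => Real.log (n : ℝ)) atTop atTop :=
    Real.tendsto_log_atTop.comp tendsto_natCast_atTop_atTop
  filter_upwards [hev, hlog.eventually_ge_atTop 1, hlog.eventually_ge_atTop (C / ε),
    eventually_ge_atTop 200] with n hn hL1 hLC hn200 r h2r hcen
  obtain ⟨hc1, h49, h51⟩ := hcen
  have hb := hn r h49 h51
  set L := Real.log (n : ℝ) with hLdef
  have hn0 : (0 : ℝ) < n := by
    have : 0 < n := by omega
    exact_mod_cast this
  have hr : 1 ≤ r := by omega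
  have hrn : r < n := by omega
  have hN0 : (0 : ℝ) < (n.choose r : ℝ) := by
    have : 0 < n.choose r := Nat.choose_pos (by omega)
    exact_mod_cast this
  set N : ℝ := (n.choose r : ℝ) with hNdef
  -- the sum
  set F : Finset (Finset (Fin n)) → Finset (Finset (Fin n)) → ℝ := fun W I =>
    (((Base n r).filter fun S => 2 ^ (4 * n / 5) < LamR r (reg r W) I S).card : ℝ) with hF
  have hsum := fib_sum (n := n) hr hrn F
  have hone := fib_sum (n := n) hr hrn (fun _ _ => (1 : ℝ))
  have hle : ∑ B ∈ Mats n r, F (WW r B) (iso r B) ≤ C * (N * L / n) * ((Mats n r).card : ℝ) := by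
    rw [hsum]
    calc ∑ W ∈ (Mats n r).image (WW r), ∑ I ∈ stabs r (reg r W), F W I
        ≤ ∑ W ∈ (Mats n r).image (WW r), C * (N * L / n) * ((stabs r (reg r W)).card : ℝ) := by
          refine Finset.sum_le_sum fun W _ => ?_
          have h1 := hb (reg r W) (Finset.filter_subset _ _)
          push_cast at h1
          exact h1
      _ = C * (N * L / n) * ((Mats n r).card : ℝ) := by
          rw [← Finset.mul_sum]
          congr 1
          simp only [Finset.sum_const, nsmul_eq_mul, mul_one] at hone
          exact hone.symm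
  -- Markov
  set T : ℝ := N * (L ^ 2 / n) with hT
  have hL0 : 0 < L := by linarith
  have hT0 : 0 < T := by positivity
  set Bad := (Mats n r).filter fun B =>
    ¬ (((Base n r).filter fun S => 2 ^ (4 * n / 5) < cost r B S).card : ℝ) ≤ T with hBad
  have hmk : (Bad.card : ℝ) * T ≤ ∑ B ∈ Mats n r, F (WW r B) (iso r B) := by
    calc (Bad.card : ℝ) * T = ∑ B ∈ Bad, T := by rw [Finset.sum_const, nsmul_eq_mul]
      _ ≤ ∑ B ∈ Bad, F (WW r B) (iso r B) := by
          refine Finset.sum_le_sum fun B hB => ?_
          have h1 := (Finset.mem_filter.1 hB).2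
          exact (not_le.1 h1).le
      _ ≤ ∑ B ∈ Mats n r, F (WW r B) (iso r B) :=
          Finset.sum_le_sum_of_subset_of_nonneg (Finset.filter_subset _ _)
            (fun _ _ _ => Nat.cast_nonneg _)
  have hfin : (Bad.card : ℝ) * T ≤ ε * ((Mats n r).card : ℝ) * T := by
    refine (hmk.trans hle).trans ?_
    have h1 : C ≤ ε * L := by
      rw [div_le_iff₀ hε] at hLC
      linarith
    have h2 : C * (N * L / n) ≤ ε * T := by
      rw [hT]
      calc C * (N * L / n) ≤ (ε * L) * (N * L / n) := by gcongr
        _ = ε * (N * (L ^ 2 / n)) := by ring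
    calc C * (N * L / n) * ((Mats n r).card : ℝ) ≤ (ε * T) * ((Mats n r).card : ℝ) := by gcongr
      _ = ε * ((Mats n r).card : ℝ) * T := by ring
  exact le_of_mul_le_mul_right hfin hT0

end Pool.Agent.H41.VH
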