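import Pool.Agent.H41.VH.Up
import Pool.Agent.H41.VH.LowF
import Pool.Agent.H41.VH.FewI
import Pool.Agent.H41.VH.TypA
import Pool.Agent.H41.VH.TypB

/-! MODULE FinH (about 120 lines). The labelled rank-level theorem (H8).

`kap` from `few_iso`. `Fr n r` is the union of the not typical ones (at most `4 * (ε/5) m` by `typ_ww`, `typ_wx`, `few_iso`, `typ_cost`) and of `Fr cap Typ`: by `low` and `up_raw`, `up_num`
`(Fr cap Typ).card * 2^(0.9 n) <= sum over Fr of (gcells r B).card <= m 2^(0.85 n)`, so `(Fr cap Typ).card <= 2^(-0.05 n) m <= (ε/5) m`. -/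

open scoped BigOperators
open Filter

namespace Pool.Agent.H41.VH

open Pool.Agent.H28.Johnson Pool.Agent.H28.V8 Pool.Agent.H8.VM Pool.Agent.H8.VR
open Pool.Agent.H13.VM Pool.Agent.H97.VZ

theorem C1_holds : C1 := by
  classical
  intro ε hε
  set δ : ℝ := ε / 5 with hδ
  have hδ0 : 0 < δ := by positivity
  obtain ⟨kap, hk, hiso⟩ := few_iso
  have hexp : ∀ᶠ n : ℕ in atTop, (2 : ℝ) ^ ((17 / 20 : ℝ) * n) ≤
      δ * (2 : ℝ) ^ ((9 / 10 : ℝ) * n) := by
    have h1 : Tendsto (fun n : ℕ => (2 : ℝ) ^ ((1 / 20 : ℝ) * n)) atTop atTop :=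
      (tendsto_rpow_atTop_of_base_gt_one 2 one_lt_two).comp
        (tendsto_natCast_atTop_atTop.const_mul_atTop (by norm_num))
    filter_upwards [h1.eventually_ge_atTop (1 / δ)] with n hn
    have h2 : (2 : ℝ) ^ ((9 / 10 : ℝ) * n) =
        (2 : ℝ) ^ ((17 / 20 : ℝ) * n) * (2 : ℝ) ^ ((1 / 20 : ℝ) * n) := by
      rw [← Real.rpow_add two_pos]
      congr 1
      ring
    rw [h2]
    have h3 : (0 : ℝ) < (2 : ℝ) ^ ((17 / 20 : ℝ) * n) := Real.rpow_pos_of_pos two_pos _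
    rw [div_le_iff₀ hδ0] at hn
    calc (2 : ℝ) ^ ((17 / 20 : ℝ) * n) = (2 : ℝ) ^ ((17 / 20 : ℝ) * n) * 1 := (mul_one _).symm
      _ ≤ (2 : ℝ) ^ ((17 / 20 : ℝ) * n) * ((2 : ℝ) ^ ((1 / 20 : ℝ) * n) * δ) :=
        mul_le_mul_of_nonneg_left hn h3.le
      _ = _ := by ring
  filter_upwards [typ_ww δ hδ0, typ_wx δ hδ0, hiso δ hδ0, typ_cost δ hδ0, low kap hk, up_num,
    hexp, eventually_ge_atTop 200] with n e1 e2 e3 e4 hlow hup hex hn r h2r hcen
  have f1 := e1 r h2r hcen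
  have f2 := e2 r h2r hcen
  have f3 := e3 r h2r hcen
  have f4 := e4 r h2r hcen
  have hlow' := hlow r h2r hcen
  obtain ⟨-, h49, h51⟩ := hcen
  have hr : 1 ≤ r := by omega
  have hrn : r < n := by omega
  set m : ℝ := ((Mats n r).card : ℝ) with hm
  have hm0 : 0 ≤ m := Nat.cast_nonneg _
  set F1 := (Mats n r).filter fun B =>
      ¬ ((WW r B).card : ℝ) ≤ (n.choose r : ℝ) * (Real.log n ^ 2 / (n : ℝ) ^ 2) with hF1
  set F2 := (Mats n r).filter fun B =>
      ¬ ((wx r B).card : ℝ) ≤ (n.choose r : ℝ) / (n : ℝ) ^ 20 with hF2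
  set F3 := (Mats n r).filter fun B =>
      ((WW r B).card : ℝ) ≤ (n.choose r : ℝ) * (Real.log n ^ 2 / (n : ℝ) ^ 2) ∧
        ¬ kap * ((n.choose r : ℝ) / n) ≤ ((iso r B).card : ℝ) with hF3
  set F4 := (Mats n r).filter fun B =>
      ¬ (((Base n r).filter fun S => 2 ^ (4 * n / 5) < cost r B S).card : ℝ) ≤
        (n.choose r : ℝ) * (Real.log n ^ 2 / n) with hF4
  set FT := (Fr n r).filter fun B => Typ kap n r B with hFT
  have hcover : Fr n r ⊆ F1 ∪ (F2 ∪ (F3 ∪ (F4 ∪ FT))) := by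
    intro B hB
    have hBM := Fr_subset n r hB
    by_cases g1 : ((WW r B).card : ℝ) ≤ (n.choose r : ℝ) * (Real.log n ^ 2 / (n : ℝ) ^ 2)
    · refine Finset.mem_union_right _ ?_
      by_cases g2 : ((wx r B).card : ℝ) ≤ (n.choose r : ℝ) / (n : ℝ) ^ 20
      · refine Finset.mem_union_right _ ?_
        by_cases g3 : kap * ((n.choose r : ℝ) / n) ≤ ((iso r B).card : ℝ)
        · refine Finset.mem_union_right _ ?_
          by_cases g4 : (((Base n r).filter fun S => 2 ^ (4 * n / 5) < cost r B S).card : ℝ) ≤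
              (n.choose r : ℝ) * (Real.log n ^ 2 / n)
          · refine Finset.mem_union_right _ ?_
            exact Finset.mem_filter.mpr ⟨hB, g1, g2, g3, g4⟩
          · exact Finset.mem_union_left _ (Finset.mem_filter.mpr ⟨hBM, g4⟩)
        · exact Finset.mem_union_left _ (Finset.mem_filter.mpr ⟨hBM, g1, g3⟩)
      · exact Finset.mem_union_left _ (Finset.mem_filter.mpr ⟨hBM, g2⟩)
    · exact Finset.mem_union_left _ (Finset.mem_filter.mpr ⟨hBM, g1⟩)
  have hcard : (Fr n r).card ≤ F1.card + (F2.card + (F3.card + (F4.card + FT.card))) := by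
    refine (Finset.card_le_card hcover).trans ?_
    refine (Finset.card_union_le _ _).trans (Nat.add_le_add_left ?_ _)
    refine (Finset.card_union_le _ _).trans (Nat.add_le_add_left ?_ _)
    refine (Finset.card_union_le _ _).trans (Nat.add_le_add_left ?_ _)
    exact Finset.card_union_le _ _
  have hFTle : (FT.card : ℝ) ≤ δ * m := by
    have hp : (0 : ℝ) < (2 : ℝ) ^ ((9 / 10 : ℝ) * n) := Real.rpow_pos_of_pos two_pos _
    have h1 : (FT.card : ℝ) * (2 : ℝ) ^ ((9 / 10 : ℝ) * n) ≤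
        ((∑ B ∈ Fr n r, (gcells r B).card : ℕ) : ℝ) := by
      rw [Nat.cast_sum]
      calc (FT.card : ℝ) * (2 : ℝ) ^ ((9 / 10 : ℝ) * n)
          = ∑ B ∈ FT, (2 : ℝ) ^ ((9 / 10 : ℝ) * n) := by rw [Finset.sum_const, nsmul_eq_mul]
        _ ≤ ∑ B ∈ FT, ((gcells r B).card : ℝ) := by
          refine Finset.sum_le_sum fun B hB => ?_
          have h2 := Finset.mem_filter.mp hB
          exact hlow' B (Fr_subset n r h2.1) h2.2
        _ ≤ ∑ B ∈ Fr n r, ((gcells r B).card : ℝ) :=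
          Finset.sum_le_sum_of_subset_of_nonneg (Finset.filter_subset _ _)
            (fun _ _ _ => Nat.cast_nonneg _)
    have h2 : ((∑ B ∈ Fr n r, (gcells r B).card : ℕ) : ℝ) ≤
        m * ((n ^ 80 * ((n ^ 80) ^ (Nat.sqrt n + 80) * 2 ^ (4 * n / 5)) : ℕ) : ℝ) := by
      rw [hm, ← Nat.cast_mul]
      exact_mod_cast up_raw (n := n) (r := r) (by omega) hr hrn
    have h3 : (FT.card : ℝ) * (2 : ℝ) ^ ((9 / 10 : ℝ) * n) ≤
        (δ * m) * (2 : ℝ) ^ ((9 / 10 : ℝ) * n) := by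
      refine h1.trans (h2.trans ?_)
      calc m * ((n ^ 80 * ((n ^ 80) ^ (Nat.sqrt n + 80) * 2 ^ (4 * n / 5)) : ℕ) : ℝ)
          ≤ m * (δ * (2 : ℝ) ^ ((9 / 10 : ℝ) * n)) :=
            mul_le_mul_of_nonneg_left (hup.trans hex) hm0
        _ = _ := by ring
    exact le_of_mul_le_mul_right h3 hp
  have hcard' : ((Fr n r).card : ℝ) ≤
      F1.card + (F2.card + (F3.card + (F4.card + FT.card))) := by exact_mod_cast hcard
  have hsum : ε * m = 5 * (δ * m) := by rw [hδ]; ring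
  rw [hsum]
  linarith

end Pool.Agent.H41.VH
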