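import Pool.Agent.H41.VH.Defs
import Pool.Agent.H13.VM.Cn
import Pool.Agent.H13.VM.A2

/-! MODULE Lin (about 220 lines, may be split). Elementary facts on lines and components. No probability.

A full I-line is an `(r-1)`-set `L` with all `insert z L` (`z` not in `L`) nonbases; a full U-line is an
`(r+1)`-set `L` with all `L.erase y` nonbases; `onl L X` = (`L` inside `X` or `X` inside `L`); for `X` with `r`
elements on an I-line `L` only `L` inside `X` is possible (cards), then `X = insert z L`; on a U-line `X` inside `L`, `X = L.erase y`.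
* `pts_sub_NB`, `pts_adj` (`adj_insert_insert`, `adj_erase_erase` of `H13/VM/Bas`), `card_pts_fullI`: `pts r L` is the image of the complement of
  `L` (card `n - r + 1`) under `z -> insert z L`; `card_pts_fullU`: image of `L` under `y -> L.erase y`.
* `line_of_adj`: `X`, `Y` on the I-line `L`, both with `r` elements, adjacent: `L` is inside `X cap Y`, which has `r - 1` elements, so `L = X cap Y`;
  dual for U.
* `pts_inter_le_two`: two different I-lines have at most one common `r`-set (their union would be it), same for U-lines; an I-line `L`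
  and a U-line `L'`: common `r`-sets `X` satisfy `L` inside `X` inside `L'`, `(L' \ L).card = 2`, so `X = insert z L` with `z` in `L' \ L`. (In all cases:
  two adjacent common members `X <> Y` give `{L, L'} = {X cap Y, X cup Y}` by `line_of_adj`.)
* `exists_line`: `local_test` of `H13/VM/A2`. * `line_sub_comp`: members of a line are pairwise adjacent nonbases, `comp_closed`.
* `iso_iff`: a line has at least two members (`1 <= r < n`) which are adjacent nonbases; conversely `exists_line`. * `comp_iso`: `comp_induction`.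
* `linesOf_comp_eq`: `comp_eq_of_mem`. -/

open scoped BigOperators
open Filter

namespace Pool.Agent.H41.VH

open Pool.Agent.H28.Johnson Pool.Agent.H28.V8 Pool.Agent.H8.VM Pool.Agent.H8.VR
open Pool.Agent.H13.VM Pool.Agent.H97.VZ

variable {n r : ℕ} {B : Finset (Finset (Fin n))} {L L' X Y : Finset (Fin n)}

private theorem lin_I {X L : Finset (Fin n)} (hL : L ∈ fullI r B) (hX : X.card = r)
    (h : onl L X) : L ⊆ X := by
  rcases h with h | h
  · exact h
  · exfalso
    have h1 := (mem_fullI.mp hL).1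
    have h2 := Finset.card_le_card h
    omega

private theorem lin_U {X L : Finset (Fin n)} (hL : L ∈ fullU r B) (hX : X.card = r)
    (h : onl L X) : X ⊆ L := by
  rcases h with h | h
  · exfalso
    have h1 := (mem_fullU.mp hL).1
    have h2 := Finset.card_le_card h
    omega
  · exact h

private theorem lin_I_ex {X L : Finset (Fin n)} (hL : L ∈ fullI r B) (hX : X.card = r)
    (h : onl L X) : ∃ z, z ∉ L ∧ X = insert z L := by
  have h1 := lin_I hL hX h
  have h2 := (mem_fullI.mp hL).1
  have h3 : (X \ L).card = 1 := by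
    rw [Finset.card_sdiff_of_subset h1]
    omega
  obtain ⟨z, hz⟩ := Finset.card_eq_one.mp h3
  have hz' : z ∈ X \ L := by rw [hz]; exact Finset.mem_singleton_self _
  rw [Finset.mem_sdiff] at hz'
  refine ⟨z, hz'.2, ?_⟩
  symm
  apply Finset.eq_of_subset_of_card_le
  · intro x hx
    rw [Finset.mem_insert] at hx
    rcases hx with hx | hx
    · rw [hx]; exact hz'.1
    · exact h1 hx
  · rw [Finset.card_insert_of_notMem hz'.2]
    omega

private theorem lin_U_ex {X L : Finset (Fin n)} (hL : L ∈ fullU r B) (hX : X.card = r)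
    (h : onl L X) : ∃ y ∈ L, X = L.erase y := by
  have h1 := lin_U hL hX h
  have h2 := (mem_fullU.mp hL).1
  have h3 : (L \ X).card = 1 := by
    rw [Finset.card_sdiff_of_subset h1]
    omega
  obtain ⟨y, hy⟩ := Finset.card_eq_one.mp h3
  have hy' : y ∈ L \ X := by rw [hy]; exact Finset.mem_singleton_self _
  rw [Finset.mem_sdiff] at hy'
  refine ⟨y, hy'.1, ?_⟩
  apply Finset.eq_of_subset_of_card_le
  · intro x hx
    rw [Finset.mem_erase]
    exact ⟨fun e => hy'.2 (e ▸ hx), h1 hx⟩
  · rw [Finset.card_erase_of_mem hy'.1]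
    omega

private theorem lin_ptsI {L : Finset (Fin n)} (hL : L ∈ fullI r B) :
    pts r L = Lᶜ.image fun z => insert z L := by
  classical
  ext X
  rw [mem_pts, Finset.mem_image]
  constructor
  · rintro ⟨h1, h2⟩
    obtain ⟨z, hz, h⟩ := lin_I_ex hL h1 h2
    exact ⟨z, Finset.mem_compl.mpr hz, h.symm⟩
  · rintro ⟨z, hz, rfl⟩
    rw [Finset.mem_compl] at hz
    refine ⟨?_, Or.inl (Finset.subset_insert _ _)⟩
    rw [Finset.card_insert_of_notMem hz]
    exact (mem_fullI.mp hL).1

private theorem lin_ptsU {L : Finset (Fin n)} (hL : L ∈ fullU r B) :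
    pts r L = L.image fun y => L.erase y := by
  classical
  ext X
  rw [mem_pts, Finset.mem_image]
  constructor
  · rintro ⟨h1, h2⟩
    obtain ⟨y, hy, h⟩ := lin_U_ex hL h1 h2
    exact ⟨y, hy, h.symm⟩
  · rintro ⟨y, hy, rfl⟩
    refine ⟨?_, Or.inr (Finset.erase_subset _ _)⟩
    rw [Finset.card_erase_of_mem hy, (mem_fullU.mp hL).1]
    omega

theorem pts_sub_NB (hL : L ∈ full r B) : pts r L ⊆ NB r B := by
  intro X hX
  rw [mem_pts] at hX
  rw [mem_NB]
  refine ⟨hX.1, ?_⟩
  rcases mem_full.mp hL with h | h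
  · obtain ⟨z, hz, e⟩ := lin_I_ex h hX.1 hX.2
    rw [e]
    exact (mem_fullI.mp h).2 z hz
  · obtain ⟨y, hy, e⟩ := lin_U_ex h hX.1 hX.2
    rw [e]
    exact (mem_fullU.mp h).2 y hy

theorem pts_adj (hL : L ∈ full r B) (hX : X ∈ pts r L) (hY : Y ∈ pts r L) (hXY : X ≠ Y) :
    adj r X Y := by
  rw [mem_pts] at hX hY
  rcases mem_full.mp hL with h | h
  · obtain ⟨z, hz, e⟩ := lin_I_ex h hX.1 hX.2
    obtain ⟨w, hw, e'⟩ := lin_I_ex h hY.1 hY.2
    rw [e, e']
    refine adj_insert_insert (mem_fullI.mp h).1 hz hw ?_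
    intro hzw
    exact hXY (by rw [e, e', hzw])
  · obtain ⟨z, hz, e⟩ := lin_U_ex h hX.1 hX.2
    obtain ⟨w, hw, e'⟩ := lin_U_ex h hY.1 hY.2
    rw [e, e']
    refine adj_erase_erase (mem_fullU.mp h).1 hz hw ?_
    intro hzw
    exact hXY (by rw [e, e', hzw])

theorem card_pts_fullI (hrn : r ≤ n) (hL : L ∈ fullI r B) : (pts r L).card = n - r + 1 := by
  classical
  have h1 := (mem_fullI.mp hL).1
  rw [lin_ptsI hL, Finset.card_image_of_injOn, Finset.card_compl, Fintype.card_fin]
  · omega
  · intro z hz w hw h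
    rw [Finset.mem_coe, Finset.mem_compl] at hz hw
    have h2 : z ∈ insert w L := by
      have h3 : z ∈ insert z L := Finset.mem_insert_self z L
      have h4 : insert z L = insert w L := h
      rwa [h4] at h3
    rw [Finset.mem_insert] at h2
    exact h2.resolve_right hz

theorem card_pts_fullU (hL : L ∈ fullU r B) : (pts r L).card = r + 1 := by
  classical
  have h1 := (mem_fullU.mp hL).1
  rw [lin_ptsU hL, Finset.card_image_of_injOn, h1]
  intro z hz w hw h
  rw [Finset.mem_coe] at hz hw
  by_contra hne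
  have h4 : L.erase z = L.erase w := h
  have h3 : z ∈ L.erase w := Finset.mem_erase.mpr ⟨hne, hz⟩
  rw [← h4] at h3
  exact Finset.notMem_erase _ _ h3

/-- the line through two adjacent `r`-sets is determined by its type -/
theorem line_of_adj (hL : L ∈ full r B) (hX : X.card = r) (hY : Y.card = r) (h1 : onl L X)
    (h2 : onl L Y) (h : adj r X Y) :
    (L ∈ fullI r B ∧ L = X ∩ Y) ∨ (L ∈ fullU r B ∧ L = X ∪ Y) := by
  have hc := Finset.card_union_add_card_inter X Y
  have hne : X ≠ Y := h.1
  have hlt : (X ∩ Y).card < r := by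
    rw [← hX]
    refine Finset.card_lt_card ?_
    refine ⟨Finset.inter_subset_left, fun h3 => hne ?_⟩
    have h4 : X ⊆ Y := fun x hx => (Finset.mem_inter.mp (h3 hx)).2
    exact Finset.eq_of_subset_of_card_le h4 (by omega)
  have hge := h.2
  rcases mem_full.mp hL with hI | hU
  · left
    refine ⟨hI, ?_⟩
    have h3 : L ⊆ X ∩ Y := Finset.subset_inter (lin_I hI hX h1) (lin_I hI hY h2)
    have h4 := (mem_fullI.mp hI).1
    exact Finset.eq_of_subset_of_card_le h3 (by omega)
  · right
    refine ⟨hU, ?_⟩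
    have h3 : X ∪ Y ⊆ L := Finset.union_subset (lin_U hU hX h1) (lin_U hU hY h2)
    have h4 := (mem_fullU.mp hU).1
    exact (Finset.eq_of_subset_of_card_le h3 (by omega)).symm

theorem not_both (h1 : L ∈ fullI r B) (h2 : L ∈ fullU r B) : False := by
  have h3 := (mem_fullI.mp h1).1
  have h4 := (mem_fullU.mp h2).1
  omega

private theorem lin_mixed {L L' : Finset (Fin n)} (hL : L ∈ fullI r B) (hL' : L' ∈ fullU r B) :
    (pts r L ∩ pts r L').card ≤ 2 := by
  classical
  by_cases h0 : (pts r L ∩ pts r L') = ∅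
  · rw [h0, Finset.card_empty]; omega
  · obtain ⟨X, hX⟩ := Finset.nonempty_iff_ne_empty.mpr h0
    rw [Finset.mem_inter, mem_pts, mem_pts] at hX
    have h1 : L ⊆ X := lin_I hL hX.1.1 hX.1.2
    have h2 : X ⊆ L' := lin_U hL' hX.2.1 hX.2.2
    have h3 : (L' \ L).card = 2 := by
      rw [Finset.card_sdiff_of_subset (h1.trans h2)]
      have h4 := (mem_fullI.mp hL).1
      have h5 := (mem_fullU.mp hL').1
      omega
    have h6 : pts r L ∩ pts r L' ⊆ (L' \ L).image fun z => insert z L := by
      intro Z hZ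
      rw [Finset.mem_inter, mem_pts, mem_pts] at hZ
      obtain ⟨z, hz, e⟩ := lin_I_ex hL hZ.1.1 hZ.1.2
      have h7 : Z ⊆ L' := lin_U hL' hZ.2.1 hZ.2.2
      refine Finset.mem_image.mpr ⟨z, Finset.mem_sdiff.mpr ⟨h7 ?_, hz⟩, e.symm⟩
      rw [e]
      exact Finset.mem_insert_self _ _
    calc (pts r L ∩ pts r L').card ≤ ((L' \ L).image fun z => insert z L).card :=
          Finset.card_le_card h6
      _ ≤ (L' \ L).card := Finset.card_image_le
      _ = 2 := h3

theorem pts_inter_le_two (hL : L ∈ full r B) (hL' : L' ∈ full r B) (h : L ≠ L') :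
    (pts r L ∩ pts r L').card ≤ 2 := by
  classical
  rcases mem_full.mp hL with hI | hU <;> rcases mem_full.mp hL' with hI' | hU'
  · have : (pts r L ∩ pts r L').card ≤ 1 := by
      rw [Finset.card_le_one]
      intro X hX Y hY
      by_contra hne
      rw [Finset.mem_inter] at hX hY
      have ha := pts_adj hL hX.1 hY.1 hne
      rw [mem_pts] at hX hY
      rw [mem_pts] at hX hY
      rcases line_of_adj hL hX.1.1 hY.1.1 hX.1.2 hY.1.2 ha with h1 | h1
      · rcases line_of_adj hL' hX.1.1 hY.1.1 hX.2.2 hY.2.2 ha with h2 | h2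
        · exact h (h1.2.trans h2.2.symm)
        · exact not_both hI' h2.1
      · exact not_both hI h1.1
    omega
  · exact lin_mixed hI hU'
  · rw [Finset.inter_comm]
    exact lin_mixed hI' hU
  · have : (pts r L ∩ pts r L').card ≤ 1 := by
      rw [Finset.card_le_one]
      intro X hX Y hY
      by_contra hne
      rw [Finset.mem_inter] at hX hY
      have ha := pts_adj hL hX.1 hY.1 hne
      rw [mem_pts] at hX hY
      rw [mem_pts] at hX hY
      rcases line_of_adj hL hX.1.1 hY.1.1 hX.1.2 hY.1.2 ha with h1 | h1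
      · exact not_both h1.1 hU
      · rcases line_of_adj hL' hX.1.1 hY.1.1 hX.2.2 hY.2.2 ha with h2 | h2
        · exact not_both h2.1 hU'
        · exact h (h1.2.trans h2.2.symm)
    omega

theorem exists_line (h : IsMat n r B) (hX : X ∈ NB r B) (hY : Y ∈ NB r B) (hXY : adj r X Y) :
    ∃ L ∈ full r B, onl L X ∧ onl L Y := by
  rcases local_test h hX hY hXY with h1 | h1
  · exact ⟨X ∩ Y, mem_full.mpr (Or.inl h1), Or.inl Finset.inter_subset_left,
      Or.inl Finset.inter_subset_right⟩
  · exact ⟨X ∪ Y, mem_full.mpr (Or.inr h1), Or.inr Finset.subset_union_left,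
      Or.inr Finset.subset_union_right⟩

theorem line_sub_comp (hL : L ∈ full r B) (hX : X ∈ NB r B) (h : onl L X) :
    pts r L ⊆ comp r (NB r B) X := by
  intro Y hY
  by_cases hXY : X = Y
  · rw [← hXY]
    exact self_mem_comp hX
  · have hX' : X ∈ pts r L := mem_pts.mpr ⟨(mem_NB.mp hX).1, h⟩
    exact (comp_closed (r := r) (NB r B) X).2 X (self_mem_comp hX) Y (pts_sub_NB hL hY)
      (pts_adj hL hX' hY hXY)

theorem comp_eq_iff_mem (hY : Y ∈ comp r (NB r B) X) :
    comp r (NB r B) Y = comp r (NB r B) X := comp_eq_of_mem hY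

theorem linesOf_comp_eq (hY : Y ∈ comp r (NB r B) X) :
    linesOf r B (comp r (NB r B) Y) = linesOf r B (comp r (NB r B) X) := by
  rw [comp_eq_of_mem hY]

theorem thr_sub_linesOf (hX : X ∈ NB r B) : thr r B X ⊆ linesOf r B (comp r (NB r B) X) := by
  intro L hL
  rw [mem_thr] at hL
  exact mem_linesOf.mpr ⟨hL.1, X, self_mem_comp hX, hL.2⟩

/-- every line meeting a component is inside it -/
theorem linesOf_sub_comp (hL : L ∈ linesOf r B (comp r (NB r B) X)) :
    pts r L ⊆ comp r (NB r B) X := by
  rw [mem_linesOf] at hL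
  obtain ⟨h1, Z, hZ, h2⟩ := hL
  rw [← comp_eq_of_mem hZ]
  exact line_sub_comp h1 (mem_comp.mp hZ).1 h2

theorem iso_iff (h : IsMat n r B) (hr : 1 ≤ r) (hrn : r < n) (hX : X ∈ NB r B) :
    X ∈ iso r B ↔ thr r B X = ∅ := by
  constructor
  · intro hi
    rw [mem_iso] at hi
    rw [Finset.eq_empty_iff_forall_notMem]
    intro L hL
    rw [mem_thr] at hL
    have hX' : X ∈ pts r L := mem_pts.mpr ⟨(mem_NB.mp hX).1, hL.2⟩
    have hc : 1 < (pts r L).card := by
      rcases mem_full.mp hL.1 with h1 | h1
      · rw [card_pts_fullI hrn.le h1]; omega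
      · rw [card_pts_fullU h1]; omega
    obtain ⟨Y, hY, hne⟩ := Finset.exists_mem_ne hc X
    exact hi.2 Y (pts_sub_NB hL.1 hY) (pts_adj hL.1 hX' hY hne.symm)
  · intro ht
    rw [mem_iso]
    refine ⟨hX, fun Y hY ha => ?_⟩
    obtain ⟨L, hL, h1, _⟩ := exists_line h hX hY ha
    have : L ∈ thr r B X := mem_thr.mpr ⟨hL, h1⟩
    rw [ht] at this
    exact absurd this (Finset.notMem_empty _)

theorem comp_iso (hX : X ∈ iso r B) : comp r (NB r B) X = {X} := by
  rw [mem_iso] at hX
  apply Finset.Subset.antisymm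
  · apply comp_subset_of_closed
    · refine ⟨?_, ?_⟩
      · intro Y hY
        rw [Finset.mem_singleton] at hY
        rw [hY]; exact hX.1
      · intro Y hY Z hZ ha
        rw [Finset.mem_singleton] at hY
        rw [hY] at ha
        exact absurd ha (hX.2 Z hZ)
    · exact Finset.mem_singleton_self _
  · intro Y hY
    rw [Finset.mem_singleton] at hY
    rw [hY]
    exact self_mem_comp hX.1

end Pool.Agent.H41.VH
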