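import Pool.Agent.H41.VH.CandD
import Pool.Agent.H41.VH.Lin

/-! MODULE CandA (about 130 lines). Number and radius of the candidates (H1).

For `L` in `lins Y`, `Y.card = r`, `1 <= r < n`: `L.card + 1 = r` or `L.card = r + 1`, so `pts r L` (all `r`-sets on `L`) has `n - r + 1` or `r + 1`
elements, at most `n`, and every `Z` in `pts r L` has `(Z \ Y).card <= 1`. `(lins Y).card <= Y.card + (compl Y).card = n`.
By induction on `k`: every `G` in `cl r X k` consists of `r`-sets `Y` with `(Y \ X).card <= k`, has at most `1 + k n` elements; and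
`(cl r X (k+1)).card <= (cl r X k).card * (1 + (1 + k n) n) <= (cl r X k).card * n ^ 3` for `k <= 24`, `n >= 30`. So `(cand r X).card <= n ^ 72`. -/

open scoped BigOperators
open Filter

namespace Pool.Agent.H41.VH

open Pool.Agent.H28.Johnson Pool.Agent.H28.V8 Pool.Agent.H8.VM Pool.Agent.H8.VR
open Pool.Agent.H13.VM Pool.Agent.H97.VZ

variable {n r : ℕ} {X : Finset (Fin n)}

private theorem CandA_mem_lins {Y L : Finset (Fin n)} (h : L ∈ lins Y) :
    (∃ y ∈ Y, L = Y.erase y) ∨ ∃ z, z ∉ Y ∧ L = insert z Y := by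
  classical
  rw [lins, Finset.mem_union, Finset.mem_image, Finset.mem_image] at h
  rcases h with ⟨y, hy, h⟩ | ⟨z, hz, h⟩
  · exact Or.inl ⟨y, hy, h.symm⟩
  · exact Or.inr ⟨z, Finset.mem_compl.1 hz, h.symm⟩

private theorem CandA_pts {Y L : Finset (Fin n)} (hr : 1 ≤ r) (hrn : r < n) (hY : Y.card = r)
    (h : L ∈ lins Y) : (pts r L).card ≤ n ∧ ∀ Z ∈ pts r L, (Z \ Y).card ≤ 1 := by
  classical
  rcases CandA_mem_lins h with ⟨y, hy, rfl⟩ | ⟨z, hz, rfl⟩
  · have hL : (Y.erase y).card = r - 1 := by rw [Finset.card_erase_of_mem hy, hY]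
    have hsub : ∀ Z ∈ pts r (Y.erase y), Y.erase y ⊆ Z ∧ Z.card = r := by
      intro Z hZ
      rw [mem_pts] at hZ
      rcases hZ.2 with h1 | h1
      · exact ⟨h1, hZ.1⟩
      · have := Finset.card_le_card h1
        omega
    constructor
    · have h1 : pts r (Y.erase y) ⊆ (Y.erase y)ᶜ.image (fun w => insert w (Y.erase y)) := by
        intro Z hZ
        obtain ⟨h1, h2⟩ := hsub Z hZ
        have h3 : ∃ a, a ∉ Y.erase y ∧ insert a (Y.erase y) = Z :=
          Finset.exists_eq_insert_iff.2 ⟨h1, by omega⟩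
        obtain ⟨a, ha, h4⟩ := h3
        exact Finset.mem_image.2 ⟨a, Finset.mem_compl.2 ha, h4⟩
      refine (Finset.card_le_card h1).trans (Finset.card_image_le.trans ?_)
      rw [Finset.card_compl, Fintype.card_fin]
      omega
    · intro Z hZ
      obtain ⟨h1, h2⟩ := hsub Z hZ
      have h3 : Z \ Y ⊆ Z \ Y.erase y := Finset.sdiff_subset_sdiff le_rfl (Finset.erase_subset _ _)
      refine (Finset.card_le_card h3).trans ?_
      rw [Finset.card_sdiff_of_subset h1]
      omega
  · have hL : (insert z Y).card = r + 1 := by rw [Finset.card_insert_of_notMem hz, hY]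
    have hsub : ∀ Z ∈ pts r (insert z Y), Z ⊆ insert z Y ∧ Z.card = r := by
      intro Z hZ
      rw [mem_pts] at hZ
      rcases hZ.2 with h1 | h1
      · have := Finset.card_le_card h1
        omega
      · exact ⟨h1, hZ.1⟩
    constructor
    · have h1 : pts r (insert z Y) ⊆ (insert z Y).image (fun w => (insert z Y).erase w) := by
        intro Z hZ
        obtain ⟨h1, h2⟩ := hsub Z hZ
        have h3 : ∃ a, a ∉ Z ∧ insert a Z = insert z Y :=
          Finset.exists_eq_insert_iff.2 ⟨h1, by omega⟩
        obtain ⟨a, ha, h4⟩ := h3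
        refine Finset.mem_image.2 ⟨a, ?_, ?_⟩
        · rw [← h4]
          exact Finset.mem_insert_self _ _
        · rw [← h4, Finset.erase_insert ha]
      refine (Finset.card_le_card h1).trans (Finset.card_image_le.trans ?_)
      omega
    · intro Z hZ
      obtain ⟨h1, h2⟩ := hsub Z hZ
      have h3 : Z \ Y ⊆ {z} := by
        intro x hx
        rw [Finset.mem_sdiff] at hx
        have h4 := h1 hx.1
        rw [Finset.mem_insert] at h4
        rcases h4 with h4 | h4
        · exact Finset.mem_singleton.2 h4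
        · exact absurd h4 hx.2
      exact (Finset.card_le_card h3).trans (by rw [Finset.card_singleton])

private theorem CandA_lins_card {Y : Finset (Fin n)} : (lins Y).card ≤ n := by
  classical
  rw [lins]
  refine (Finset.card_union_le _ _).trans ?_
  have h1 : (Y.image fun y => Y.erase y).card ≤ Y.card := Finset.card_image_le
  have h2 : (Yᶜ.image fun z => insert z Y).card ≤ Yᶜ.card := Finset.card_image_le
  have h3 : Y.card + Yᶜ.card = n := by
    rw [Finset.card_add_card_compl, Fintype.card_fin]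
  omega

private theorem CandA_cl (hr : 1 ≤ r) (hrn : r < n) (hX : X.card = r) (k : ℕ) :
    ∀ G ∈ cl r X k, G.card ≤ 1 + k * n ∧ ∀ Y ∈ G, Y.card = r ∧ (Y \ X).card ≤ k := by
  induction k with
  | zero =>
    intro G hG
    rw [mem_cl_zero] at hG
    subst hG
    refine ⟨by simp, ?_⟩
    intro Y hY
    rw [Finset.mem_singleton] at hY
    subst hY
    exact ⟨hX, by simp⟩
  | succ k ih =>
    intro G hG
    rw [mem_cl_succ] at hG
    rcases hG with hG | ⟨H, hH, Y, hY, L, hL, rfl⟩
    · obtain ⟨h1, h2⟩ := ih G hG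
      refine ⟨h1.trans ?_, fun Y hY => ⟨(h2 Y hY).1, (h2 Y hY).2.trans (Nat.le_succ k)⟩⟩
      have : k * n ≤ (k + 1) * n := Nat.mul_le_mul_right n (Nat.le_succ k)
      omega
    · obtain ⟨h1, h2⟩ := ih H hH
      obtain ⟨h3, h4⟩ := CandA_pts hr hrn (h2 Y hY).1 hL
      constructor
      · refine (Finset.card_union_le _ _).trans ?_
        have : (k + 1) * n = k * n + n := by ring
        omega
      · intro Z hZ
        rcases Finset.mem_union.1 hZ with hZ | hZ
        · exact ⟨(h2 Z hZ).1, (h2 Z hZ).2.trans (Nat.le_succ k)⟩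
        · refine ⟨(mem_pts.1 hZ).1, ?_⟩
          have h5 : Z \ X ⊆ (Z \ Y) ∪ (Y \ X) := by
            intro x hx
            rw [Finset.mem_sdiff] at hx
            rw [Finset.mem_union, Finset.mem_sdiff, Finset.mem_sdiff]
            by_cases hxY : x ∈ Y
            · exact Or.inr ⟨hxY, hx.2⟩
            · exact Or.inl ⟨hx.1, hxY⟩
          have h6 := (Finset.card_le_card h5).trans (Finset.card_union_le _ _)
          have h7 := h4 Z hZ
          have h8 := (h2 Y hY).2
          omega

private theorem CandA_card (hn : 30 ≤ n) (hr : 1 ≤ r) (hrn : r < n) (hX : X.card = r) (k : ℕ)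
    (hk : k ≤ 24) : (cl r X k).card ≤ n ^ (3 * k) := by
  classical
  induction k with
  | zero =>
    have : cl r X 0 = {{X}} := by
      ext G
      rw [mem_cl_zero, Finset.mem_singleton]
    rw [this]
    simp
  | succ k ih =>
    have ih := ih (by omega)
    have h1 : (cl r X (k + 1)).card ≤ (cl r X k).card + (cl r X k).card * ((1 + k * n) * n) := by
      have e1 : cl r X (k + 1) = cl r X k ∪ (cl r X k).biUnion fun G =>
          G.biUnion fun Y => (lins Y).image fun L => G ∪ pts r L := by
        ext G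
        rw [mem_cl_succ, Finset.mem_union, Finset.mem_biUnion]
        simp only [Finset.mem_biUnion, Finset.mem_image]
      rw [e1]
      refine (Finset.card_union_le _ _).trans (Nat.add_le_add_left ?_ _)
      refine Finset.card_biUnion_le_card_mul _ _ _ ?_
      intro G hG
      obtain ⟨h2, -⟩ := CandA_cl hr hrn hX k G hG
      refine (Finset.card_biUnion_le_card_mul _ _ n ?_).trans (Nat.mul_le_mul_right n h2)
      intro Y _
      exact Finset.card_image_le.trans CandA_lins_card
    have h2 : 1 + (1 + k * n) * n ≤ n ^ 3 := by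
      have h3 : (1 + k * n) * n ≤ (1 + 24 * n) * n :=
        Nat.mul_le_mul_right n (Nat.add_le_add_left (Nat.mul_le_mul_right n (by omega)) 1)
      nlinarith [h3, hn, Nat.mul_le_mul hn hn, Nat.mul_le_mul hn (Nat.le_refl (n * n))]
    calc (cl r X (k + 1)).card ≤ (cl r X k).card * (1 + (1 + k * n) * n) := by
          rw [mul_add, mul_one]; exact h1
      _ ≤ n ^ (3 * k) * n ^ 3 := Nat.mul_le_mul ih h2
      _ = n ^ (3 * (k + 1)) := by rw [← pow_add]; congr 1

theorem cand_card (hn : 30 ≤ n) (hr : 1 ≤ r) (hrn : r < n) (hX : X.card = r) :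
    (cand r X).card ≤ n ^ 75 := by
  refine (CandA_card hn hr hrn hX 24 le_rfl).trans ?_
  exact Nat.pow_le_pow_right (by omega) (by norm_num)

theorem cand_near (hr : 1 ≤ r) (hrn : r < n) (hX : X.card = r) {G : Finset (Finset (Fin n))}
    (hG : G ∈ cand r X) : ∀ Y ∈ G, Y.card = r ∧ (Y \ X).card ≤ 24 :=
  (CandA_cl hr hrn hX 24 G hG).2

end Pool.Agent.H41.VH
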