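import Pool.Agent.H41.VH.CandD
import Pool.Agent.H41.VH.Lin

/-! MODULE CandB (about 120 lines). The component of a nonbase outside `wx` is one of the candidates (H1).

`C = comp r (NB r B) X`, `nl r B X <= 24` because `X` is not in `wx`. Claim: for every `k` there is `G` in `cl r X k` with `X` in `G`, `G` inside `C`,
and (`G = C` or there is a set `LL` of `k` lines of `linesOf r B C` with `pts r L` inside `G` for all `L` in `LL`). Induction: `k = 0`: `G = {X}`. Step: if `G = C` keep
it (`mem_cl_succ`, left). Otherwise by `comp_induction` (with `p Y := Y` in `G`) there are adjacent `Y` in `G`, `Z` in `C`, `Z` not in `G`; `exists_line` gives a full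
line `L` through `Y` and `Z`; `L = Y cap Z` or `Y cup Z` (`line_of_adj`), in `lins Y` (`exists_ex`, `inter_ex`, `union_ex`); `L` in `linesOf r B C`, `L` not in `LL` because `Z` is
on `L`, not in `G`; take `G cup pts r L` (inside `C` by `linesOf_sub_comp`) and `insert L LL`. For `k = nl r B X + 1` the second alternative is impossible, and for
`k = nl r B X` it gives `LL = linesOf`, so the step cannot find `L`: `G = C` in `cl r X (nl r B X)`, contained in `cl r X 24` (monotone). -/

open scoped BigOperators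
open Filter

namespace Pool.Agent.H41.VH

open Pool.Agent.H28.Johnson Pool.Agent.H28.V8 Pool.Agent.H8.VM Pool.Agent.H8.VR
open Pool.Agent.H13.VM Pool.Agent.H97.VZ

variable {n r : ℕ} {B : Finset (Finset (Fin n))} {X Y : Finset (Fin n)}

/-- one step: a proper part of the component which contains `X` can be left along a line -/
private theorem CandB_step (h : IsMat n r B) {G : Finset (Finset (Fin n))} (hXG : X ∈ G)
    (hG : G ⊆ comp r (NB r B) X) (hne : G ≠ comp r (NB r B) X) :
    ∃ Y ∈ G, ∃ Z, Z ∉ G ∧ ∃ L ∈ linesOf r B (comp r (NB r B) X), L ∈ lins Y ∧ Z ∈ pts r L := by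
  classical
  have h1 : ∃ Y ∈ G, ∃ Z ∈ comp r (NB r B) X, Z ∉ G ∧ adj r Y Z := by
    by_contra hcon
    push Not at hcon
    apply hne
    refine Finset.Subset.antisymm hG ?_
    refine comp_induction (fun Y => Y ∈ G) hXG ?_
    intro Y _ Z hZ hYZ hYG
    by_contra hZG
    exact hcon Y hYG Z hZ hZG hYZ
  obtain ⟨Y, hY, Z, hZ, hZG, hYZ⟩ := h1
  have hYN : Y ∈ NB r B := (mem_comp.1 (hG hY)).1
  have hZN : Z ∈ NB r B := (mem_comp.1 hZ).1
  have hYc : Y.card = r := (mem_NB.1 hYN).1
  have hZc : Z.card = r := (mem_NB.1 hZN).1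
  obtain ⟨L, hL, hLY, hLZ⟩ := exists_line h hYN hZN hYZ
  refine ⟨Y, hY, Z, hZG, L, mem_linesOf.2 ⟨hL, Y, hG hY, hLY⟩, ?_, mem_pts.2 ⟨hZc, hLZ⟩⟩
  obtain ⟨y, hy, z, hz, -, -, rfl⟩ := exists_ex hYc hZc hYZ
  rw [lins, Finset.mem_union, Finset.mem_image, Finset.mem_image]
  rcases line_of_adj hL hYc hZc hLY hLZ hYZ with ⟨-, h2⟩ | ⟨-, h2⟩
  · left
    exact ⟨y, hy, by rw [h2, inter_ex hy hz]⟩
  · right
    exact ⟨z, Finset.mem_compl.2 hz, by rw [h2, union_ex hy hz]⟩

private theorem CandB_build (h : IsMat n r B) (hX : X ∈ NB r B) (k : ℕ) :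
    ∃ G ∈ cl r X k, X ∈ G ∧ G ⊆ comp r (NB r B) X ∧ (G = comp r (NB r B) X ∨
      ∃ LL ⊆ linesOf r B (comp r (NB r B) X), LL.card = k ∧ ∀ L ∈ LL, pts r L ⊆ G) := by
  classical
  induction k with
  | zero =>
    refine ⟨{X}, mem_cl_zero.2 rfl, Finset.mem_singleton_self X, ?_, Or.inr ⟨∅, ?_, rfl, ?_⟩⟩
    · intro Y hY
      rw [Finset.mem_singleton] at hY
      rw [hY]
      exact self_mem_comp hX
    · exact Finset.empty_subset _
    · intro L hL
      exact absurd hL (Finset.notMem_empty _)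
  | succ k ih =>
    obtain ⟨G, h1, h2, h3, h4⟩ := ih
    by_cases hG : G = comp r (NB r B) X
    · exact ⟨G, mem_cl_succ.2 (Or.inl h1), h2, h3, Or.inl hG⟩
    · rcases h4 with h4 | ⟨LL, h5, h6, h7⟩
      · exact absurd h4 hG
      · obtain ⟨Y, hY, Z, hZ, L, hL, hLY, hLZ⟩ := CandB_step h h2 h3 hG
        refine ⟨G ∪ pts r L, mem_cl_succ.2 (Or.inr ⟨G, h1, Y, hY, L, hLY, rfl⟩),
          Finset.mem_union_left _ h2, Finset.union_subset h3 (linesOf_sub_comp hL),
          Or.inr ⟨insert L LL, ?_, ?_, ?_⟩⟩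
        · intro L' hL'
          rcases Finset.mem_insert.1 hL' with rfl | hL'
          · exact hL
          · exact h5 hL'
        · rw [Finset.card_insert_of_notMem, h6]
          intro hmem
          exact hZ (h7 L hmem hLZ)
        · intro L' hL'
          rcases Finset.mem_insert.1 hL' with rfl | hL'
          · exact Finset.subset_union_right
          · exact (h7 L' hL').trans Finset.subset_union_left

private theorem CandB_mono (X : Finset (Fin n)) {k l : ℕ} (hkl : k ≤ l) : cl r X k ⊆ cl r X l := by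
  induction l, hkl using Nat.le_induction with
  | base => exact Finset.Subset.refl _
  | succ l _ ih => exact fun G hG => mem_cl_succ.2 (Or.inl (ih hG))

theorem comp_mem_cand (h : IsMat n r B) (hX : X ∈ NB r B) (hwx : X ∉ wx r B) :
    comp r (NB r B) X ∈ cand r X := by
  classical
  have hnl : nl r B X ≤ 24 := by
    by_contra hcon
    exact hwx (mem_wx.2 ⟨hX, Or.inr (by omega)⟩)
  obtain ⟨G, h1, h2, h3, h4⟩ := CandB_build h hX (nl r B X)
  have hG : G = comp r (NB r B) X := by
    rcases h4 with h4 | ⟨LL, h5, h6, h7⟩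
    · exact h4
    · by_contra hne
      obtain ⟨Y, hY, Z, hZ, L, hL, hLY, hLZ⟩ := CandB_step h h2 h3 hne
      have h8 : LL = linesOf r B (comp r (NB r B) X) :=
        Finset.eq_of_subset_of_card_le h5 (by rw [h6]; exact le_rfl)
      rw [← h8] at hL
      exact hZ (h7 L hL hLZ)
  rw [← hG]
  exact CandB_mono X hnl h1

/-- `wx` is a union of components -/
theorem wx_closed (hX : X ∈ wx r B) (hY : Y ∈ comp r (NB r B) X) : Y ∈ wx r B := by
  have h1 := comp_eq_of_mem hY
  rw [mem_wx] at hX ⊢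
  refine ⟨(mem_comp.1 hY).1, ?_⟩
  rcases hX.2 with h2 | h2
  · left
    rw [mem_hvy] at h2 ⊢
    refine ⟨(mem_comp.1 hY).1, ?_⟩
    rw [h1]
    exact h2.2
  · right
    unfold nl at h2 ⊢
    rw [h1]
    exact h2

end Pool.Agent.H41.VH
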