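import Pool.Agent.H41.VH.Defs

/-! # Candidates for light components (H1): definitions

`lins X`: the `(r-1)`-sets inside and the `(r+1)`-sets around the `r`-set `X` (all lines through `X`); `cl r X k`:
the unions of at most `k` lines which can be built step by step from `{X}`; `cand r X = cl r X 24`. -/

open scoped BigOperators

namespace Pool.Agent.H41.VH

open Pool.Agent.H28.Johnson Pool.Agent.H13.VM

variable {n : ℕ}

open Classical in
/-- the lines through the `r`-set `X` -/
noncomputable def lins (X : Finset (Fin n)) : Finset (Finset (Fin n)) :=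
  (X.image fun y => X.erase y) ∪ (Xᶜ.image fun z => insert z X)

open Classical in
/-- unions of at most `k` lines built step by step from `{X}` -/
noncomputable def cl (r : ℕ) (X : Finset (Fin n)) : ℕ → Finset (Finset (Finset (Fin n)))
  | 0 => {{X}}
  | k + 1 => cl r X k ∪ (cl r X k).biUnion fun G =>
      G.biUnion fun Y => (lins Y).image fun L => G ∪ pts r L

/-- candidates for the component of `X` -/
noncomputable def cand (r : ℕ) (X : Finset (Fin n)) : Finset (Finset (Finset (Fin n))) :=
  cl r X 24

lemma mem_cl_zero {r : ℕ} {X : Finset (Fin n)} {G : Finset (Finset (Fin n))} :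
    G ∈ cl r X 0 ↔ G = {X} := by
  rw [cl, Finset.mem_singleton]

lemma mem_cl_succ {r k : ℕ} {X : Finset (Fin n)} {G : Finset (Finset (Fin n))} :
    G ∈ cl r X (k + 1) ↔ G ∈ cl r X k ∨
      ∃ H ∈ cl r X k, ∃ Y ∈ H, ∃ L ∈ lins Y, H ∪ pts r L = G := by
  classical
  rw [cl, Finset.mem_union, Finset.mem_biUnion]
  simp only [Finset.mem_biUnion, Finset.mem_image]

end Pool.Agent.H41.VH
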