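import Pool.Agent.H41.VH.Defs
import Pool.Agent.H8.VM.D4_Fibers

/-! MODULE Cnt (about 150 lines). Counting lemmas on `r`-sets and cells, no matroids.

`ball_card`: an `r`-set `S` with `(S \ X).card <= k` is determined by the pair `(S \ X, X \ S)` of subsets of `Fin n` with at most `k` elements
(`(X \ S).card = (S \ X).card`); there are at most `(n+1)^k` subsets of `Fin n` with at most `k` elements (e.g. they are the images of functions
`Fin k -> Option (Fin n)`).
`near_cells`: union over the 70 sets `Q` and over the `r`-sets `S` with `(S \ c0.at Q).card <= 28` of the cells with `c.at Qac = S` (`cell_fiber`: at most `n ^ 8`): at most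
`70 (n+1)^56 n^8 <= n ^ 80` for `n >= 100` (`(n+1)^56 <= (2n)^56`, `70 * 2^56 <= 100^10`; `c0.at Q` has `r` elements by `at_mem_Base`).
`cells_hit`: union over `Q` and over `W` in `A` of the cells with `c.at Q = W`.
`nbh_sum`: exchange the sums: for fixed `v` in `A` (an `r`-set or not) the `S` in `Base n r` with `v` in `nbh r S` are `r`-sets adjacent to `v`: `S = v - y + z`, at most `n * n`
(`exists_ex`). -/

open scoped BigOperators
open Filter

namespace Pool.Agent.H41.VH

open Pool.Agent.H28.Johnson Pool.Agent.H28.V8 Pool.Agent.H8.VM Pool.Agent.H8.VR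
open Pool.Agent.H13.VM Pool.Agent.H97.VZ

variable {n r : ℕ}

private theorem cnt_small (n : ℕ) : ∀ k : ℕ,
    ((Finset.univ : Finset (Finset (Fin n))).filter fun D => D.card ≤ k).card ≤ (n + 1) ^ k := by
  intro k
  induction k with
  | zero =>
    have h1 : ((Finset.univ : Finset (Finset (Fin n))).filter fun D => D.card ≤ 0) ⊆ {∅} := by
      intro D hD
      rw [Finset.mem_filter] at hD
      rw [Finset.mem_singleton]
      exact Finset.card_eq_zero.mp (by omega)
    have h2 := Finset.card_le_card h1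
    rw [Finset.card_singleton] at h2
    simpa using h2
  | succ k ih =>
    have h1 : ((Finset.univ : Finset (Finset (Fin n))).filter fun D => D.card ≤ k + 1) ⊆
        (((Finset.univ : Finset (Finset (Fin n))).filter fun D => D.card ≤ k) ×ˢ
          (Finset.univ : Finset (Option (Fin n)))).image
          (fun p => p.2.elim p.1 (fun a => insert a p.1)) := by
      intro D hD
      rw [Finset.mem_filter] at hD
      rw [Finset.mem_image]
      by_cases h2 : D.card ≤ k
      · exact ⟨(D, none), Finset.mem_product.mpr ⟨Finset.mem_filter.mpr ⟨Finset.mem_univ _, h2⟩,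
          Finset.mem_univ _⟩, rfl⟩
      · have h3 : 0 < D.card := by omega
        obtain ⟨a, ha⟩ := Finset.card_pos.mp h3
        refine ⟨(D.erase a, some a), Finset.mem_product.mpr ⟨Finset.mem_filter.mpr
          ⟨Finset.mem_univ _, ?_⟩, Finset.mem_univ _⟩, Finset.insert_erase ha⟩
        rw [Finset.card_erase_of_mem ha]
        omega
    refine (Finset.card_le_card h1).trans (Finset.card_image_le.trans ?_)
    rw [Finset.card_product, Finset.card_univ, Fintype.card_option, Fintype.card_fin, pow_succ]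
    exact Nat.mul_le_mul ih le_rfl

open Classical in
theorem ball_card (k : ℕ) (X : Finset (Fin n)) (hX : X.card = r) :
    ((Base n r).filter fun S => (S \ X).card ≤ k).card ≤ (n + 1) ^ (2 * k) := by
  have h1 : ((Base n r).filter fun S => (S \ X).card ≤ k).card ≤
      (((Finset.univ : Finset (Finset (Fin n))).filter fun D => D.card ≤ k) ×ˢ
        ((Finset.univ : Finset (Finset (Fin n))).filter fun D => D.card ≤ k)).card := by
    refine Finset.card_le_card_of_injOn (fun S => (S \ X, X \ S)) ?_ ?_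
    · intro S hS
      rw [Finset.mem_coe, Finset.mem_filter, mem_Base] at hS
      rw [Finset.mem_coe, Finset.mem_product, Finset.mem_filter, Finset.mem_filter]
      refine ⟨⟨Finset.mem_univ _, hS.2⟩, Finset.mem_univ _, ?_⟩
      have h2 : (S \ X).card + (S ∩ X).card = S.card := Finset.card_sdiff_add_card_inter S X
      have h3 : (X \ S).card + (X ∩ S).card = X.card := Finset.card_sdiff_add_card_inter X S
      rw [Finset.inter_comm X S] at h3
      show (X \ S).card ≤ k
      omega
    · intro S _ T _ he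
      have he1 : S \ X = T \ X := congrArg Prod.fst he
      have he2 : X \ S = X \ T := congrArg Prod.snd he
      ext a
      have ha1 : a ∈ S \ X ↔ a ∈ T \ X := by rw [he1]
      have ha2 : a ∈ X \ S ↔ a ∈ X \ T := by rw [he2]
      rw [Finset.mem_sdiff, Finset.mem_sdiff] at ha1 ha2
      tauto
  refine h1.trans ?_
  rw [Finset.card_product, two_mul, pow_add]
  exact Nat.mul_le_mul (cnt_small n k) (cnt_small n k)

private theorem cnt_four (Q : Finset (Fin 8)) :
    Q ∈ (Finset.univ : Finset (Fin 8)).powersetCard 4 ↔ Q.card = 4 := by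
  rw [Finset.mem_powersetCard]
  exact ⟨fun h => h.2, fun h => ⟨Finset.subset_univ _, h⟩⟩

private theorem cnt_seventy : ((Finset.univ : Finset (Fin 8)).powersetCard 4).card = 70 := by
  rw [Finset.card_powersetCard, Finset.card_univ, Fintype.card_fin]
  rfl

open Classical in
theorem near_cells (hn : 100 ≤ n) {c0 : Cell n} (hc0 : c0 ∈ cells n r) :
    ((cells n r).filter fun c =>
      ∃ Q : Finset (Fin 8), Q.card = 4 ∧ (c.at Qac \ c0.at Q).card ≤ 28).card ≤ n ^ 80 := by
  have h1 : ((cells n r).filter fun c =>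
      ∃ Q : Finset (Fin 8), Q.card = 4 ∧ (c.at Qac \ c0.at Q).card ≤ 28) ⊆
      ((Finset.univ : Finset (Fin 8)).powersetCard 4).biUnion fun Q =>
        ((Base n r).filter fun S => (S \ c0.at Q).card ≤ 28).biUnion fun S =>
          (cells n r).filter fun c => c.at Qac = S := by
    intro c hc
    rw [Finset.mem_filter] at hc
    obtain ⟨hc1, Q, hQ, hQ2⟩ := hc
    rw [Finset.mem_biUnion]
    refine ⟨Q, (cnt_four Q).mpr hQ, ?_⟩
    rw [Finset.mem_biUnion]
    refine ⟨c.at Qac, Finset.mem_filter.mpr ⟨at_mem_Base hc1 rfl, hQ2⟩, ?_⟩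
    exact Finset.mem_filter.mpr ⟨hc1, rfl⟩
  refine (Finset.card_le_card h1).trans (Finset.card_biUnion_le.trans ?_)
  have h2 : ∀ Q ∈ (Finset.univ : Finset (Fin 8)).powersetCard 4,
      (((Base n r).filter fun S => (S \ c0.at Q).card ≤ 28).biUnion fun S =>
          (cells n r).filter fun c => c.at Qac = S).card ≤ (n + 1) ^ 56 * n ^ 8 := by
    intro Q hQ
    refine Finset.card_biUnion_le.trans ?_
    refine (Finset.sum_le_sum fun S _ => cell_fiber Qac S).trans ?_
    rw [Finset.sum_const, smul_eq_mul]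
    refine Nat.mul_le_mul ?_ le_rfl
    exact ball_card 28 (c0.at Q) (mem_Base.mp (at_mem_Base hc0 ((cnt_four Q).mp hQ)))
  refine (Finset.sum_le_sum h2).trans ?_
  rw [Finset.sum_const, cnt_seventy, smul_eq_mul]
  have h3 : (n + 1) ^ 56 ≤ (2 * n) ^ 56 := Nat.pow_le_pow_left (by omega) 56
  have h4 : 100 ^ 10 ≤ n ^ 10 := Nat.pow_le_pow_left hn 10
  have h5 : 1 ≤ n ^ 6 := Nat.one_le_pow _ _ (by omega)
  calc 70 * ((n + 1) ^ 56 * n ^ 8) ≤ 70 * ((2 * n) ^ 56 * n ^ 8) :=
        Nat.mul_le_mul le_rfl (Nat.mul_le_mul h3 le_rfl)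
    _ = (70 * 2 ^ 56) * n ^ 64 := by rw [mul_pow]; ring
    _ ≤ (100 ^ 10) * n ^ 64 := Nat.mul_le_mul (by norm_num) le_rfl
    _ ≤ n ^ 10 * n ^ 64 := Nat.mul_le_mul h4 le_rfl
    _ = n ^ 74 * 1 := by ring
    _ ≤ n ^ 74 * n ^ 6 := Nat.mul_le_mul le_rfl h5
    _ = n ^ 80 := by ring

open Classical in
theorem cells_hit (A : Finset (Finset (Fin n))) :
    ((cells n r).filter fun c => ∃ Q : Finset (Fin 8), Q.card = 4 ∧ c.at Q ∈ A).card ≤
      70 * (n ^ 8 * A.card) := by
  have h1 : ((cells n r).filter fun c => ∃ Q : Finset (Fin 8), Q.card = 4 ∧ c.at Q ∈ A) ⊆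
      ((Finset.univ : Finset (Fin 8)).powersetCard 4).biUnion fun Q =>
        A.biUnion fun S => (cells n r).filter fun c => c.at Q = S := by
    intro c hc
    rw [Finset.mem_filter] at hc
    obtain ⟨hc1, Q, hQ, hQ2⟩ := hc
    rw [Finset.mem_biUnion]
    refine ⟨Q, (cnt_four Q).mpr hQ, ?_⟩
    rw [Finset.mem_biUnion]
    exact ⟨c.at Q, hQ2, Finset.mem_filter.mpr ⟨hc1, rfl⟩⟩
  refine (Finset.card_le_card h1).trans (Finset.card_biUnion_le.trans ?_)
  have h2 : ∀ Q ∈ (Finset.univ : Finset (Fin 8)).powersetCard 4,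
      (A.biUnion fun S => (cells n r).filter fun c => c.at Q = S).card ≤ n ^ 8 * A.card := by
    intro Q _
    refine Finset.card_biUnion_le.trans ?_
    refine (Finset.sum_le_sum fun S _ => cell_fiber Q S).trans ?_
    rw [Finset.sum_const, smul_eq_mul, mul_comm]
  refine (Finset.sum_le_sum h2).trans ?_
  rw [Finset.sum_const, cnt_seventy, smul_eq_mul]

open Classical in
theorem nbh_sum (A : Finset (Finset (Fin n))) :
    ∑ S ∈ Base n r, (nbh r S ∩ A).card ≤ n ^ 2 * A.card := by
  have h1 : ∑ S ∈ Base n r, (nbh r S ∩ A).card =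
      ∑ v ∈ A, ((Base n r).filter fun S => v ∈ nbh r S).card := by
    have h2 : ∀ S ∈ Base n r, (nbh r S ∩ A).card = ∑ v ∈ A, if v ∈ nbh r S then 1 else 0 := by
      intro S _
      rw [Finset.inter_comm, ← Finset.filter_mem_eq_inter, Finset.card_filter]
    rw [Finset.sum_congr rfl h2, Finset.sum_comm]
    refine Finset.sum_congr rfl fun v _ => ?_
    rw [Finset.card_filter]
  rw [h1]
  have h3 : ∀ v ∈ A, ((Base n r).filter fun S => v ∈ nbh r S).card ≤ n ^ 2 := by
    intro v _
    have h4 : ((Base n r).filter fun S => v ∈ nbh r S) ⊆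
        ((Finset.univ : Finset (Fin n)) ×ˢ (Finset.univ : Finset (Fin n))).image
          (fun p => ex v p.1 p.2) := by
      intro S hS
      rw [Finset.mem_filter, mem_nbh] at hS
      obtain ⟨hS1, hv, hadj⟩ := hS
      obtain ⟨y, _, z, _, _, _, he⟩ := exists_ex (mem_Base.mp hv) (mem_Base.mp hS1)
        (adj_symm hadj)
      rw [Finset.mem_image]
      exact ⟨(y, z), Finset.mem_product.mpr ⟨Finset.mem_univ _, Finset.mem_univ _⟩, he.symm⟩
    refine (Finset.card_le_card h4).trans (Finset.card_image_le.trans ?_)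
    rw [Finset.card_product, Finset.card_univ, Fintype.card_fin, sq]
  refine (Finset.sum_le_sum h3).trans ?_
  rw [Finset.sum_const, smul_eq_mul, mul_comm]

open Classical in
/-- few sets have many neighbours in `A` -/
theorem nbh_many (A : Finset (Finset (Fin n))) :
    (((Base n r).filter fun S => n < (nbh r S ∩ A).card ^ 2).card : ℝ) * Real.sqrt n ≤
      (n : ℝ) ^ 2 * A.card := by
  have h1 : (((Base n r).filter fun S => n < (nbh r S ∩ A).card ^ 2).card : ℝ) * Real.sqrt n ≤
      ∑ S ∈ Base n r, ((nbh r S ∩ A).card : ℝ) := by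
    rw [← nsmul_eq_mul, ← Finset.sum_const]
    refine (Finset.sum_le_sum (g := fun S => ((nbh r S ∩ A).card : ℝ)) ?_).trans ?_
    · intro S hS
      rw [Finset.mem_filter] at hS
      have h2 : (n : ℝ) ≤ ((nbh r S ∩ A).card : ℝ) ^ 2 := by exact_mod_cast hS.2.le
      rw [Real.sqrt_le_left (Nat.cast_nonneg _)]
      exact h2
    · exact Finset.sum_le_sum_of_subset_of_nonneg (Finset.filter_subset _ _)
        fun _ _ _ => Nat.cast_nonneg _
  refine h1.trans ?_
  exact_mod_cast nbh_sum (r := r) A

open Classical in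
/-- few sets have a neighbour in `A` -/
theorem nbh_some (A : Finset (Finset (Fin n))) :
    ((Base n r).filter fun S => ¬ Disjoint (nbh r S) A).card ≤ n ^ 2 * A.card := by
  refine le_trans ?_ (nbh_sum (r := r) A)
  rw [Finset.card_eq_sum_ones]
  refine (Finset.sum_le_sum (g := fun S => (nbh r S ∩ A).card) ?_).trans ?_
  · intro S hS
    rw [Finset.mem_filter, Finset.disjoint_iff_inter_eq_empty] at hS
    exact Finset.card_pos.mpr (Finset.nonempty_iff_ne_empty.mpr hS.2)
  · exact Finset.sum_le_sum_of_subset (Finset.filter_subset _ _)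

end Pool.Agent.H41.VH
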