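import Pool.Agent.H41.VH.Sur

/-! MODULE Dec (about 180 lines). Decoding of the local surgery (E2, second half).

Write `C = comp r (NB r B) X`, `K' = NB r (sur r B X J) = (NB r B \ C) cup J` (`NB_sur`), `Reach Y` for
`Relation.ReflTransGen (stp r K' f) X Y`.
SOUND: if `Y` in `C` and `stp r K' f Y Z` (with witness `u`) then there is a full line `l` through `Y` and `u` with `u` in `J`, `l` the only full line
through `u`, such that `Z` is in `pts r l`, and `stp r K' f Y Z'` for every `Z'` in `pts r l`. Proof: `u` in `NB r B \ C` is impossible (`comp_closed`: `u` is a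
nonbase adjacent to `Y` in `C`), so `u` in `J`; `thr r B u = {l}`; `exists_line` gives a full line through `Y` and `u`, it is `l`. `u` not in `f`: by `hf` no full U-line
passes through `u`, so `l` is an I-line and `l = Y cap u` (`line_of_adj`), `Y cap u` inside `Z` is `onl l Z`. `u` in `f`: by `hf` some full U-line passes through
`u`, it is `l`, `l = Y cup u`. So all reachable sets are in `C` (`line_sub_comp`).
COMPLETE: claim: `Y` in `C`, `Reach Y`, `l` full, `onl l Y`, `Z` in `pts r l` => `Reach Z`. Let `u` be the member of `J` on `l` (`l` in `linesOf`, `mem_trv`), `thr r B u = {l}`.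
If `u <> Y`: `Y`, `u` are adjacent (`pts_adj`), `l = Y cap u` with `u` not in `f`, or `l = Y cup u` with `u` in `f` (by `hf` and `thr r B u = {l}`); so `stp r K' f Y Z`.
If `u = Y`: `Y <> X` because `J` is inside `C.erase X`, so `Reach Y` has a last step `stp r K' f Y' Y` with `Reach Y'` (`Relation.ReflTransGen.cases_tail`), `Y'` in `C`; by SOUND
there is a full line `l'` through `Y'` with `Y` in `pts r l'`; `thr r B Y = {l}` gives `l' = l`, and `stp r K' f Y' Z` by SOUND, so `Reach Z`.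
Then `comp_induction`: adjacent members `Y, Z` of `C` are on a common full line (`exists_line`). -/

open scoped BigOperators
open Filter

namespace Pool.Agent.H41.VH

open Pool.Agent.H28.Johnson Pool.Agent.H28.V8 Pool.Agent.H8.VM Pool.Agent.H8.VR
open Pool.Agent.H13.VM Pool.Agent.H97.VZ

variable {n r : ℕ} {B : Finset (Finset (Fin n))} {X : Finset (Fin n)}
  {J : Finset (Finset (Fin n))}

private theorem dec_eq_of_thr {u L L' : Finset (Fin n)} (hc : (thr r B u).card = 1)
    (h1 : L ∈ thr r B u) (h2 : L' ∈ thr r B u) : L = L' :=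
  Finset.card_le_one.1 (le_of_eq hc) _ h1 _ h2

/-- one step through the member `u` of the transversal on the full line `L` -/
private theorem dec_step {f : Finset (Finset (Fin n))}
    (hf : ∀ u ∈ J, (u ∈ f ↔ ∃ L ∈ fullU r B, onl L u)) {K' : Finset (Finset (Fin n))}
    (hK : J ⊆ K') {u L Y Z : Finset (Fin n)} (hu : u ∈ J) (huc : (thr r B u).card = 1)
    (hL : L ∈ full r B) (hLu : onl L u) (hLY : onl L Y) (hYc : Y.card = r) (huc' : u.card = r)
    (hYu : adj r Y u) (hZ : Z ∈ pts r L) : stp r K' f Y Z := by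
  rw [mem_pts] at hZ
  refine ⟨hZ.1, u, hK hu, hYu, ?_⟩
  have hLt : L ∈ thr r B u := mem_thr.2 ⟨hL, hLu⟩
  by_cases huf : u ∈ f
  · obtain ⟨L', hL', hL'u⟩ := (hf u hu).1 huf
    have he : L = L' := dec_eq_of_thr huc hLt (mem_thr.2 ⟨mem_full.2 (Or.inr hL'), hL'u⟩)
    rw [← he] at hL'
    right
    refine ⟨huf, ?_⟩
    rcases line_of_adj hL hYc huc' hLY hLu hYu with ⟨h1, _⟩ | ⟨_, h2⟩
    · exact absurd hL' (fun h => not_both h1 h)
    · rw [← h2]
      rcases hZ.2 with h3 | h3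
      · have h4 := Finset.card_le_card h3
        have h5 := (mem_fullU.1 hL').1
        omega
      · exact h3
  · left
    refine ⟨huf, ?_⟩
    have hLU : L ∉ fullU r B := fun h => huf ((hf u hu).2 ⟨L, h, hLu⟩)
    rcases line_of_adj hL hYc huc' hLY hLu hYu with ⟨h1, h2⟩ | ⟨h1, _⟩
    · rw [← h2]
      rcases hZ.2 with h3 | h3
      · exact h3
      · have h4 := Finset.card_le_card h3
        have h5 := (mem_fullI.1 h1).1
        omega
    · exact absurd h1 hLU

/-- soundness of one step -/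
private theorem dec_sound (h : IsMat n r B) (hJ : J ∈ trv r B X)
    {f : Finset (Finset (Fin n))}
    (hf : ∀ u ∈ J, (u ∈ f ↔ ∃ L ∈ fullU r B, onl L u)) {Y Z : Finset (Fin n)}
    (hY : Y ∈ comp r (NB r B) X) (hs : stp r ((NB r B \ comp r (NB r B) X) ∪ J) f Y Z) :
    ∃ L ∈ full r B, onl L Y ∧ Z ∈ pts r L ∧
      ∀ Z' ∈ pts r L, stp r ((NB r B \ comp r (NB r B) X) ∪ J) f Y Z' := by
  have hJ' := mem_trv.1 hJ
  have hCl := comp_closed (r := r) (NB r B) X
  obtain ⟨hZc, u, huK, hYu, hcase⟩ := hs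
  have hYN := hCl.1 hY
  have hYc := (mem_NB.1 hYN).1
  have huJ : u ∈ J := by
    rw [Finset.mem_union, Finset.mem_sdiff] at huK
    rcases huK with ⟨h1, h2⟩ | h1
    · exact absurd (hCl.2 Y hY u h1 hYu) h2
    · exact h1
  have huC : u ∈ comp r (NB r B) X := Finset.mem_of_mem_erase (hJ'.1 huJ)
  have huN := hCl.1 huC
  have huc := (mem_NB.1 huN).1
  obtain ⟨L, hL, hLY, hLu⟩ := exists_line h hYN huN hYu
  have hLt : L ∈ thr r B u := mem_thr.2 ⟨hL, hLu⟩
  refine ⟨L, hL, hLY, ?_, fun Z' hZ' =>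
    dec_step hf Finset.subset_union_right huJ (hJ'.2.1 u huJ) hL hLu hLY hYc huc hYu hZ'⟩
  rw [mem_pts]
  refine ⟨hZc, ?_⟩
  rcases hcase with ⟨huf, h1⟩ | ⟨huf, h1⟩
  · have hLU : L ∉ fullU r B := fun h => huf ((hf u huJ).2 ⟨L, h, hLu⟩)
    rcases line_of_adj hL hYc huc hLY hLu hYu with ⟨_, h3⟩ | ⟨h2, _⟩
    · left
      rw [h3]
      exact h1
    · exact absurd h2 hLU
  · obtain ⟨L', hL', hL'u⟩ := (hf u huJ).1 huf
    have he : L = L' :=
      dec_eq_of_thr (hJ'.2.1 u huJ) hLt (mem_thr.2 ⟨mem_full.2 (Or.inr hL'), hL'u⟩)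
    rw [← he] at hL'
    rcases line_of_adj hL hYc huc hLY hLu hYu with ⟨h2, _⟩ | ⟨_, h3⟩
    · exact absurd hL' (fun h => not_both h2 h)
    · right
      rw [h3]
      exact h1

private theorem dec_reach (h : IsMat n r B) (hX : X ∈ NB r B) (hJ : J ∈ trv r B X)
    {f : Finset (Finset (Fin n))}
    (hf : ∀ u ∈ J, (u ∈ f ↔ ∃ L ∈ fullU r B, onl L u)) {Y : Finset (Fin n)}
    (hY : Relation.ReflTransGen (stp r ((NB r B \ comp r (NB r B) X) ∪ J) f) X Y) :
    Y ∈ comp r (NB r B) X := by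
  induction hY with
  | refl => exact self_mem_comp hX
  | tail _ hs ih =>
    obtain ⟨L, hL, hLY, hZ, _⟩ := dec_sound h hJ hf ih hs
    have h1 := line_sub_comp hL ((comp_closed (r := r) (NB r B) X).1 ih) hLY hZ
    rw [comp_eq_of_mem ih] at h1
    exact h1

private theorem dec_complete (h : IsMat n r B) (hX : X ∈ NB r B) (hJ : J ∈ trv r B X)
    {f : Finset (Finset (Fin n))}
    (hf : ∀ u ∈ J, (u ∈ f ↔ ∃ L ∈ fullU r B, onl L u)) {Y Z L : Finset (Fin n)}
    (hY : Y ∈ comp r (NB r B) X)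
    (hr : Relation.ReflTransGen (stp r ((NB r B \ comp r (NB r B) X) ∪ J) f) X Y)
    (hL : L ∈ full r B) (hLY : onl L Y) (hZ : Z ∈ pts r L) :
    Relation.ReflTransGen (stp r ((NB r B \ comp r (NB r B) X) ∪ J) f) X Z := by
  have hJ' := mem_trv.1 hJ
  have hCl := comp_closed (r := r) (NB r B) X
  have hYc := (mem_NB.1 (hCl.1 hY)).1
  obtain ⟨u, huJ, hLu⟩ := (hJ'.2.2 L (mem_linesOf.2 ⟨hL, Y, hY, hLY⟩)).1
  have huC : u ∈ comp r (NB r B) X := Finset.mem_of_mem_erase (hJ'.1 huJ)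
  have huc := (mem_NB.1 (hCl.1 huC)).1
  have hLt : L ∈ thr r B u := mem_thr.2 ⟨hL, hLu⟩
  by_cases huY : Y = u
  · subst huY
    have hne : Y ≠ X := Finset.ne_of_mem_erase (hJ'.1 huJ)
    rcases Relation.ReflTransGen.cases_tail hr with h1 | ⟨Y', h1, h2⟩
    · exact absurd h1 hne
    · have hY'C := dec_reach h hX hJ hf h1
      obtain ⟨L', hL', _, h3, h4⟩ := dec_sound h hJ hf hY'C h2
      have he : L = L' :=
        dec_eq_of_thr (hJ'.2.1 Y huJ) hLt (mem_thr.2 ⟨hL', (mem_pts.1 h3).2⟩)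
      rw [← he] at h4
      exact h1.tail (h4 Z hZ)
  · have hadj : adj r Y u := pts_adj hL (mem_pts.2 ⟨hYc, hLY⟩) (mem_pts.2 ⟨huc, hLu⟩) huY
    exact hr.tail (dec_step hf Finset.subset_union_right huJ (hJ'.2.1 u huJ) hL hLu hLY hYc huc
      hadj hZ)

theorem decode (h : IsMat n r B) (hX : X ∈ NB r B) (hJ : J ∈ trv r B X)
    {f : Finset (Finset (Fin n))}
    (hf : ∀ u ∈ J, (u ∈ f ↔ ∃ L ∈ fullU r B, onl L u)) (Y : Finset (Fin n)) :
    Y ∈ comp r (NB r B) X ↔
      Relation.ReflTransGen (stp r (NB r (sur r B X J)) f) X Y := by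
  rw [NB_sur hJ]
  constructor
  · intro hY
    refine comp_induction
      (fun Y => Relation.ReflTransGen (stp r ((NB r B \ comp r (NB r B) X) ∪ J) f) X Y)
      Relation.ReflTransGen.refl ?_ Y hY
    intro Y hY Z hZ hYZ hr
    have hCl := comp_closed (r := r) (NB r B) X
    obtain ⟨L, hL, hLY, hLZ⟩ := exists_line h (hCl.1 hY) (hCl.1 hZ) hYZ
    exact dec_complete h hX hJ hf hY hr hL hLY (mem_pts.2 ⟨(mem_NB.1 (hCl.1 hZ)).1, hLZ⟩)
  · intro hY
    exact dec_reach h hX hJ hf hY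

end Pool.Agent.H41.VH
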