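import Pool.Agent.H13.VM.Bas
import Pool.Agent.H8.VR.Defs
import Pool.Agent.H97.VZ.Defs

/-! # Parts E and H of `h13_vamos_paper.md`: definitions

`nl r B X`: number of full lines of the component of the nonbase `X`; `lit r B`: the nonbases in
light components; `wx r B`: heavy nonbases and nonbases in components with at least 25 full lines.
`trv r B X`: transversals of the component of `X` (one private member, different from `X`, on every
full line); `sur r B X J`: the component of `X` is replaced by the transversal `J`; `stp`: one step of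
the decoding. `gcells r B`: the good cells (the sets `ab, ad, bd, bc` isolated nonbases, nothing
exceptional near the cell, `ac` a nonbase or cheap to insert); `surg r B c`: the nonbases near the
cell are removed and `ac` is inserted. `Typ kap n r B`: `B` is typical. -/

open scoped BigOperators
open Filter

namespace Pool.Agent.H41.VH

open Pool.Agent.H28.Johnson Pool.Agent.H28.V8 Pool.Agent.H8.VM Pool.Agent.H8.VR
open Pool.Agent.H13.VM Pool.Agent.H97.VZ

variable {n : ℕ}

/-- number of full lines of the component of the nonbase `X` -/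
noncomputable def nl (r : ℕ) (B : Finset (Finset (Fin n))) (X : Finset (Fin n)) : ℕ :=
  (linesOf r B (comp r (NB r B) X)).card

open Classical in
/-- the nonbases in light components -/
noncomputable def lit (r : ℕ) (B : Finset (Finset (Fin n))) : Finset (Finset (Fin n)) :=
  (WW r B).filter fun X => X ∉ hvy r B

open Classical in
/-- exceptional nonbases: heavy, or in a component with at least 25 full lines -/
noncomputable def wx (r : ℕ) (B : Finset (Finset (Fin n))) : Finset (Finset (Fin n)) :=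
  (NB r B).filter fun X => X ∈ hvy r B ∨ 25 ≤ nl r B X

open Classical in
/-- transversals of the component of `X`: one private member different from `X` on every full
line -/
noncomputable def trv (r : ℕ) (B : Finset (Finset (Fin n))) (X : Finset (Fin n)) :
    Finset (Finset (Finset (Fin n))) :=
  ((comp r (NB r B) X).erase X).powerset.filter fun J =>
    (∀ u ∈ J, (thr r B u).card = 1) ∧
      ∀ L ∈ linesOf r B (comp r (NB r B) X), (∃ u ∈ J, onl L u) ∧
        ∀ u ∈ J, ∀ v ∈ J, onl L u → onl L v → u = v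

/-- the component of `X` is replaced by the transversal `J` -/
noncomputable def sur (r : ℕ) (B : Finset (Finset (Fin n))) (X : Finset (Fin n))
    (J : Finset (Finset (Fin n))) : Finset (Finset (Fin n)) := (B ∪ comp r (NB r B) X) \ J

/-- one step of the decoding: `u` in `K` is adjacent to `X`, and `Y` is on the line through `X` and
`u` whose type (I-line or U-line) is given by `f` -/
def stp (r : ℕ) (K f : Finset (Finset (Fin n))) (X Y : Finset (Fin n)) : Prop :=
  Y.card = r ∧ ∃ u ∈ K, adj r X u ∧ ((u ∉ f ∧ X ∩ u ⊆ Y) ∨ (u ∈ f ∧ Y ⊆ X ∪ u))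

/-- the region of the matroid `B` -/
noncomputable def rg (r : ℕ) (B : Finset (Finset (Fin n))) : Finset (Finset (Fin n)) :=
  reg r (WW r B)

/-- the cost of the site `S` -/
noncomputable def cost (r : ℕ) (B : Finset (Finset (Fin n))) (S : Finset (Fin n)) : ℕ :=
  LamR r (rg r B) (iso r B) S

/-! ## cells -/

open Classical in
/-- the 70 sets of the cell `c` without `ab, ad, bd, bc` -/
noncomputable def rest (c : Cell n) : Finset (Finset (Fin n)) :=
  (((Finset.univ : Finset (Fin 8)).powersetCard 4).filter fun Q =>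
    Q ≠ Qab ∧ Q ≠ Qad ∧ Q ≠ Qbd ∧ Q ≠ Qbc).image c.at

/-- `c` is a good cell of `B` -/
def gcell (r : ℕ) (B : Finset (Finset (Fin n))) (c : Cell n) : Prop :=
  c ∈ cells n r ∧ (c.at Qab ∈ iso r B ∧ c.at Qad ∈ iso r B ∧ c.at Qbd ∈ iso r B ∧
    c.at Qbc ∈ iso r B) ∧ (∀ Q : Finset (Fin 8), Q.card = 4 → c.at Q ∉ wx r B) ∧
    (c.at Qac ∈ NB r B ∨ (Disjoint (nbh r (c.at Qac)) (wx r B) ∧
      (nbh r (c.at Qac) ∩ WW r B).card ^ 2 ≤ n ∧ cost r B (c.at Qac) ≤ 2 ^ (4 * n / 5)))

open Classical in
/-- the good cells of `B` -/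
noncomputable def gcells (r : ℕ) (B : Finset (Finset (Fin n))) : Finset (Cell n) :=
  (cells n r).filter fun c => gcell r B c

open Classical in
/-- the nonbases in the components which meet `T` -/
noncomputable def remd (r : ℕ) (B T : Finset (Finset (Fin n))) : Finset (Finset (Fin n)) :=
  (NB r B).filter fun Y => ∃ X ∈ T, X ∈ comp r (NB r B) Y

/-- the nonbases in the components which meet the neighbourhood of `ac` or the other sets of the
cell become bases, `ac` becomes a nonbase -/
noncomputable def surg (r : ℕ) (B : Finset (Finset (Fin n))) (c : Cell n) :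
    Finset (Finset (Fin n)) :=
  (B ∪ remd r B (nbh r (c.at Qac) ∪ rest c)).erase (c.at Qac)

/-! ## typical matroids -/

/-- the typical matroids -/
def Typ (kap : ℝ) (n r : ℕ) (B : Finset (Finset (Fin n))) : Prop :=
  ((WW r B).card : ℝ) ≤ (n.choose r : ℝ) * (Real.log n ^ 2 / (n : ℝ) ^ 2) ∧
  ((wx r B).card : ℝ) ≤ (n.choose r : ℝ) / (n : ℝ) ^ 20 ∧
  kap * ((n.choose r : ℝ) / n) ≤ ((iso r B).card : ℝ) ∧
  (((Base n r).filter fun S => 2 ^ (4 * n / 5) < cost r B S).card : ℝ) ≤
    (n.choose r : ℝ) * (Real.log n ^ 2 / n)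

/-! ## membership lemmas -/

lemma mem_lit {r : ℕ} {B : Finset (Finset (Fin n))} {X : Finset (Fin n)} :
    X ∈ lit r B ↔ X ∈ WW r B ∧ X ∉ hvy r B := by
  classical
  rw [lit, Finset.mem_filter]

lemma mem_wx {r : ℕ} {B : Finset (Finset (Fin n))} {X : Finset (Fin n)} :
    X ∈ wx r B ↔ X ∈ NB r B ∧ (X ∈ hvy r B ∨ 25 ≤ nl r B X) := by
  classical
  rw [wx, Finset.mem_filter]

lemma mem_trv {r : ℕ} {B : Finset (Finset (Fin n))} {X : Finset (Fin n)}
    {J : Finset (Finset (Fin n))} :
    J ∈ trv r B X ↔ J ⊆ (comp r (NB r B) X).erase X ∧ (∀ u ∈ J, (thr r B u).card = 1) ∧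
      ∀ L ∈ linesOf r B (comp r (NB r B) X), (∃ u ∈ J, onl L u) ∧
        ∀ u ∈ J, ∀ v ∈ J, onl L u → onl L v → u = v := by
  classical
  rw [trv, Finset.mem_filter, Finset.mem_powerset]

lemma mem_gcells {r : ℕ} {B : Finset (Finset (Fin n))} {c : Cell n} :
    c ∈ gcells r B ↔ gcell r B c := by
  classical
  rw [gcells, Finset.mem_filter]
  exact ⟨fun h => h.2, fun h => ⟨h.1, h⟩⟩

lemma mem_remd {r : ℕ} {B T : Finset (Finset (Fin n))} {Y : Finset (Fin n)} :
    Y ∈ remd r B T ↔ Y ∈ NB r B ∧ ∃ X ∈ T, X ∈ comp r (NB r B) Y := by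
  classical
  rw [remd, Finset.mem_filter]

lemma mem_rest {c : Cell n} {X : Finset (Fin n)} :
    X ∈ rest c ↔ ∃ Q : Finset (Fin 8), Q.card = 4 ∧ (Q ≠ Qab ∧ Q ≠ Qad ∧ Q ≠ Qbd ∧ Q ≠ Qbc) ∧
      c.at Q = X := by
  classical
  rw [rest, Finset.mem_image]
  constructor
  · rintro ⟨Q, hQ, h⟩
    rw [Finset.mem_filter, Finset.mem_powersetCard] at hQ
    exact ⟨Q, hQ.1.2, hQ.2, h⟩
  · rintro ⟨Q, h1, h2, h⟩
    exact ⟨Q, Finset.mem_filter.mpr ⟨Finset.mem_powersetCard.mpr ⟨Finset.subset_univ _, h1⟩, h2⟩, h⟩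

lemma Fr_subset (n r : ℕ) : Fr n r ⊆ Mats n r := by
  classical
  rw [Fr]
  exact Finset.filter_subset _ _

end Pool.Agent.H41.VH
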