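import Pool.Agent.H41.VH.Lin
import Pool.Agent.H13.VM.A4
import Pool.Agent.H13.VM.A5

/-! MODULE Fib (about 170 lines). Fibres over the nonisolated nonbases: for fixed `W` the matroids with `WW r B = W` are
exactly the `B` with `NB r B = W cup I`, `I` any stable subset of the region `reg r W`.

`iso_mem_stabs`: members of `iso r B` are not in `WW r B`, not adjacent to any nonbase.
`rebuild_*`: `B0` in `Mats n r`, `W = WW r B0`, `I` in `stabs r (reg r W)`, `B = Base n r \ (W cup I)`. `B0 cup iso r B0 = Base n r \ W` is a matroid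
(`add_components`: `iso r B0` is closed in `NB r B0`); `I` is inside it, stable, and an `r`-set adjacent to a member of `I` is not in `W` (definition of
`reg`), so `del_stable` gives `IsMat n r ((Base n r \ W) \ I)`. `NB r B = W cup I` (both inside `Base n r`). `WW r B = W`: a member of `I` is isolated in `W cup I` (not
adjacent to `W`, `I` stable), a member `X` of `W = WW r B0` has a neighbour `Y` in `NB r B0` (it is not isolated), and `Y` is in `WW r B0` (it has the neighbour `X`),
so `X` is not isolated in `W cup I`. `iso r B = I`.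
`fib_sum`: group the sum by the value `W` of `WW r B` (`Finset.sum_fiberwise_of_maps_to`), and inside use the bijection `B -> iso r B` (inverse `I -> Base n r \ (W cup I)`):
`B = Base n r \ (WW r B cup iso r B)` since `NB r B = WW r B cup iso r B`. (`Finset.sum_bij'`.) -/

open scoped BigOperators
open Filter

namespace Pool.Agent.H41.VH

open Pool.Agent.H28.Johnson Pool.Agent.H28.V8 Pool.Agent.H8.VM Pool.Agent.H8.VR
open Pool.Agent.H13.VM Pool.Agent.H97.VZ

private lemma fib_ww_union {n r : ℕ} (B : Finset (Finset (Fin n))) :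
    WW r B ∪ iso r B = NB r B := by
  ext X
  rw [Finset.mem_union, mem_WW]
  constructor
  · rintro (h | h)
    · exact h.1
    · exact (mem_iso.mp h).1
  · intro h
    by_cases hX : X ∈ iso r B
    · exact Or.inr hX
    · exact Or.inl ⟨h, hX⟩

private lemma fib_ww_sub {n r : ℕ} (B : Finset (Finset (Fin n))) : WW r B ⊆ Base n r :=
  fun _ hX => mem_Base.mpr (mem_NB.mp (mem_WW.mp hX).1).1

theorem iso_mem_stabs {n r : ℕ} {B : Finset (Finset (Fin n))} : iso r B ∈ stabs r (rg r B) := by
  rw [mem_stabs]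
  refine ⟨fun X hX => ?_, fun a ha b hb => (mem_iso.mp ha).2 b (mem_iso.mp hb).1⟩
  have h := mem_iso.mp hX
  rw [rg, mem_reg]
  exact ⟨(mem_NB.mp h.1).1, fun hW => (mem_WW.mp hW).2 hX, fun Y hY => h.2 Y (mem_WW.mp hY).1⟩

theorem iso_mem_stables {n r : ℕ} {B : Finset (Finset (Fin n))} :
    iso r B ∈ Pool.Agent.H28.Windows.stables n r := by
  rw [Pool.Agent.H28.Windows.mem_stables]
  exact ⟨fun X hX => mem_Base.mpr (mem_NB.mp (mem_iso.mp hX).1).1,
    fun a ha b hb => (mem_iso.mp ha).2 b (mem_iso.mp hb).1⟩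

theorem rebuild {n r : ℕ} (hr : 1 ≤ r) (hrn : r < n) {B : Finset (Finset (Fin n))}
    (h : IsMat n r B) {I : Finset (Finset (Fin n))} (hI : I ∈ stabs r (reg r (WW r B))) :
    IsMat n r (Base n r \ (WW r B ∪ I)) ∧ WW r (Base n r \ (WW r B ∪ I)) = WW r B ∧
      iso r (Base n r \ (WW r B ∪ I)) = I := by
  rw [mem_stabs] at hI
  obtain ⟨hIreg, hst⟩ := hI
  have hIr : ∀ X ∈ I, X.card = r ∧ X ∉ WW r B ∧ ∀ Y ∈ WW r B, ¬ adj r X Y :=
    fun X hX => mem_reg.mp (hIreg hX)
  have hcl : Closed r (NB r B) (iso r B) :=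
    ⟨fun X hX => (mem_iso.mp hX).1, fun X hX Y hY hXY => absurd hXY ((mem_iso.mp hX).2 Y hY)⟩
  have h1 := add_components h hcl
  have h2 : B ∪ iso r B = Base n r \ WW r B := by
    ext X
    rw [Finset.mem_union, Finset.mem_sdiff, mem_Base, mem_WW, mem_NB]
    constructor
    · rintro (hX | hX)
      · exact ⟨h.card_eq hX, fun hc => hc.1.2 hX⟩
      · exact ⟨(mem_NB.mp (mem_iso.mp hX).1).1, fun hc => hc.2 hX⟩
    · rintro ⟨hX, hc⟩
      by_cases hB : X ∈ B
      · exact Or.inl hB
      · by_cases hi : X ∈ iso r B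
        · exact Or.inr hi
        · exact absurd ⟨⟨hX, hB⟩, hi⟩ hc
  rw [h2] at h1
  have h3 := del_stable h1 hr hrn (J := I)
    (fun X hX => Finset.mem_sdiff.mpr ⟨mem_Base.mpr (hIr X hX).1, (hIr X hX).2.1⟩) hst
    (fun S hS X hX hadj => Finset.mem_sdiff.mpr ⟨hX, fun hW => (hIr S hS).2.2 X hW hadj⟩)
  have h4 : (Base n r \ WW r B) \ I = Base n r \ (WW r B ∪ I) := by
    ext X
    simp only [Finset.mem_sdiff, Finset.mem_union]
    tauto
  rw [h4] at h3
  have hNB : NB r (Base n r \ (WW r B ∪ I)) = WW r B ∪ I := by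
    rw [NB]
    refine Finset.sdiff_sdiff_eq_self (Finset.union_subset (fib_ww_sub B) ?_)
    exact fun X hX => mem_Base.mpr (hIr X hX).1
  have hiso : iso r (Base n r \ (WW r B ∪ I)) = I := by
    ext X
    rw [mem_iso, hNB, Finset.mem_union]
    constructor
    · rintro ⟨hX, hno⟩
      rcases hX with hX | hX
      · exfalso
        have hX' := mem_WW.mp hX
        obtain ⟨Y, hY, hXY⟩ : ∃ Y ∈ NB r B, adj r X Y := by
          by_contra hcon
          push Not at hcon
          exact hX'.2 (mem_iso.mpr ⟨hX'.1, hcon⟩)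
        have hYW : Y ∈ WW r B :=
          mem_WW.mpr ⟨hY, fun hYi => (mem_iso.mp hYi).2 X hX'.1 (adj_symm hXY)⟩
        exact hno Y (Finset.mem_union_left _ hYW) hXY
      · exact hX
    · intro hX
      refine ⟨Or.inr hX, fun Y hY => ?_⟩
      rcases Finset.mem_union.mp hY with hY | hY
      · exact (hIr X hX).2.2 Y hY
      · exact hst X hX Y hY
  refine ⟨h3, ?_, hiso⟩
  rw [WW, hNB, hiso]
  ext X
  rw [Finset.mem_sdiff, Finset.mem_union]
  constructor
  · rintro ⟨hX | hX, hX'⟩
    · exact hX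
    · exact absurd hX hX'
  · exact fun hX => ⟨Or.inl hX, fun hXI => (hIr X hXI).2.1 hX⟩

open Classical in
theorem fib_sum {n r : ℕ} (hr : 1 ≤ r) (hrn : r < n)
    (F : Finset (Finset (Fin n)) → Finset (Finset (Fin n)) → ℝ) :
    ∑ B ∈ Mats n r, F (WW r B) (iso r B) =
      ∑ W ∈ (Mats n r).image (WW r), ∑ I ∈ stabs r (reg r W), F W I := by
  rw [← Finset.sum_fiberwise_of_maps_to (s := Mats n r) (t := (Mats n r).image (WW r))
    (g := WW r) (fun B hB => Finset.mem_image_of_mem _ hB)]
  refine Finset.sum_congr rfl fun W hW => ?_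
  obtain ⟨B0, hB0, hB0W⟩ := Finset.mem_image.mp hW
  have hM0 := mem_Mats.mp hB0
  subst hB0W
  refine Finset.sum_bij' (fun B _ => iso r B) (fun I _ => Base n r \ (WW r B0 ∪ I)) ?_ ?_ ?_ ?_ ?_
  · intro B hB
    have hBW : WW r B = WW r B0 := (Finset.mem_filter.mp hB).2
    rw [← hBW]
    exact iso_mem_stabs
  · intro I hI
    have h := rebuild hr hrn hM0 hI
    exact Finset.mem_filter.mpr ⟨mem_Mats.mpr h.1, h.2.1⟩
  · intro B hB
    have hBW : WW r B = WW r B0 := (Finset.mem_filter.mp hB).2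
    have hM := mem_Mats.mp (Finset.mem_filter.mp hB).1
    show Base n r \ (WW r B0 ∪ iso r B) = B
    rw [← hBW, fib_ww_union, NB]
    exact Finset.sdiff_sdiff_eq_self hM.1
  · intro I hI
    exact (rebuild hr hrn hM0 hI).2.2
  · intro B hB
    rw [(Finset.mem_filter.mp hB).2]

end Pool.Agent.H41.VH
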