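import Pool.Agent.H41.VH.Lgt

/-! MODULE Trv (about 120 lines). The number of transversals of a light component.

`trv_card_eq`: `J` in `trv r B X`: the map `u ->` the unique full line through `u` (`thr` has one element, it is in `linesOf` because
`u` is in the component) is a bijection from `J` to `linesOf r B (comp r (NB r B) X)`: injective by the last condition of `mem_trv`,
surjective because every line has a member `u` in `J`.
`trv_card`: for every choice `p` in `Finset.pi (linesOf ..) (fun L => (privs r B L).erase X)` the set of values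
`J_p = (linesOf ..).attach.image (fun L => p L.1 L.2)` is in `trv r B X` (private members determine their line: `thr r B u` has one element, so
`onl L u` and `onl L' u` with `L, L'` full give `L = L'`; `line_sub_comp` / `linesOf_sub_comp` for `J_p` inside the component) and `p -> J_p` is injective by the same
remark. `Finset.card_pi`: the number of choices is the product of the cards of `(privs r B L).erase X`, each at least `2 n / 5` (`priv_many`). -/

open scoped BigOperators
open Filter

namespace Pool.Agent.H41.VH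

open Pool.Agent.H28.Johnson Pool.Agent.H28.V8 Pool.Agent.H8.VM Pool.Agent.H8.VR
open Pool.Agent.H13.VM Pool.Agent.H97.VZ

variable {n r : ℕ} {B : Finset (Finset (Fin n))} {X : Finset (Fin n)}
  {J : Finset (Finset (Fin n))}

private lemma line_uniq {u L L' : Finset (Fin n)} (h : (thr r B u).card = 1) (hL : L ∈ full r B)
    (hL' : L' ∈ full r B) (h1 : onl L u) (h2 : onl L' u) : L = L' :=
  Finset.card_le_one.1 (le_of_eq h) L (mem_thr.2 ⟨hL, h1⟩) L' (mem_thr.2 ⟨hL', h2⟩)

theorem trv_card_eq (hJ : J ∈ trv r B X) : J.card = nl r B X := by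
  classical
  rw [mem_trv] at hJ
  obtain ⟨h1, h2, h3⟩ := hJ
  rw [nl]
  symm
  refine Finset.card_bij (fun L hL => Classical.choose (h3 L hL).1) ?_ ?_ ?_
  · intro L hL
    exact (Classical.choose_spec (h3 L hL).1).1
  · intro L hL L' hL' he
    have e1 := (Classical.choose_spec (h3 L hL).1)
    have e2 := (Classical.choose_spec (h3 L' hL').1)
    have he' : Classical.choose (h3 L hL).1 = Classical.choose (h3 L' hL').1 := he
    rw [← he'] at e2
    exact line_uniq (h2 _ e1.1) (mem_linesOf.1 hL).1 (mem_linesOf.1 hL').1 e1.2 e2.2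
  · intro u hu
    have hc := (Finset.mem_erase.1 (h1 hu)).2
    have h4 : (thr r B u).Nonempty := by
      rw [← Finset.card_pos, h2 u hu]
      exact Nat.one_pos
    obtain ⟨L, hL⟩ := h4
    have h5 : L ∈ linesOf r B (comp r (NB r B) X) := by
      rw [← linesOf_comp_eq hc]
      exact thr_sub_linesOf (mem_comp.1 hc).1 hL
    have h6 := Classical.choose_spec (h3 L h5).1
    exact ⟨L, h5, (h3 L h5).2 _ h6.1 u hu h6.2 (mem_thr.1 hL).2⟩

theorem trv_card (hn : 600 ≤ n) (h49 : 49 * n ≤ 100 * r) (h51 : 100 * r ≤ 51 * n)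
    (hX : X ∈ lit r B) : (2 * n) ^ (nl r B X) ≤ 5 ^ (nl r B X) * (trv r B X).card := by
  classical
  have key : ((linesOf r B (comp r (NB r B) X)).pi fun L => (privs r B L).erase X).card ≤
      (trv r B X).card := by
    have hp : ∀ p ∈ (linesOf r B (comp r (NB r B) X)).pi (fun L => (privs r B L).erase X),
        ∀ L (hL : L ∈ linesOf r B (comp r (NB r B) X)), p L hL ≠ X ∧
          ((p L hL).card = r ∧ onl L (p L hL)) ∧ (thr r B (p L hL)).card = 1 := by
      intro p hp L hL
      have h := Finset.mem_pi.1 hp L hL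
      rw [Finset.mem_erase, mem_privs] at h
      exact h
    refine Finset.card_le_card_of_injOn (fun p =>
      (linesOf r B (comp r (NB r B) X)).attach.image fun L => p L.1 L.2) ?_ ?_
    · intro p hp0
      have hp1 := hp p (Finset.mem_coe.1 hp0)
      rw [Finset.mem_coe, mem_trv]
      refine ⟨?_, ?_, ?_⟩
      · intro u hu
        rw [Finset.mem_image] at hu
        obtain ⟨⟨L, hL⟩, _, rfl⟩ := hu
        have h := hp1 L hL
        exact Finset.mem_erase.2 ⟨h.1, linesOf_sub_comp hL (mem_pts.2 h.2.1)⟩
      · intro u hu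
        rw [Finset.mem_image] at hu
        obtain ⟨⟨L, hL⟩, _, rfl⟩ := hu
        exact (hp1 L hL).2.2
      · intro L hL
        refine ⟨⟨p L hL, Finset.mem_image.2 ⟨⟨L, hL⟩, Finset.mem_attach _ _, rfl⟩,
          (hp1 L hL).2.1.2⟩, ?_⟩
        intro u hu v hv hLu hLv
        rw [Finset.mem_image] at hu hv
        obtain ⟨⟨L1, hL1⟩, _, rfl⟩ := hu
        obtain ⟨⟨L2, hL2⟩, _, rfl⟩ := hv
        have e1 : L = L1 := line_uniq (hp1 L1 hL1).2.2 (mem_linesOf.1 hL).1 (mem_linesOf.1 hL1).1
          hLu (hp1 L1 hL1).2.1.2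
        have e2 : L = L2 := line_uniq (hp1 L2 hL2).2.2 (mem_linesOf.1 hL).1 (mem_linesOf.1 hL2).1
          hLv (hp1 L2 hL2).2.1.2
        subst e1
        subst e2
        rfl
    · intro p hp0 q hq0 he
      have hp1 := hp p (Finset.mem_coe.1 hp0)
      have hq1 := hp q (Finset.mem_coe.1 hq0)
      funext L hL
      have h1 : p L hL ∈ (linesOf r B (comp r (NB r B) X)).attach.image fun L => q L.1 L.2 := by
        have he' : ((linesOf r B (comp r (NB r B) X)).attach.image fun L => p L.1 L.2) =
          (linesOf r B (comp r (NB r B) X)).attach.image fun L => q L.1 L.2 := he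
        rw [← he']
        exact Finset.mem_image.2 ⟨⟨L, hL⟩, Finset.mem_attach _ _, rfl⟩
      rw [Finset.mem_image] at h1
      obtain ⟨⟨L', hL'⟩, _, h2⟩ := h1
      have h2' : q L' hL' = p L hL := h2
      have h3 : onl L' (p L hL) := h2' ▸ (hq1 L' hL').2.1.2
      have e1 : L = L' := line_uniq (hp1 L hL).2.2 (mem_linesOf.1 hL).1 (mem_linesOf.1 hL').1
        (hp1 L hL).2.1.2 h3
      subst e1
      exact h2'.symm
  calc (2 * n) ^ (nl r B X) = ∏ _L ∈ linesOf r B (comp r (NB r B) X), (2 * n) := by
        rw [Finset.prod_const, nl]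
    _ ≤ ∏ L ∈ linesOf r B (comp r (NB r B) X), 5 * ((privs r B L).erase X).card :=
        Finset.prod_le_prod' fun L hL => priv_many hn h49 h51 hX hL
    _ = 5 ^ (nl r B X) *
        ((linesOf r B (comp r (NB r B) X)).pi fun L => (privs r B L).erase X).card := by
        rw [Finset.prod_mul_distrib, Finset.prod_const, nl, Finset.card_pi]
    _ ≤ 5 ^ (nl r B X) * (trv r B X).card := Nat.mul_le_mul_left _ key

end Pool.Agent.H41.VH
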