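import Pool.Agent.H41.VH.Dec
import Pool.Agent.H41.VH.Trv

/-! MODULE Kra (about 130 lines). Kraft inequality for the preimages of the local surgery.

Fix `B'` and `X`. For a pair `(B, J)` in the sum let `F(B, J)` be the set of all `f` inside `Base n r` with: for `u` in `J`,
`u` in `f` iff some full U-line passes through `u`. `F(B, J)` has `2 ^ (N - J.card)` members (`N = n.choose r`, `J` inside `Base n r`): it is the
image of the powerset of `Base n r \ J` under `g -> g cup J_U`, injective. The sets `F(B, J)` are pairwise disjoint: if `f` is in `F(B, J)` and in `F(B2, J2)`, by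
`decode` and `sur r B X J = B' = sur r B2 X J2` the components of `X` in `B` and `B2` are the same set `C`; `J = NB r B' cap C` (`NB_sur`), so `J = J2`; `NB r B = (NB r B' \ C) cup C`, i.e.
`B = sur \ C cup ...`: `Z` in `NB r B` iff `Z` in `C` or `Z` in `NB r B'` (as `NB r B' = (NB r B \ C) cup J`, `J` inside `C`), so `NB r B = NB r B2` and `B = B2` (both
inside `Base n r`). All `F(B, J)` are inside the powerset of `Base n r`, which has `2 ^ N` members: `Finset.card_biUnion` over the sigma type of the pairs
(`Finset.card_sigma` / `Finset.sum_sigma`), or an injection from the sigma type of all `(B, J, f)` to the powerset. -/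

open scoped BigOperators
open Filter

namespace Pool.Agent.H41.VH

open Pool.Agent.H28.Johnson Pool.Agent.H28.V8 Pool.Agent.H8.VM Pool.Agent.H8.VR
open Pool.Agent.H13.VM Pool.Agent.H97.VZ

open Classical in
/-- the sets `f` which decode the pair `(B, J)` -/
private noncomputable def codes (n r : ℕ) (B J : Finset (Finset (Fin n))) :
    Finset (Finset (Finset (Fin n))) :=
  (Base n r).powerset.filter fun f => ∀ u ∈ J, (u ∈ f ↔ ∃ L ∈ fullU r B, onl L u)

open Classical in
private theorem codes_card {n r : ℕ} {B J : Finset (Finset (Fin n))} (hJ : J ⊆ Base n r) :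
    2 ^ (n.choose r - J.card) ≤ (codes n r B J).card := by
  set JU := J.filter fun u => ∃ L ∈ fullU r B, onl L u with hJU
  have h1 : ((Base n r \ J).powerset).card = 2 ^ (n.choose r - J.card) := by
    rw [Finset.card_powerset, Finset.card_sdiff_of_subset hJ, card_Base]
  rw [← h1]
  refine Finset.card_le_card_of_injOn (fun s => s ∪ JU) ?_ ?_
  · intro s hs
    have hs' : s ⊆ Base n r \ J := Finset.mem_powerset.1 (Finset.mem_coe.1 hs)
    refine Finset.mem_coe.2 (Finset.mem_filter.2 ⟨Finset.mem_powerset.2 ?_, ?_⟩)
    · refine Finset.union_subset (hs'.trans Finset.sdiff_subset) ?_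
      exact (Finset.filter_subset _ _).trans hJ
    · intro u hu
      constructor
      · intro h
        rcases Finset.mem_union.1 h with h | h
        · exact absurd hu (Finset.mem_sdiff.1 (hs' h)).2
        · exact (Finset.mem_filter.1 h).2
      · intro h
        exact Finset.mem_union_right _ (Finset.mem_filter.2 ⟨hu, h⟩)
  · intro s hs t ht hst
    have hs' : s ⊆ Base n r \ J := Finset.mem_powerset.1 (Finset.mem_coe.1 hs)
    have ht' : t ⊆ Base n r \ J := Finset.mem_powerset.1 (Finset.mem_coe.1 ht)
    have hst' : s ∪ JU = t ∪ JU := hst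
    ext u
    constructor
    · intro hu
      have : u ∈ t ∪ JU := hst' ▸ Finset.mem_union_left _ hu
      rcases Finset.mem_union.1 this with h | h
      · exact h
      · exact absurd (Finset.mem_filter.1 h).1 (Finset.mem_sdiff.1 (hs' hu)).2
    · intro hu
      have : u ∈ s ∪ JU := hst' ▸ Finset.mem_union_left _ hu
      rcases Finset.mem_union.1 this with h | h
      · exact h
      · exact absurd (Finset.mem_filter.1 h).1 (Finset.mem_sdiff.1 (ht' hu)).2

private theorem trv_sub_comp {n r : ℕ} {B J : Finset (Finset (Fin n))} {X : Finset (Fin n)}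
    (hJ : J ∈ trv r B X) : J ⊆ comp r (NB r B) X :=
  (mem_trv.1 hJ).1.trans (Finset.erase_subset _ _)

private theorem comp_sub_NB {n r : ℕ} {B : Finset (Finset (Fin n))} {X : Finset (Fin n)} :
    comp r (NB r B) X ⊆ NB r B := (comp_closed _ _).1

open Classical in
theorem kraft (n r : ℕ) (B' : Finset (Finset (Fin n))) (X : Finset (Fin n)) :
    ∑ B ∈ (Mats n r).filter (fun B => X ∈ NB r B),
      ∑ J ∈ (trv r B X).filter (fun J => sur r B X J = B'), 2 ^ (n.choose r - J.card) ≤
    2 ^ (n.choose r) := by
  have h1 : ∑ B ∈ (Mats n r).filter (fun B => X ∈ NB r B),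
      ∑ J ∈ (trv r B X).filter (fun J => sur r B X J = B'), 2 ^ (n.choose r - J.card) ≤
      ∑ B ∈ (Mats n r).filter (fun B => X ∈ NB r B),
      ∑ J ∈ (trv r B X).filter (fun J => sur r B X J = B'), (codes n r B J).card := by
    refine Finset.sum_le_sum fun B _ => Finset.sum_le_sum fun J hJ => codes_card ?_
    have h2 := (trv_sub_comp (Finset.mem_filter.1 hJ).1).trans comp_sub_NB
    exact h2.trans (by rw [NB]; exact Finset.sdiff_subset)
  refine h1.trans ?_
  have h2 : (2 : ℕ) ^ (n.choose r) = ((Base n r).powerset).card := by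
    rw [Finset.card_powerset, card_Base]
  rw [h2]
  set T := ((Mats n r).filter (fun B => X ∈ NB r B)).sigma (fun B =>
    ((trv r B X).filter (fun J => sur r B X J = B')).sigma (fun J => codes n r B J)) with hT
  have h3 : ∑ B ∈ (Mats n r).filter (fun B => X ∈ NB r B),
      ∑ J ∈ (trv r B X).filter (fun J => sur r B X J = B'), (codes n r B J).card = T.card := by
    rw [hT, Finset.card_sigma]
    refine Finset.sum_congr rfl fun B _ => ?_
    rw [Finset.card_sigma]
  rw [h3]
  have key : ∀ B J f, B ∈ Mats n r → X ∈ NB r B → J ∈ trv r B X → sur r B X J = B' →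
      f ∈ codes n r B J →
      (∀ Y, Y ∈ comp r (NB r B) X ↔ Relation.ReflTransGen (stp r (NB r B') f) X Y) ∧
      J = (NB r B').filter (fun Y => Relation.ReflTransGen (stp r (NB r B') f) X Y) ∧
      B = (Base n r).filter (fun Y => ¬ (Relation.ReflTransGen (stp r (NB r B') f) X Y ∨
        Y ∈ NB r B')) := by
    intro B J f hB hX hJ hs hf
    have hd : ∀ Y, Y ∈ comp r (NB r B) X ↔
        Relation.ReflTransGen (stp r (NB r B') f) X Y := fun Y => by
      have := decode (mem_Mats.1 hB) hX hJ (f := f) (Finset.mem_filter.1 hf).2 Y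
      rwa [hs] at this
    have hN : NB r B' = (NB r B \ comp r (NB r B) X) ∪ J := by
      rw [← hs]
      exact NB_sur hJ
    have hJC := trv_sub_comp hJ
    have hCN : comp r (NB r B) X ⊆ NB r B := comp_sub_NB
    refine ⟨hd, ?_, ?_⟩
    · ext Y
      rw [Finset.mem_filter, ← hd, hN, Finset.mem_union, Finset.mem_sdiff]
      constructor
      · intro h
        exact ⟨Or.inr h, hJC h⟩
      · rintro ⟨h | h, h'⟩
        · exact absurd h' h.2
        · exact h
    · have hBB : B ⊆ Base n r := by
        have := hB
        rw [Mats, Finset.mem_filter, Finset.mem_powerset] at this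
        exact this.1
      ext Y
      rw [Finset.mem_filter, ← hd, hN, Finset.mem_union, Finset.mem_sdiff]
      constructor
      · intro h
        refine ⟨hBB h, ?_⟩
        have hYN : Y ∉ NB r B := fun h' => by
          rw [NB, Finset.mem_sdiff] at h'
          exact h'.2 h
        rintro (h' | h' | h')
        · exact hYN (hCN h')
        · exact hYN h'.1
        · exact hYN (hCN (hJC h'))
      · rintro ⟨h, h'⟩
        by_contra hYB
        have hYN : Y ∈ NB r B := by
          rw [NB, Finset.mem_sdiff]
          exact ⟨h, hYB⟩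
        apply h'
        by_cases hc : Y ∈ comp r (NB r B) X
        · exact Or.inl hc
        · exact Or.inr (Or.inl ⟨hYN, hc⟩)
  refine Finset.card_le_card_of_injOn (fun t => t.2.2) ?_ ?_
  · rintro ⟨B, J, f⟩ ht
    have ht' := Finset.mem_coe.1 ht
    rw [hT, Finset.mem_sigma, Finset.mem_sigma] at ht'
    exact Finset.mem_coe.2 (Finset.mem_filter.1 ht'.2.2).1
  · rintro ⟨B, J, f⟩ ht ⟨B2, J2, f2⟩ ht2 hff
    have ht' := Finset.mem_coe.1 ht
    have ht2' := Finset.mem_coe.1 ht2
    rw [hT, Finset.mem_sigma, Finset.mem_sigma] at ht' ht2'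
    obtain ⟨hB, hJ, hf⟩ := ht'
    obtain ⟨hB2, hJ2, hf2⟩ := ht2'
    have hff' : f = f2 := hff
    subst hff'
    have k1 := key B J f (Finset.mem_filter.1 hB).1 (Finset.mem_filter.1 hB).2
      (Finset.mem_filter.1 hJ).1 (Finset.mem_filter.1 hJ).2 hf
    have k2 := key B2 J2 f (Finset.mem_filter.1 hB2).1 (Finset.mem_filter.1 hB2).2
      (Finset.mem_filter.1 hJ2).1 (Finset.mem_filter.1 hJ2).2 hf2
    have e1 : B = B2 := k1.2.2.trans k2.2.2.symm
    have e2 : J = J2 := k1.2.1.trans k2.2.1.symm
    subst e1 e2
    rfl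

end Pool.Agent.H41.VH
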