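import Pool.Agent.H41.VH.Lin

/-! MODULE Lgt (about 150 lines). Light components (E1).

`X` in `lit r B`: `X` is a nonbase, not isolated, and its component `C` is not `Heavy`: every member `Y` of `C` has at most one full
I-line (`thrI`) and at most one full U-line, and `(linesOf r B C).card ^ 2 < n`. A member `Y` of `C` has `comp Y = comp X`
(`comp_eq_of_mem`), so it is in `NB`, not in `hvy`; it is not isolated: if `C = {Y}` then `Y = X`; otherwise (`comp_iso`) a contradiction. So `Y` in `lit`.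
`priv_many`: `L` in `linesOf r B C` has at least `min (n - r + 1) (r + 1) >= 49 n / 100 + 1` members; a member `Y` of `L` which is not
private is on another full line `L'` (its `thr` contains `L`, so it has at least two elements), `L'` in `linesOf r B C` (`thr_sub_linesOf` and
`linesOf_comp_eq`), and each of the fewer than `sqrt n` lines `L' <> L` contains at most two members of `L`. So
`privs >= 0.49 n + 1 - 2 sqrt n >= 0.4 n + 1` for `n >= 600`, and we lose at most one by `erase X`. -/

open scoped BigOperators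
open Filter

namespace Pool.Agent.H41.VH

open Pool.Agent.H28.Johnson Pool.Agent.H28.V8 Pool.Agent.H8.VM Pool.Agent.H8.VR
open Pool.Agent.H13.VM Pool.Agent.H97.VZ

variable {n r : ℕ} {B : Finset (Finset (Fin n))} {L L' X Y : Finset (Fin n)}

private theorem lgt_split (hX : X ∈ lit r B) :
    X ∈ NB r B ∧ X ∉ iso r B ∧ ¬ Heavy r B (comp r (NB r B) X) := by
  rw [mem_lit, mem_WW, mem_hvy] at hX
  exact ⟨hX.1.1, hX.1.2, fun h => hX.2 ⟨hX.1.1, h⟩⟩

theorem lit_of_mem_comp (hX : X ∈ lit r B) (hY : Y ∈ comp r (NB r B) X) : Y ∈ lit r B := by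
  obtain ⟨h1, h2, h3⟩ := lgt_split hX
  have hc : comp r (NB r B) Y = comp r (NB r B) X := comp_eq_of_mem hY
  have hYN : Y ∈ NB r B := (mem_comp.1 hY).1
  rw [mem_lit, mem_WW, mem_hvy]
  refine ⟨⟨hYN, ?_⟩, ?_⟩
  · intro hi
    have h4 := comp_iso hi
    rw [hc] at h4
    have h5 : X ∈ comp r (NB r B) X := self_mem_comp h1
    rw [h4, Finset.mem_singleton] at h5
    rw [← h5] at hi
    exact h2 hi
  · rintro ⟨_, h4⟩
    rw [hc] at h4
    exact h3 h4

theorem lit_thrI (hX : X ∈ lit r B) : (thrI r B X).card ≤ 1 := by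
  obtain ⟨h1, _, h3⟩ := lgt_split hX
  by_contra hc
  exact h3 (Or.inl ⟨X, self_mem_comp h1, Or.inl (by omega)⟩)

theorem lit_thrU (hX : X ∈ lit r B) : (thrU r B X).card ≤ 1 := by
  obtain ⟨h1, _, h3⟩ := lgt_split hX
  by_contra hc
  exact h3 (Or.inl ⟨X, self_mem_comp h1, Or.inr (by omega)⟩)

theorem lit_nl (hX : X ∈ lit r B) : (nl r B X) ^ 2 < n := by
  obtain ⟨_, _, h3⟩ := lgt_split hX
  by_contra hc
  exact h3 (Or.inr (not_lt.1 hc))

theorem lit_thr_nonempty (h : IsMat n r B) (hX : X ∈ lit r B) : (thr r B X).Nonempty := by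
  obtain ⟨h1, h2, _⟩ := lgt_split hX
  rw [mem_iso, not_and] at h2
  have h3 := h2 h1
  rw [not_forall] at h3
  obtain ⟨Y, h4⟩ := h3
  rw [Classical.not_imp, not_not] at h4
  obtain ⟨L, hL, hLX, _⟩ := exists_line h h1 h4.1 h4.2
  exact ⟨L, mem_thr.2 ⟨hL, hLX⟩⟩

theorem lit_nl_pos (h : IsMat n r B) (hX : X ∈ lit r B) : 1 ≤ nl r B X := by
  obtain ⟨L, hL⟩ := lit_thr_nonempty h hX
  exact Finset.card_pos.2 ⟨L, thr_sub_linesOf (lgt_split hX).1 hL⟩

theorem priv_many (hn : 600 ≤ n) (h49 : 49 * n ≤ 100 * r) (h51 : 100 * r ≤ 51 * n)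
    (hX : X ∈ lit r B) (hL : L ∈ linesOf r B (comp r (NB r B) X)) :
    2 * n ≤ 5 * ((privs r B L).erase X).card := by
  have hLf : L ∈ full r B := (mem_linesOf.1 hL).1
  have hsub := linesOf_sub_comp hL
  -- the number of members of the line
  have hcard : 49 * n + 100 ≤ 100 * (pts r L).card := by
    rcases mem_full.1 hLf with h | h
    · rw [card_pts_fullI (by omega) h]
      omega
    · rw [card_pts_fullU h]
      omega
  -- the members which are not private
  have hcov : pts r L ⊆ privs r B L ∪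
      ((linesOf r B (comp r (NB r B) X)).erase L).biUnion (fun L' => pts r L ∩ pts r L') := by
    intro Y hY
    rw [Finset.mem_union]
    by_cases hp : (thr r B Y).card = 1
    · left
      rw [mem_privs]
      exact ⟨mem_pts.1 hY, hp⟩
    · right
      have hLY : L ∈ thr r B Y := mem_thr.2 ⟨hLf, (mem_pts.1 hY).2⟩
      have hpos := Finset.card_pos.2 ⟨L, hLY⟩
      obtain ⟨L', hL', hne⟩ := Finset.exists_mem_ne (by omega : 1 < (thr r B Y).card) L
      have hYC := hsub hY
      have h1 : L' ∈ linesOf r B (comp r (NB r B) Y) :=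
        thr_sub_linesOf (mem_comp.1 hYC).1 hL'
      rw [linesOf_comp_eq hYC] at h1
      rw [Finset.mem_biUnion]
      refine ⟨L', Finset.mem_erase.2 ⟨hne, h1⟩, Finset.mem_inter.2 ⟨hY, ?_⟩⟩
      exact mem_pts.2 ⟨(mem_pts.1 hY).1, (mem_thr.1 hL').2⟩
  have h2 : (((linesOf r B (comp r (NB r B) X)).erase L).biUnion
      (fun L' => pts r L ∩ pts r L')).card ≤
      ((linesOf r B (comp r (NB r B) X)).erase L).card * 2 := by
    refine Finset.card_biUnion_le_card_mul _ _ _ ?_
    intro L' hL'
    rw [Finset.mem_erase] at hL'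
    exact pts_inter_le_two hLf (mem_linesOf.1 hL'.2).1 hL'.1.symm
  have h3 : ((linesOf r B (comp r (NB r B) X)).erase L).card + 1 = nl r B X := by
    rw [Finset.card_erase_of_mem hL]
    have := Finset.card_pos.2 ⟨L, hL⟩
    unfold nl
    omega
  have h4 := (Finset.card_le_card hcov).trans (Finset.card_union_le _ _)
  have h5 : (privs r B L).card ≤ ((privs r B L).erase X).card + 1 := by
    have := Finset.pred_card_le_card_erase (s := privs r B L) (a := X)
    omega
  have h6 := lit_nl hX
  have h7 : 1000 * nl r B X ≤ 45 * n + 1000 := by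
    by_cases h8 : nl r B X ≤ 24
    · omega
    · have h9 : 25 ≤ nl r B X := by omega
      nlinarith
  omega

end Pool.Agent.H41.VH
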