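import Pool.Agent.H41.VH.Lsum
import Pool.Agent.H41.VH.Fib
import Pool.Agent.H8.VR.OneSite

/-! MODULE Lmean (about 150 lines). Expected mass of the light components (E3).

`lit_priv`: every `X` in `lit r B` is on a full line of its component, and each such line `L` has at most `n` members and at least `2 n / 5`
private members, which are in `lit r B` and on no other full line: with `LL` = the full lines `L` which have a member in `lit r B`,
`(lit r B).card <= sum over LL of (pts r L).card <= n * LL.card` and `LL.card * 2 n <= 5 * sum over LL of (privs r B L).card <= 5 * (private members of lit)` (the sets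
`privs r B L` are disjoint for different full lines). So `2 * (lit r B).card <= 5 * (private ones)`. (`pts` has at most `n` members: `card_pts_fullI/U`, `1 <= r < n`.)
`lit25`: `light_sum` with `l = 25`, `S B = (lit r B).filter (25 <= nl)`, `T B = Base n r`.
`lit_mean`: `light_sum` with `l = 1`, `S B` = private members of `lit r B`, `T B' = one r (rg r B') (iso r B')` (`one_sur`, `lit_nl_pos`); the sum of `(T B').card` over
`Mats n r` is by `fib_sum` the sum over `W` of the sum over `I` in `stabs r (reg r W)` of `(one r (reg r W) I).card`, at most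
`C (N log n / n) * sum over W of (stabs r (reg r W)).card = C (N log n / n) * (Mats n r).card` (`one_site`, and `fib_sum` with `F = 1`). -/

open scoped BigOperators
open Filter

namespace Pool.Agent.H41.VH

open Pool.Agent.H28.Johnson Pool.Agent.H28.V8 Pool.Agent.H8.VM Pool.Agent.H8.VR
open Pool.Agent.H13.VM Pool.Agent.H97.VZ

private lemma lm_NB {n r : ℕ} {B : Finset (Finset (Fin n))} {X : Finset (Fin n)}
    (hX : X ∈ lit r B) : X ∈ NB r B := (mem_WW.1 (mem_lit.1 hX).1).1

open Classical in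
theorem lit_priv {n r : ℕ} (hn : 600 ≤ n) (h49 : 49 * n ≤ 100 * r) (h51 : 100 * r ≤ 51 * n)
    {B : Finset (Finset (Fin n))} (h : IsMat n r B) :
    2 * (lit r B).card ≤ 5 * ((lit r B).filter fun X => (thr r B X).card = 1).card := by
  set LL := (full r B).filter (fun L => ∃ X ∈ lit r B, onl L X) with hLL
  have h1 : lit r B ⊆ LL.biUnion (pts r) := by
    intro X hX
    obtain ⟨L, hL⟩ := lit_thr_nonempty h hX
    rw [mem_thr] at hL
    rw [Finset.mem_biUnion]
    refine ⟨L, Finset.mem_filter.2 ⟨hL.1, X, hX, hL.2⟩, mem_pts.2 ⟨(mem_NB.1 (lm_NB hX)).1, hL.2⟩⟩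
  have h2 : ∀ L ∈ LL, (pts r L).card ≤ n := by
    intro L hL
    rw [hLL, Finset.mem_filter, mem_full] at hL
    rcases hL.1 with hL | hL
    · rw [card_pts_fullI (by omega) hL]; omega
    · rw [card_pts_fullU hL]; omega
  have h3 : ∀ L ∈ LL, 2 * n ≤ 5 * (privs r B L).card := by
    intro L hL
    rw [hLL, Finset.mem_filter] at hL
    obtain ⟨hL, X, hX, hLX⟩ := hL
    have := priv_many hn h49 h51 hX (thr_sub_linesOf (lm_NB hX) (mem_thr.2 ⟨hL, hLX⟩))
    exact this.trans (Nat.mul_le_mul_left 5 (Finset.card_le_card (Finset.erase_subset _ _)))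
  have h4 : ∀ L ∈ LL, privs r B L ⊆ (lit r B).filter fun X => (thr r B X).card = 1 := by
    intro L hL Y hY
    rw [hLL, Finset.mem_filter] at hL
    obtain ⟨hL, X, hX, hLX⟩ := hL
    rw [mem_privs] at hY
    rw [Finset.mem_filter]
    exact ⟨lit_of_mem_comp hX (line_sub_comp hL (lm_NB hX) hLX (mem_pts.2 hY.1)), hY.2⟩
  have h5 : ∑ L ∈ LL, (privs r B L).card ≤
      ((lit r B).filter fun X => (thr r B X).card = 1).card := by
    rw [← Finset.card_biUnion]
    · exact Finset.card_le_card (Finset.biUnion_subset.2 h4)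
    · intro L hL L' hL' hne
      rw [Function.onFun, Finset.disjoint_left]
      intro Y hY hY'
      rw [mem_privs] at hY hY'
      rw [Finset.mem_coe, hLL, Finset.mem_filter] at hL hL'
      obtain ⟨a, ha⟩ := Finset.card_eq_one.1 hY.2
      have e1 : L ∈ thr r B Y := mem_thr.2 ⟨hL.1, hY.1.2⟩
      have e2 : L' ∈ thr r B Y := mem_thr.2 ⟨hL'.1, hY'.1.2⟩
      rw [ha, Finset.mem_singleton] at e1 e2
      exact hne (e1.trans e2.symm)
  have h6 : (lit r B).card ≤ LL.card * n := by
    refine (Finset.card_le_card h1).trans (Finset.card_biUnion_le.trans ?_)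
    refine (Finset.sum_le_sum h2).trans ?_
    rw [Finset.sum_const, smul_eq_mul]
  have h7 : LL.card * (2 * n) ≤ 5 * ∑ L ∈ LL, (privs r B L).card := by
    rw [Finset.mul_sum, ← smul_eq_mul, ← Finset.sum_const]
    exact Finset.sum_le_sum h3
  calc 2 * (lit r B).card ≤ 2 * (LL.card * n) := Nat.mul_le_mul_left 2 h6
    _ = LL.card * (2 * n) := by ring
    _ ≤ 5 * ∑ L ∈ LL, (privs r B L).card := h7
    _ ≤ _ := Nat.mul_le_mul_left 5 h5

open Classical in
theorem lit25 {n r : ℕ} (hn : 600 ≤ n) (h49 : 49 * n ≤ 100 * r) (h51 : 100 * r ≤ 51 * n) :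
    n ^ 25 * ∑ B ∈ Mats n r, ((lit r B).filter fun X => 25 ≤ nl r B X).card ≤
      5 ^ 25 * (n.choose r * (Mats n r).card) := by
  have := light_sum hn h49 h51 25 (fun B => (lit r B).filter fun X => 25 ≤ nl r B X)
    (fun _ => Base n r) (fun B _ => Finset.filter_subset _ _)
    (fun B _ X hX => (Finset.mem_filter.1 hX).2)
    (fun B _ X hX J _ => mem_Base.2 (mem_NB.1 (lm_NB (Finset.mem_filter.1 hX).1)).1)
  refine this.trans (le_of_eq ?_)
  rw [Finset.sum_const, card_Base, smul_eq_mul, mul_comm (Mats n r).card]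

theorem lit_mean : ∃ C : ℝ, 0 < C ∧ ∀ᶠ n : ℕ in atTop, ∀ r : ℕ, 49 * n ≤ 100 * r →
    100 * r ≤ 51 * n → ((∑ B ∈ Mats n r, (lit r B).card : ℕ) : ℝ) ≤
      C * ((n.choose r : ℝ) * Real.log n / (n : ℝ) ^ 2) * ((Mats n r).card : ℝ) := by
  classical
  obtain ⟨C, hC, hev⟩ := one_site
  refine ⟨25 / 2 * C, by positivity, ?_⟩
  filter_upwards [hev, eventually_ge_atTop 600] with n hone hn r h49 h51
  have hr : 1 ≤ r := by omega
  have hrn : r < n := by omega
  have hn0 : (0 : ℝ) < n := by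
    have : 0 < n := by omega
    exact_mod_cast this
  set PS : Finset (Finset (Fin n)) → Finset (Finset (Fin n)) :=
    fun B => (lit r B).filter fun X => (thr r B X).card = 1 with hPS
  have h1 : 2 * ∑ B ∈ Mats n r, (lit r B).card ≤ 5 * ∑ B ∈ Mats n r, (PS B).card := by
    rw [Finset.mul_sum, Finset.mul_sum]
    exact Finset.sum_le_sum fun B hB => lit_priv hn h49 h51 (mem_Mats.1 hB)
  have h2 : n ^ 1 * ∑ B ∈ Mats n r, (PS B).card ≤
      5 ^ 1 * ∑ B ∈ Mats n r, (one r (rg r B) (iso r B)).card := by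
    refine light_sum hn h49 h51 1 PS (fun B => one r (rg r B) (iso r B))
      (fun B _ => Finset.filter_subset _ _) ?_ ?_
    · intro B hB X hX
      exact lit_nl_pos (mem_Mats.1 hB) (Finset.mem_filter.1 hX).1
    · intro B hB X hX J hJ
      have hX' := Finset.mem_filter.1 hX
      exact one_sur (mem_Mats.1 hB) hr hrn (lm_NB hX'.1) hX'.2 hJ
  have h3 : ((∑ B ∈ Mats n r, (one r (rg r B) (iso r B)).card : ℕ) : ℝ) ≤
      C * ((n.choose r : ℝ) * Real.log n / n) * ((Mats n r).card : ℝ) := by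
    have e1 := fib_sum (n := n) hr hrn (fun W I => ((one r (reg r W) I).card : ℝ))
    have e2 := fib_sum (n := n) hr hrn (fun _ _ => (1 : ℝ))
    rw [Finset.sum_const, nsmul_eq_mul, mul_one] at e2
    rw [e2]
    push_cast
    have e3 : ∑ B ∈ Mats n r, ((one r (rg r B) (iso r B)).card : ℝ) =
        ∑ B ∈ Mats n r, ((one r (reg r (WW r B)) (iso r B)).card : ℝ) := rfl
    rw [e3, e1, Finset.mul_sum]
    refine Finset.sum_le_sum fun W _ => ?_
    have e4 := hone r h49 h51 (reg r W) (by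
      intro X hX
      exact mem_Base.2 (mem_reg.1 hX).1)
    push_cast at e4
    rw [Finset.sum_const, nsmul_eq_mul, mul_one]
    exact e4
  have h1' : 2 * ((∑ B ∈ Mats n r, (lit r B).card : ℕ) : ℝ) ≤
      5 * ((∑ B ∈ Mats n r, (PS B).card : ℕ) : ℝ) := by exact_mod_cast h1
  have h2' : (n : ℝ) * ((∑ B ∈ Mats n r, (PS B).card : ℕ) : ℝ) ≤
      5 * ((∑ B ∈ Mats n r, (one r (rg r B) (iso r B)).card : ℕ) : ℝ) := by
    rw [pow_one, pow_one] at h2
    exact_mod_cast h2
  set a : ℝ := ((∑ B ∈ Mats n r, (lit r B).card : ℕ) : ℝ) with ha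
  set b : ℝ := ((∑ B ∈ Mats n r, (PS B).card : ℕ) : ℝ) with hb
  set c : ℝ := ((∑ B ∈ Mats n r, (one r (rg r B) (iso r B)).card : ℕ) : ℝ) with hc
  set M : ℝ := ((Mats n r).card : ℝ) with hM
  have h4 : b ≤ 5 * c / n := by
    rw [le_div_iff₀ hn0]
    linarith
  have h5 : 5 * c / n ≤ 5 * (C * ((n.choose r : ℝ) * Real.log n / n) * M) / n := by
    gcongr
  have h6 : 5 * (C * ((n.choose r : ℝ) * Real.log n / n) * M) / n =
      5 * (C * ((n.choose r : ℝ) * Real.log n / (n : ℝ) ^ 2) * M) := by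
    field_simp
  have h7 : a ≤ 5 / 2 * b := by linarith
  have h8 : b ≤ 5 * (C * ((n.choose r : ℝ) * Real.log n / (n : ℝ) ^ 2) * M) :=
    h6 ▸ (h4.trans h5)
  calc a ≤ 5 / 2 * b := h7
    _ ≤ 5 / 2 * (5 * (C * ((n.choose r : ℝ) * Real.log n / (n : ℝ) ^ 2) * M)) := by linarith
    _ = 25 / 2 * C * ((n.choose r : ℝ) * Real.log n / (n : ℝ) ^ 2) * M := by ring

end Pool.Agent.H41.VH
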