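import Pool.Agent.H41.VH.Cnt
import Pool.Agent.H41.VH.Fib

/-! MODULE Low (about 150 lines). Good cells from sites (H5, H6).

`five`: for every `U` in the filter choose the cell `c`; `ac` is in `iso r B`, so it is a nonbase; if no set `c.at Q` (4 elements) is in `wx r B`, `c` is in `gcells r B`, and `U = c.at Qab` is
determined by `c`; otherwise `c` is in the set of `cells_hit` for `A = wx r B`.
`sites`: for every `S` in the filter choose `c` with `c.at Qac = S`. Cases: (1) some `c.at Q` in `wx`: `cells_hit`; (2) otherwise, `S` in `NB r B`: `c` in `gcells r B`; (3) `S` not in `NB r B` and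
`nbh r S` meets `wx r B`: `nbh_some`; (4) `n < (nbh r S cap WW r B).card ^ 2`; (5) `2 ^ (4 n / 5) < cost r B S`; (6) otherwise `c` in `gcells r B`. In (1), (2), (6) `S = c.at Qac` is determined
by `c`, so (2) and (6) together are at most `(gcells r B).card`. -/

open scoped BigOperators
open Filter

namespace Pool.Agent.H41.VH

open Pool.Agent.H28.Johnson Pool.Agent.H28.V8 Pool.Agent.H8.VM Pool.Agent.H8.VR
open Pool.Agent.H13.VM Pool.Agent.H97.VZ

variable {n r : ℕ} {B : Finset (Finset (Fin n))}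

open Classical in
theorem five : ((iso r B).filter fun U => ∃ c ∈ cells n r, c.at Qab = U ∧ c.at Qac ∈ iso r B ∧
    c.at Qad ∈ iso r B ∧ c.at Qbc ∈ iso r B ∧ c.at Qbd ∈ iso r B).card ≤
    (gcells r B).card + 70 * (n ^ 8 * (wx r B).card) := by
  have h1 : ((iso r B).filter fun U => ∃ c ∈ cells n r, c.at Qab = U ∧ c.at Qac ∈ iso r B ∧
      c.at Qad ∈ iso r B ∧ c.at Qbc ∈ iso r B ∧ c.at Qbd ∈ iso r B) ⊆
      (gcells r B).image (fun c => c.at Qab) ∪
        ((cells n r).filter fun c => ∃ Q : Finset (Fin 8), Q.card = 4 ∧ c.at Q ∈ wx r B).image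
          (fun c => c.at Qab) := by
    intro U hU
    rw [Finset.mem_filter] at hU
    obtain ⟨hUi, c, hc, hcU, hac, had, hbc, hbd⟩ := hU
    rw [Finset.mem_union, Finset.mem_image, Finset.mem_image]
    by_cases hx : ∃ Q : Finset (Fin 8), Q.card = 4 ∧ c.at Q ∈ wx r B
    · exact Or.inr ⟨c, Finset.mem_filter.mpr ⟨hc, hx⟩, hcU⟩
    · left
      refine ⟨c, mem_gcells.mpr ⟨hc, ⟨hcU ▸ hUi, had, hbd, hbc⟩, ?_, Or.inl (mem_iso.mp hac).1⟩, hcU⟩
      intro Q hQ hQ2
      exact hx ⟨Q, hQ, hQ2⟩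
  refine (Finset.card_le_card h1).trans ((Finset.card_union_le _ _).trans ?_)
  exact Nat.add_le_add Finset.card_image_le (Finset.card_image_le.trans (cells_hit (wx r B)))

open Classical in
theorem sites : ((Base n r).filter fun S => ∃ c ∈ cells n r, c.at Qac = S ∧
    c.at Qab ∈ iso r B ∧ c.at Qad ∈ iso r B ∧ c.at Qbc ∈ iso r B ∧ c.at Qbd ∈ iso r B).card ≤
    (gcells r B).card + 70 * (n ^ 8 * (wx r B).card) + n ^ 2 * (wx r B).card +
      ((Base n r).filter fun S => n < (nbh r S ∩ WW r B).card ^ 2).card +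
      ((Base n r).filter fun S => 2 ^ (4 * n / 5) < cost r B S).card := by
  have h1 : ((Base n r).filter fun S => ∃ c ∈ cells n r, c.at Qac = S ∧
      c.at Qab ∈ iso r B ∧ c.at Qad ∈ iso r B ∧ c.at Qbc ∈ iso r B ∧ c.at Qbd ∈ iso r B) ⊆
      ((((gcells r B).image (fun c => c.at Qac) ∪
        ((cells n r).filter fun c => ∃ Q : Finset (Fin 8), Q.card = 4 ∧ c.at Q ∈ wx r B).image
          (fun c => c.at Qac)) ∪
        ((Base n r).filter fun S => ¬ Disjoint (nbh r S) (wx r B))) ∪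
        ((Base n r).filter fun S => n < (nbh r S ∩ WW r B).card ^ 2)) ∪
        ((Base n r).filter fun S => 2 ^ (4 * n / 5) < cost r B S) := by
    intro S hS
    rw [Finset.mem_filter] at hS
    obtain ⟨hSb, c, hc, hcS, hab, had, hbc, hbd⟩ := hS
    simp only [Finset.mem_union, Finset.mem_image, Finset.mem_filter]
    by_cases hx : ∃ Q : Finset (Fin 8), Q.card = 4 ∧ c.at Q ∈ wx r B
    · exact Or.inl (Or.inl (Or.inl (Or.inr ⟨c, ⟨hc, hx⟩, hcS⟩)))
    by_cases hd : Disjoint (nbh r S) (wx r B)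
    swap
    · exact Or.inl (Or.inl (Or.inr ⟨hSb, hd⟩))
    by_cases hm : n < (nbh r S ∩ WW r B).card ^ 2
    · exact Or.inl (Or.inr ⟨hSb, hm⟩)
    by_cases hk : 2 ^ (4 * n / 5) < cost r B S
    · exact Or.inr ⟨hSb, hk⟩
    refine Or.inl (Or.inl (Or.inl (Or.inl ⟨c, mem_gcells.mpr ⟨hc, ⟨hab, had, hbd, hbc⟩, ?_,
      Or.inr ⟨?_, ?_, ?_⟩⟩, hcS⟩)))
    · intro Q hQ hQ2
      exact hx ⟨Q, hQ, hQ2⟩
    · rw [hcS]
      exact hd
    · rw [hcS]
      exact not_lt.mp hm
    · rw [hcS]
      exact not_lt.mp hk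
  refine (Finset.card_le_card h1).trans ((Finset.card_union_le _ _).trans ?_)
  refine Nat.add_le_add ((Finset.card_union_le _ _).trans ?_) le_rfl
  refine Nat.add_le_add ((Finset.card_union_le _ _).trans ?_) le_rfl
  refine Nat.add_le_add ((Finset.card_union_le _ _).trans ?_) (nbh_some (wx r B))
  exact Nat.add_le_add Finset.card_image_le (Finset.card_image_le.trans (cells_hit (wx r B)))

end Pool.Agent.H41.VH
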