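import Pool.Agent.H41.VH.Kra

/-! MODULE Lsum (about 120 lines). The general bound for light components.

`N = n.choose r`. Sum the Kraft inequality over all `B'` in `Mats n r` and `X` in `T B'`: the right side is
`2 ^ N * sum of (T B').card`. Left side: exchange sums; for `B` in `Mats n r`, `X` in `S B`, `J` in `trv r B X` the pair `(B', X)` with `B' = sur r B X J` occurs (`sur_mem`,
`hT`), so the left side is at least the sum over `B`, `X` in `S B` (`lit` is inside `NB`) of `sum over J in trv r B X of 2 ^ (N - J.card)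
= (trv r B X).card * 2 ^ (N - nl)` (`trv_card_eq`), `nl = nl r B X <= N` (`J` is inside `Base n r`, and `trv` is nonempty by `trv_card`). By `trv_card`
`(2 n) ^ nl * 2 ^ (N - nl) <= 5 ^ nl * (trv).card * 2 ^ (N - nl)`, i.e. `n ^ nl * 2 ^ N <= 5 ^ nl * (trv).card * 2 ^ (N - nl)`; and `l <= nl`, `5 <= n` give
`n ^ l * 5 ^ nl <= 5 ^ l * n ^ nl`. So `n ^ l * 2 ^ N <= 5 ^ l * (trv).card * 2 ^ (N - nl)` (cancel `5 ^ nl`). Sum and cancel `2 ^ N`. -/

open scoped BigOperators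
open Filter

namespace Pool.Agent.H41.VH

open Pool.Agent.H28.Johnson Pool.Agent.H28.V8 Pool.Agent.H8.VM Pool.Agent.H8.VR
open Pool.Agent.H13.VM Pool.Agent.H97.VZ

private theorem Lsum_one {n r : ℕ} (hn : 600 ≤ n) (h49 : 49 * n ≤ 100 * r)
    (h51 : 100 * r ≤ 51 * n) (l : ℕ) {B : Finset (Finset (Fin n))} {X : Finset (Fin n)}
    (hX : X ∈ lit r B) (hl : l ≤ nl r B X) :
    n ^ l * 2 ^ (n.choose r) ≤ 5 ^ l * ∑ J ∈ trv r B X, 2 ^ (n.choose r - J.card) := by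
  have h1 := trv_card hn h49 h51 hX
  have h2 : ∑ J ∈ trv r B X, 2 ^ (n.choose r - J.card) =
      (trv r B X).card * 2 ^ (n.choose r - nl r B X) := by
    rw [← smul_eq_mul, ← Finset.sum_const]
    refine Finset.sum_congr rfl fun J hJ => ?_
    rw [trv_card_eq hJ]
  rw [h2]
  have hpos : 0 < (trv r B X).card := by
    by_contra h0
    have h3 : (trv r B X).card = 0 := by omega
    rw [h3, mul_zero] at h1
    have h4 : 0 < (2 * n) ^ nl r B X := pow_pos (by omega) _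
    omega
  have hk : nl r B X ≤ n.choose r := by
    obtain ⟨J, hJ⟩ := Finset.card_pos.1 hpos
    rw [← trv_card_eq hJ, ← card_Base]
    refine Finset.card_le_card fun u hu => ?_
    have h5 := (mem_trv.1 hJ).1 hu
    have h6 := (mem_comp.1 (Finset.mem_of_mem_erase h5)).1
    exact mem_Base.2 (mem_NB.1 h6).1
  generalize nl r B X = k at *
  have e1 : (2 : ℕ) ^ (n.choose r) = 2 ^ k * 2 ^ (n.choose r - k) := by
    rw [← pow_add]
    congr 1
    omega
  have e2 : n ^ l * 5 ^ k ≤ 5 ^ l * n ^ k := by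
    have h3 : k = l + (k - l) := by omega
    have h4 : (5 : ℕ) ^ (k - l) ≤ n ^ (k - l) := Nat.pow_le_pow_left (by omega) _
    calc n ^ l * 5 ^ k = n ^ l * (5 ^ l * 5 ^ (k - l)) := by rw [← pow_add, ← h3]
      _ ≤ n ^ l * (5 ^ l * n ^ (k - l)) :=
          Nat.mul_le_mul_left _ (Nat.mul_le_mul_left _ h4)
      _ = 5 ^ l * (n ^ l * n ^ (k - l)) := by ring
      _ = 5 ^ l * n ^ k := by rw [← pow_add, ← h3]
  have h5 : 0 < 5 ^ k := pow_pos (by norm_num) _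
  refine Nat.le_of_mul_le_mul_right (c := 5 ^ k) ?_ h5
  rw [e1]
  calc n ^ l * (2 ^ k * 2 ^ (n.choose r - k)) * 5 ^ k
      = (n ^ l * 5 ^ k) * (2 ^ k * 2 ^ (n.choose r - k)) := by ring
    _ ≤ (5 ^ l * n ^ k) * (2 ^ k * 2 ^ (n.choose r - k)) := Nat.mul_le_mul_right _ e2
    _ = 5 ^ l * ((2 * n) ^ k * 2 ^ (n.choose r - k)) := by rw [mul_pow]; ring
    _ ≤ 5 ^ l * ((5 ^ k * (trv r B X).card) * 2 ^ (n.choose r - k)) :=
        Nat.mul_le_mul_left _ (Nat.mul_le_mul_right _ h1)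
    _ = 5 ^ l * ((trv r B X).card * 2 ^ (n.choose r - k)) * 5 ^ k := by ring

open Classical in
private theorem Lsum_two {n r : ℕ} (hr : 1 ≤ r) (hrn : r < n)
    (S T : Finset (Finset (Fin n)) → Finset (Finset (Fin n)))
    (hS : ∀ B ∈ Mats n r, S B ⊆ lit r B)
    (hT : ∀ B ∈ Mats n r, ∀ X ∈ S B, ∀ J ∈ trv r B X, X ∈ T (sur r B X J)) :
    ∑ B ∈ Mats n r, ∑ X ∈ S B, ∑ J ∈ trv r B X, 2 ^ (n.choose r - J.card) ≤
      2 ^ (n.choose r) * ∑ B ∈ Mats n r, (T B).card := by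
  have hNB : ∀ B ∈ Mats n r, ∀ X ∈ S B, X ∈ NB r B := by
    intro B hB X hX
    exact (mem_WW.1 (mem_lit.1 (hS B hB hX)).1).1
  -- for fixed `X`
  have key : ∀ X : Finset (Fin n),
      ∑ B ∈ (Mats n r).filter (fun B => X ∈ S B), ∑ J ∈ trv r B X, 2 ^ (n.choose r - J.card) ≤
      ∑ B' ∈ (Mats n r).filter (fun B' => X ∈ T B'),
        ∑ B ∈ (Mats n r).filter (fun B => X ∈ NB r B),
          ∑ J ∈ (trv r B X).filter (fun J => sur r B X J = B'), 2 ^ (n.choose r - J.card) := by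
    intro X
    rw [Finset.sum_comm]
    refine le_trans ?_ (Finset.sum_le_sum_of_subset_of_nonneg
      (s := (Mats n r).filter (fun B => X ∈ S B)) ?_ ?_)
    · refine Finset.sum_le_sum fun B hB => ?_
      rw [Finset.mem_filter] at hB
      refine le_of_eq (Finset.sum_fiberwise_of_maps_to (fun J hJ => ?_) _).symm
      rw [Finset.mem_filter]
      exact ⟨sur_mem (mem_Mats.1 hB.1) hr hrn (hNB B hB.1 X hB.2) hJ, hT B hB.1 X hB.2 J hJ⟩
    · intro B hB
      rw [Finset.mem_filter] at hB ⊢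
      exact ⟨hB.1, hNB B hB.1 X hB.2⟩
    · intro B _ _
      exact Nat.zero_le _
  have e1 : ∑ B ∈ Mats n r, ∑ X ∈ S B, ∑ J ∈ trv r B X, 2 ^ (n.choose r - J.card) =
      ∑ X : Finset (Fin n), ∑ B ∈ (Mats n r).filter (fun B => X ∈ S B),
        ∑ J ∈ trv r B X, 2 ^ (n.choose r - J.card) := by
    refine Finset.sum_comm' fun B X => ?_
    rw [Finset.mem_filter]
    exact ⟨fun h => ⟨h, Finset.mem_univ _⟩, fun h => h.1⟩
  have e2 : ∑ X : Finset (Fin n), ∑ B' ∈ (Mats n r).filter (fun B' => X ∈ T B'),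
        ∑ B ∈ (Mats n r).filter (fun B => X ∈ NB r B),
          ∑ J ∈ (trv r B X).filter (fun J => sur r B X J = B'), 2 ^ (n.choose r - J.card) =
      ∑ B' ∈ Mats n r, ∑ X ∈ T B',
        ∑ B ∈ (Mats n r).filter (fun B => X ∈ NB r B),
          ∑ J ∈ (trv r B X).filter (fun J => sur r B X J = B'), 2 ^ (n.choose r - J.card) := by
    symm
    refine Finset.sum_comm' fun B X => ?_
    rw [Finset.mem_filter]
    exact ⟨fun h => ⟨h, Finset.mem_univ _⟩, fun h => h.1⟩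
  rw [e1]
  refine (Finset.sum_le_sum fun X _ => key X).trans ?_
  rw [e2, Finset.mul_sum]
  refine Finset.sum_le_sum fun B' _ => ?_
  rw [mul_comm, ← smul_eq_mul]
  refine Finset.sum_le_card_nsmul _ _ _ fun X _ => ?_
  convert kraft n r B' X

theorem light_sum {n r : ℕ} (hn : 600 ≤ n) (h49 : 49 * n ≤ 100 * r) (h51 : 100 * r ≤ 51 * n)
    (l : ℕ) (S T : Finset (Finset (Fin n)) → Finset (Finset (Fin n)))
    (hS : ∀ B ∈ Mats n r, S B ⊆ lit r B) (hl : ∀ B ∈ Mats n r, ∀ X ∈ S B, l ≤ nl r B X)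
    (hT : ∀ B ∈ Mats n r, ∀ X ∈ S B, ∀ J ∈ trv r B X, X ∈ T (sur r B X J)) :
    n ^ l * ∑ B ∈ Mats n r, (S B).card ≤ 5 ^ l * ∑ B ∈ Mats n r, (T B).card := by
  have h1 := Lsum_two (by omega : 1 ≤ r) (by omega : r < n) S T hS hT
  have h2 : (n ^ l * ∑ B ∈ Mats n r, (S B).card) * 2 ^ (n.choose r) ≤
      5 ^ l * ∑ B ∈ Mats n r, ∑ X ∈ S B, ∑ J ∈ trv r B X, 2 ^ (n.choose r - J.card) := by
    rw [Finset.mul_sum, Finset.sum_mul, Finset.mul_sum]
    refine Finset.sum_le_sum fun B hB => ?_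
    rw [Finset.mul_sum]
    have h3 : n ^ l * (S B).card * 2 ^ (n.choose r) =
        (S B).card • (n ^ l * 2 ^ (n.choose r)) := by
      rw [smul_eq_mul]
      ring
    rw [h3]
    refine Finset.card_nsmul_le_sum _ _ _ fun X hX => ?_
    exact Lsum_one hn h49 h51 l (hS B hB hX) (hl B hB X hX)
  have h4 : 0 < 2 ^ (n.choose r) := pow_pos (by norm_num) _
  refine Nat.le_of_mul_le_mul_right (c := 2 ^ (n.choose r)) ?_ h4
  calc (n ^ l * ∑ B ∈ Mats n r, (S B).card) * 2 ^ (n.choose r)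
      ≤ 5 ^ l * ∑ B ∈ Mats n r, ∑ X ∈ S B, ∑ J ∈ trv r B X, 2 ^ (n.choose r - J.card) := h2
    _ ≤ 5 ^ l * (2 ^ (n.choose r) * ∑ B ∈ Mats n r, (T B).card) := Nat.mul_le_mul_left _ h1
    _ = (5 ^ l * ∑ B ∈ Mats n r, (T B).card) * 2 ^ (n.choose r) := by ring

end Pool.Agent.H41.VH
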