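import Pool.Agent.H41.VH.CandA
import Pool.Agent.H41.VH.CandB
import Pool.Agent.H41.VH.Cnt

/-! MODULE MulA (about 130 lines). The removed part which is not a set of isolated neighbours (H7): number of possibilities.

`T0 r B c` = the nonbases of `rest c`, and, if `ac` is a base, the nonisolated nonbases adjacent to `ac`; `RR r B c` = union of the components of the members of
`T0`. For a good cell `T0` has at most `70 + sqrt n` members (`rest c` at most 70: image of the 4-subsets of `Fin 8`; `(nbh cap WW).card ^ 2 <= n` gives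
`<= Nat.sqrt n`), all in `nbh r (c.at Qac) cup rest c`, nonbases, not in `wx` (for `nbh` see `gcell`: `Disjoint`), so each component is in `cand r Z` (`comp_mem_cand`). So `RR` is the union of
a set of at most `k = Nat.sqrt n + 70` members of the family `CC = (nbh r (c.at Qac) cup rest c).biUnion (cand r)`, which has at most
`(n^2 + 70) n^75 <= n^78` members (`nbh` has at most `n^2` members; all members of `nbh`, `rest` are `r`-sets). The number of subfamilies with at most `k` members of a family
with `m` members is at most `(m + 1)^k` (images of functions `Fin k -> Option`), and `(n^78 + 1)^k <= (n^80)^(Nat.sqrt n + 80)`. Define `RRs n r c` as the image of those subfamilies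
under `F -> F.biUnion id`. -/

open scoped BigOperators
open Filter

namespace Pool.Agent.H41.VH

open Pool.Agent.H28.Johnson Pool.Agent.H28.V8 Pool.Agent.H8.VM Pool.Agent.H8.VR
open Pool.Agent.H13.VM Pool.Agent.H97.VZ

variable {n : ℕ}

open Classical in
/-- the nonbases whose components are recorded -/
noncomputable def T0 (r : ℕ) (B : Finset (Finset (Fin n))) (c : Cell n) :
    Finset (Finset (Fin n)) :=
  (rest c ∩ NB r B) ∪ (if c.at Qac ∈ NB r B then ∅ else nbh r (c.at Qac) ∩ WW r B)

open Classical in
/-- the recorded part of the removed nonbases -/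
noncomputable def RR (r : ℕ) (B : Finset (Finset (Fin n))) (c : Cell n) :
    Finset (Finset (Fin n)) := (T0 r B c).biUnion fun Z => comp r (NB r B) Z

open Classical in
/-- all possibilities for `RR` -/
noncomputable def RRs (n r : ℕ) (c : Cell n) : Finset (Finset (Finset (Fin n))) :=
  ((((nbh r (c.at Qac) ∪ rest c).biUnion (cand r)).powerset).filter fun F =>
    F.card ≤ Nat.sqrt n + 70).image fun F => F.biUnion id

private lemma MulA_nbh_card {r : ℕ} {S : Finset (Fin n)} (hS : S.card = r) :
    (nbh r S).card ≤ n ^ 2 := by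
  classical
  have h1 : nbh r S ⊆ ((Finset.univ : Finset (Fin n)) ×ˢ (Finset.univ : Finset (Fin n))).image
      (fun p => ex S p.1 p.2) := by
    intro v hv
    rw [mem_nbh] at hv
    obtain ⟨y, hy, z, hz, -, -, h⟩ := exists_ex hS (mem_Base.1 hv.1) hv.2
    rw [Finset.mem_image]
    exact ⟨(y, z), Finset.mem_product.2 ⟨Finset.mem_univ _, Finset.mem_univ _⟩, h.symm⟩
  refine (Finset.card_le_card h1).trans (Finset.card_image_le.trans ?_)
  rw [Finset.card_product, Finset.card_univ, Fintype.card_fin, pow_two]

private lemma MulA_rest_card (c : Cell n) : (rest c).card ≤ 70 := by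
  classical
  unfold rest
  refine Finset.card_image_le.trans ((Finset.card_filter_le _ _).trans ?_)
  rw [Finset.card_powersetCard, Finset.card_univ, Fintype.card_fin]
  decide

private lemma MulA_sub {α : Type*} [DecidableEq α] (C : Finset α) (k : ℕ) :
    (C.powerset.filter fun F => F.card ≤ k).card ≤ (C.card + 1) ^ k := by
  induction k with
  | zero =>
    rw [pow_zero]
    refine (Finset.card_le_card (t := {∅}) ?_).trans (by simp)
    intro F hF
    rw [Finset.mem_filter, Nat.le_zero, Finset.card_eq_zero] at hF
    rw [Finset.mem_singleton]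
    exact hF.2
  | succ k ih =>
    have h1 : (C.powerset.filter fun F => F.card ≤ k + 1) ⊆
        ((C.powerset.filter fun F => F.card ≤ k) ×ˢ (Finset.insertNone C)).image
          (fun p => p.2.elim p.1 (fun x => insert x p.1)) := by
      intro F hF
      rw [Finset.mem_filter, Finset.mem_powerset] at hF
      rw [Finset.mem_image]
      rcases Finset.eq_empty_or_nonempty F with rfl | ⟨x, hx⟩
      · refine ⟨(∅, none), ?_, rfl⟩
        rw [Finset.mem_product, Finset.mem_filter, Finset.mem_powerset]
        exact ⟨⟨Finset.empty_subset _, Nat.zero_le _⟩, Finset.none_mem_insertNone⟩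
      · refine ⟨(F.erase x, some x), ?_, Finset.insert_erase hx⟩
        rw [Finset.mem_product, Finset.mem_filter, Finset.mem_powerset]
        refine ⟨⟨(Finset.erase_subset _ _).trans hF.1, ?_⟩, Finset.some_mem_insertNone.2 (hF.1 hx)⟩
        rw [Finset.card_erase_of_mem hx]
        omega
    refine (Finset.card_le_card h1).trans (Finset.card_image_le.trans ?_)
    rw [Finset.card_product, Finset.card_insertNone, pow_succ]
    exact Nat.mul_le_mul_right _ ih

theorem RR_mem {r : ℕ} {B : Finset (Finset (Fin n))} (h : IsMat n r B) {c : Cell n}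
    (hc : gcell r B c) : RR r B c ∈ RRs n r c := by
  classical
  obtain ⟨hc1, hc2, hc3, hc4⟩ := hc
  unfold RR RRs
  rw [Finset.mem_image]
  refine ⟨(T0 r B c).image fun Z => comp r (NB r B) Z, ?_, ?_⟩
  · rw [Finset.mem_filter, Finset.mem_powerset]
    constructor
    · intro G hG
      rw [Finset.mem_image] at hG
      obtain ⟨Z, hZ, rfl⟩ := hG
      rw [Finset.mem_biUnion]
      unfold T0 at hZ
      rw [Finset.mem_union] at hZ
      rcases hZ with hZ | hZ
      · rw [Finset.mem_inter] at hZ
        obtain ⟨Q, hQ, -, hQZ⟩ := mem_rest.1 hZ.1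
        exact ⟨Z, Finset.mem_union_right _ hZ.1, comp_mem_cand h hZ.2 (hQZ ▸ hc3 Q hQ)⟩
      · by_cases hac : c.at Qac ∈ NB r B
        · rw [if_pos hac] at hZ
          exact absurd hZ (Finset.notMem_empty _)
        · rw [if_neg hac, Finset.mem_inter] at hZ
          have hd := (hc4.resolve_left hac).1
          exact ⟨Z, Finset.mem_union_left _ hZ.1, comp_mem_cand h (mem_WW.1 hZ.2).1
            (Finset.disjoint_left.1 hd hZ.1)⟩
    · refine Finset.card_image_le.trans ?_
      unfold T0
      refine (Finset.card_union_le _ _).trans ?_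
      rw [add_comm]
      refine Nat.add_le_add ?_ ((Finset.card_le_card Finset.inter_subset_left).trans
        (MulA_rest_card c))
      by_cases hac : c.at Qac ∈ NB r B
      · rw [if_pos hac, Finset.card_empty]
        exact Nat.zero_le _
      · rw [if_neg hac]
        have := (hc4.resolve_left hac).2.1
        rw [pow_two] at this
        exact Nat.le_sqrt.2 this
  · rw [Finset.image_biUnion]
    rfl

theorem RRs_card {r : ℕ} (hn : 100 ≤ n) (hr : 1 ≤ r) (hrn : r < n) {c : Cell n}
    (hc : c ∈ cells n r) : (RRs n r c).card ≤ (n ^ 80) ^ (Nat.sqrt n + 80) := by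
  classical
  have hac : (c.at Qac).card = r := mem_Base.1 (at_mem_Base hc (by decide))
  have hn0 : 0 < n := by omega
  have h1 : ((nbh r (c.at Qac) ∪ rest c).biUnion (cand r)).card ≤ n ^ 78 := by
    refine (Finset.card_biUnion_le_card_mul _ _ (n ^ 75) ?_).trans ?_
    · intro Z hZ
      refine cand_card (by omega) hr hrn ?_
      rcases Finset.mem_union.1 hZ with hZ | hZ
      · exact mem_Base.1 (mem_nbh.1 hZ).1
      · obtain ⟨Q, hQ, -, hQZ⟩ := mem_rest.1 hZ
        rw [← hQZ]
        exact mem_Base.1 (at_mem_Base hc hQ)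
    · have e1 : (nbh r (c.at Qac) ∪ rest c).card ≤ n ^ 2 + 70 :=
        (Finset.card_union_le _ _).trans
          (Nat.add_le_add (MulA_nbh_card hac) (MulA_rest_card c))
      have e2 : n ^ 2 + 70 ≤ n ^ 3 := by nlinarith
      calc _ ≤ n ^ 3 * n ^ 75 := Nat.mul_le_mul_right _ (e1.trans e2)
        _ = n ^ 78 := by rw [← pow_add]
  unfold RRs
  refine Finset.card_image_le.trans ((MulA_sub _ _).trans ?_)
  have h2 : ((nbh r (c.at Qac) ∪ rest c).biUnion (cand r)).card + 1 ≤ n ^ 80 := by
    have e3 : n ^ 78 + 1 ≤ n ^ 80 := by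
      have : 1 ≤ n ^ 78 := Nat.one_le_pow _ _ hn0
      have e4 : n ^ 80 = n ^ 78 * n ^ 2 := by rw [← pow_add]
      have e5 : 2 ≤ n ^ 2 := by nlinarith
      calc n ^ 78 + 1 ≤ n ^ 78 * 2 := by omega
        _ ≤ n ^ 78 * n ^ 2 := Nat.mul_le_mul_left _ e5
        _ = n ^ 80 := e4.symm
    omega
  calc _ ≤ (n ^ 80) ^ (Nat.sqrt n + 70) := Nat.pow_le_pow_left h2 _
    _ ≤ _ := Nat.pow_le_pow_right (Nat.pow_pos hn0) (by omega)

end Pool.Agent.H41.VH
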