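import Pool.Agent.H41.VH.Lin
import Pool.Agent.H8.VM.D4_Fibers
import Pool.Agent.H13.VM.A4
import Pool.Agent.H13.VM.A5

/-! MODULE Sg (about 200 lines). The surgery at a cell (H2, H7, first half).

`S = c.at Qac`, `T = nbh r S cup rest c`, `D = remd r B T` (the nonbases whose component meets `T`).
`remd_closed`: `Y` in `D`, `Z` in `NB r B` adjacent to `Y`: `comp Z = comp Y` (`comp_closed`, `comp_eq_of_mem`, `self_mem_comp`).
`NB_surg`: `surg r B c = (B cup D).erase S`; an `r`-set is outside iff it is `S` or not in `B` and not in `D`.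
`surg_mem`: `B cup D` is a matroid (`add_components`). `S` is an `r`-set (`at_mem_Base`): in `B`, or in `NB r B`, then in `D` since `S` in `rest c` (`Qac` is none of the
four). A neighbour `Y` of `S` (an `r`-set) is in `nbh r S`, so it is in `B` or in `D`. So `del_one` applies.
`four_kept`: for `Q` one of `Qab, Qad, Qbd, Qbc` and `X = c.at Q` in `iso r B`: `X` is in `NB r (surg r B c)`: `comp r (NB r B) X = {X}` (`comp_iso`), `X` is not in `nbh r S` because
`Q cap Qac` has at most two elements (`loc` facts in `H28/V8`: `c.at Q cap c.at Q' = c.at (Q cap Q')`, `loc_card`), and not in `rest c` (`loc_inj`: `c.at` is injective), so `X` not in `D`; and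
`X <> S`.
`surg_pat`: `Pat (NB r (surg r B c)) c`: for `Q` with 4 elements: the five sets of `patt` are present (`S`, and `four_kept`); any other `c.at Q` is in `rest c`, so if it is in
`NB r B` it is in `D`; it is not `S` (`loc_inj`). -/

open scoped BigOperators
open Filter

namespace Pool.Agent.H41.VH

open Pool.Agent.H28.Johnson Pool.Agent.H28.V8 Pool.Agent.H8.VM Pool.Agent.H8.VR
open Pool.Agent.H13.VM Pool.Agent.H97.VZ

variable {n r : ℕ} {B T : Finset (Finset (Fin n))} {c : Cell n} {X Y : Finset (Fin n)}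

theorem remd_closed : Closed r (NB r B) (remd r B T) := by
  refine ⟨fun Y hY => (mem_remd.1 hY).1, ?_⟩
  intro X hX Y hY hXY
  obtain ⟨hX1, Z, hZ, hZX⟩ := mem_remd.1 hX
  have h1 : Y ∈ comp r (NB r B) X := (comp_closed (NB r B) X).2 X (self_mem_comp hX1) Y hY hXY
  refine mem_remd.2 ⟨hY, Z, hZ, ?_⟩
  rw [comp_eq_of_mem h1]
  exact hZX

/-- a nonbase in `T` is in `remd r B T` -/
private theorem Sg_self (hX : X ∈ NB r B) (hT : X ∈ T) : X ∈ remd r B T :=
  mem_remd.2 ⟨hX, X, hT, self_mem_comp hX⟩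

private theorem Sg_card (hc : c ∈ cells n r) : (c.at Qac).card = r :=
  mem_Base.1 (at_mem_Base hc (by decide))

theorem NB_surg (hc : c ∈ cells n r) :
    NB r (surg r B c) =
      insert (c.at Qac) (NB r B \ remd r B (nbh r (c.at Qac) ∪ rest c)) := by
  classical
  ext X
  rw [mem_NB, surg, Finset.mem_erase, Finset.mem_union, Finset.mem_insert, Finset.mem_sdiff,
    mem_NB]
  constructor
  · rintro ⟨h1, h2⟩
    by_cases h3 : X = c.at Qac
    · exact Or.inl h3
    · right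
      refine ⟨⟨h1, fun h => h2 ⟨h3, Or.inl h⟩⟩, fun h => h2 ⟨h3, Or.inr h⟩⟩
  · rintro (h1 | ⟨⟨h1, h2⟩, h3⟩)
    · rw [h1]
      exact ⟨Sg_card hc, fun h => h.1 rfl⟩
    · exact ⟨h1, fun h => h.2.elim h2 h3⟩

theorem surg_mem (h : IsMat n r B) (hr : 1 ≤ r) (hrn : r < n) (hc : c ∈ cells n r) :
    surg r B c ∈ Mats n r := by
  classical
  have hD := add_components h
    (remd_closed (r := r) (B := B) (T := nbh r (c.at Qac) ∪ rest c))
  have hmem : ∀ X : Finset (Fin n), X.card = r → X ∈ nbh r (c.at Qac) ∪ rest c →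
      X ∈ B ∪ remd r B (nbh r (c.at Qac) ∪ rest c) := by
    intro X hX hT
    rw [Finset.mem_union]
    by_cases hXB : X ∈ B
    · exact Or.inl hXB
    · exact Or.inr (Sg_self (mem_NB.2 ⟨hX, hXB⟩) hT)
  rw [mem_Mats, surg]
  refine del_one hD hr hrn (hmem _ (Sg_card hc) ?_) ?_
  · refine Finset.mem_union_right _ (mem_rest.2 ⟨Qac, by decide, by decide, rfl⟩)
  · intro X hX hadj
    exact hmem X (mem_Base.1 hX) (Finset.mem_union_left _ (mem_nbh.2 ⟨hX, hadj⟩))

private theorem Sg_inter (hc : c ∈ cells n r) (Q Q' : Finset (Fin 8)) :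
    (c.at Q ∩ c.at Q').card = c.1.card + (Q ∩ Q').card := by
  have h1 : c.at Q ∩ c.at Q' = c.at (Q ∩ Q') := by
    unfold Cell.at loc
    rw [Finset.map_inter, Finset.union_inter_distrib_left]
  rw [h1, Cell.at, loc_card (mem_cells.1 hc).2]

private theorem Sg_kept (hc : c ∈ cells n r) {Q : Finset (Fin 8)}
    (hQ : Q = Qab ∨ Q = Qad ∨ Q = Qbd ∨ Q = Qbc) (hiso : c.at Q ∈ iso r B) :
    c.at Q ∉ remd r B (nbh r (c.at Qac) ∪ rest c) := by
  classical
  intro h
  obtain ⟨-, Z, hZ, hZX⟩ := mem_remd.1 h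
  rw [comp_iso hiso, Finset.mem_singleton] at hZX
  rw [hZX] at hZ
  rcases Finset.mem_union.1 hZ with h1 | h1
  · have h2 := (mem_nbh.1 h1).2.2
    rw [Sg_inter hc] at h2
    have h3 := (mem_cells.1 hc).1
    have h4 : (Qac ∩ Q).card ≤ 2 := by
      rcases hQ with rfl | rfl | rfl | rfl <;> decide
    omega
  · obtain ⟨Q', -, ⟨h2, h3, h4, h5⟩, h6⟩ := mem_rest.1 h1
    have h7 : Q' = Q := loc_inj (mem_cells.1 hc).2 h6
    rcases hQ with rfl | rfl | rfl | rfl
    · exact h2 h7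
    · exact h3 h7
    · exact h4 h7
    · exact h5 h7

theorem surg_pat (hc : c ∈ cells n r) (h4 : c.at Qab ∈ iso r B ∧ c.at Qad ∈ iso r B ∧
    c.at Qbd ∈ iso r B ∧ c.at Qbc ∈ iso r B) : Pat (NB r (surg r B c)) c := by
  classical
  intro Q hQ4
  rw [NB_surg hc, Finset.mem_insert, Finset.mem_sdiff]
  have hiso : ∀ X ∈ iso r B, X ∈ NB r B := fun X hX => by
    rw [iso, Finset.mem_filter] at hX
    exact hX.1
  have hkeep : ∀ Q' : Finset (Fin 8), (Q' = Qab ∨ Q' = Qad ∨ Q' = Qbd ∨ Q' = Qbc) →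
      c.at Q' ∈ iso r B → c.at Q' = c.at Qac ∨
        (c.at Q' ∈ NB r B ∧ c.at Q' ∉ remd r B (nbh r (c.at Qac) ∪ rest c)) :=
    fun Q' hQ' h => Or.inr ⟨hiso _ h, Sg_kept hc hQ' h⟩
  have hp : Q ∈ patt ↔ Q = Qab ∨ Q = Qac ∨ Q = Qad ∨ Q = Qbc ∨ Q = Qbd := by
    unfold patt Qab Qac Qad Qbc Qbd
    simp only [Finset.mem_insert, Finset.mem_singleton]
  rw [hp]
  constructor
  · rintro (h1 | ⟨h1, h2⟩)
    · exact Or.inr (Or.inl (loc_inj (mem_cells.1 hc).2 h1))
    · by_contra hno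
      rw [not_or, not_or, not_or, not_or] at hno
      obtain ⟨n1, -, n3, n4, n5⟩ := hno
      exact h2 (Sg_self h1 (Finset.mem_union_right _
        (mem_rest.2 ⟨Q, hQ4, ⟨n1, n3, n5, n4⟩, rfl⟩)))
  · obtain ⟨k1, k2, k3, k4⟩ := h4
    rintro (h | h | h | h | h)
    · rw [h]
      exact hkeep _ (Or.inl rfl) k1
    · rw [h]
      exact Or.inl rfl
    · rw [h]
      exact hkeep _ (Or.inr (Or.inl rfl)) k2
    · rw [h]
      exact hkeep _ (Or.inr (Or.inr (Or.inr rfl))) k4
    · rw [h]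
      exact hkeep _ (Or.inr (Or.inr (Or.inl rfl))) k3

end Pool.Agent.H41.VH
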