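import Pool.Agent.H41.VH.MulA
import Pool.Agent.H41.VH.Sg
import Pool.Agent.H41.VH.Fib

/-! MODULE MulB (about 180 lines). Preimages of the surgery with given recorded part (H7).

Fix `c`, `B2` (the result) and `R`; `S = c.at Qac`; `K0 = (NB r B2).erase S cup R`. Let `B` be a matroid with `gcell r B c`, `surg r B c = B2`, `RR r B c = R`, `D = remd ..`.
`split`: `NB r B = K0 cup (iso r B cap nbh r S)`: `(NB r B2).erase S = NB r B \ D` (`NB_surg`; `S` is not in `NB r B \ D`, because `S` in `rest c`, so `S` in `NB r B` implies `S` in `D`);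
`D = R cup (iso r B cap nbh r S)`: if `Y` in `D` some `Z` in `nbh r S cup rest c` is in `comp Y`; `Z` in `rest c`: `Y` in `comp Z` inside `R`. `Z` in `nbh r S`: if `S` in `NB r B`, `comp Z = comp S` is inside
`R` (`S` in `rest c`); if `S` is a base and `Z` in `WW r B`: `Z` in `T0`; if `Z` in `iso r B`: `comp Z = {Z}` (`comp_iso`), `Y = Z`. Conversely `R` inside `D`, and `Z` in `iso r B cap nbh r S` is in `D`.
CASE `S` in `R`: then `S` is a nonbase of `B` (`R` inside `NB r B`), so no neighbour of `S` is isolated, `NB r B = K0`: at most one `B`.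
CASE `S` not in `R`: `S` is a base of every such `B` (otherwise `S` in `T0`, `S` in `R`). `J = iso r B cap nbh r S`. `WW r B` = the members of `K0` with a neighbour in `K0` (members of `J` have no
neighbour in `NB r B`, so two adjacent nonbases are both in `K0`); `outside r (iso r B) S` = the members `w` of `K0` without neighbour in `K0`, `w <> S`, not adjacent to `S`. So `rg r B = reg r (WW r B)` and
`outside r (iso r B) S` are the same for all `B` of the fibre, `J` is in `fillR r (rg r B) (outside r (iso r B) S) S` (`iso_mem_stabs`), and `B` is determined by `J` (`split`). The number of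
fillings is `cost r B S <= 2 ^ (4 n / 5)` (`gcell`, `S` not in `NB r B`).
So at most `2 ^ (4 n / 5)` matroids `B` in every case. -/

open scoped BigOperators
open Filter

namespace Pool.Agent.H41.VH

open Pool.Agent.H28.Johnson Pool.Agent.H28.V8 Pool.Agent.H8.VM Pool.Agent.H8.VR
open Pool.Agent.H13.VM Pool.Agent.H97.VZ

section
variable {n r : ℕ} {B : Finset (Finset (Fin n))} {c : Cell n}

private lemma S_mem_rest (c : Cell n) : c.at Qac ∈ rest c := by
  rw [mem_rest]
  exact ⟨Qac, by decide, by decide, rfl⟩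

private lemma mem_T0 {Z : Finset (Fin n)} : Z ∈ T0 r B c ↔
    (Z ∈ rest c ∧ Z ∈ NB r B) ∨ (c.at Qac ∉ NB r B ∧ Z ∈ nbh r (c.at Qac) ∧ Z ∈ WW r B) := by
  classical
  rw [T0, Finset.mem_union, Finset.mem_inter]
  by_cases h : c.at Qac ∈ NB r B
  · rw [if_pos h]
    simp [h]
  · rw [if_neg h, Finset.mem_inter]
    simp [h]

private lemma mem_RR {Y : Finset (Fin n)} : Y ∈ RR r B c ↔
    ∃ Z ∈ T0 r B c, Y ∈ comp r (NB r B) Z := by
  classical
  rw [RR, Finset.mem_biUnion]

private lemma RR_sub_NB : RR r B c ⊆ NB r B := by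
  intro Y hY
  obtain ⟨Z, _, hZ⟩ := mem_RR.mp hY
  exact (mem_comp.mp hZ).1

private lemma comp_symm {X Y : Finset (Fin n)} (hX : X ∈ NB r B)
    (h : Y ∈ comp r (NB r B) X) : X ∈ comp r (NB r B) Y := by
  rw [comp_eq_of_mem h]
  exact self_mem_comp hX

private lemma D_eq :
    remd r B (nbh r (c.at Qac) ∪ rest c) = RR r B c ∪ (iso r B ∩ nbh r (c.at Qac)) := by
  ext Y
  rw [mem_remd, Finset.mem_union, Finset.mem_inter, mem_RR]
  constructor
  · rintro ⟨hY, X, hX, hXY⟩
    have hXN : X ∈ NB r B := (mem_comp.mp hXY).1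
    have hYX : Y ∈ comp r (NB r B) X := comp_symm hY hXY
    rw [Finset.mem_union] at hX
    rcases hX with hX | hX
    · by_cases hS : c.at Qac ∈ NB r B
      · left
        refine ⟨c.at Qac, mem_T0.mpr (Or.inl ⟨S_mem_rest c, hS⟩), ?_⟩
        have hXS : X ∈ comp r (NB r B) (c.at Qac) :=
          (comp_closed (NB r B) (c.at Qac)).2 _ (self_mem_comp hS) X hXN (mem_nbh.mp hX).2
        rwa [← comp_eq_of_mem hXS]
      · by_cases hXi : X ∈ iso r B
        · right
          rw [comp_iso hXi, Finset.mem_singleton] at hYX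
          rw [hYX]
          exact ⟨hXi, hX⟩
        · left
          exact ⟨X, mem_T0.mpr (Or.inr ⟨hS, hX, mem_WW.mpr ⟨hXN, hXi⟩⟩), hYX⟩
    · left
      exact ⟨X, mem_T0.mpr (Or.inl ⟨hX, hXN⟩), hYX⟩
  · rintro (⟨Z, hZ, hYZ⟩ | ⟨hYi, hYn⟩)
    · have hYN : Y ∈ NB r B := (mem_comp.mp hYZ).1
      rw [mem_T0] at hZ
      rcases hZ with ⟨h1, h2⟩ | ⟨_, h1, h2⟩
      · exact ⟨hYN, Z, Finset.mem_union_right _ h1, comp_symm h2 hYZ⟩
      · exact ⟨hYN, Z, Finset.mem_union_left _ h1, comp_symm (mem_WW.mp h2).1 hYZ⟩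
    · have hYN : Y ∈ NB r B := (mem_iso.mp hYi).1
      exact ⟨hYN, Y, Finset.mem_union_left _ hYn, self_mem_comp hYN⟩

private lemma erase_eq (hc : c ∈ cells n r) :
    (NB r (surg r B c)).erase (c.at Qac) =
      NB r B \ remd r B (nbh r (c.at Qac) ∪ rest c) := by
  rw [NB_surg hc, Finset.erase_insert]
  intro h
  rw [Finset.mem_sdiff] at h
  exact h.2 (mem_remd.mpr ⟨h.1, c.at Qac, Finset.mem_union_right _ (S_mem_rest c),
    self_mem_comp h.1⟩)

private lemma split (hc : c ∈ cells n r) :
    NB r B = ((NB r (surg r B c)).erase (c.at Qac) ∪ RR r B c) ∪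
      (iso r B ∩ nbh r (c.at Qac)) := by
  rw [erase_eq hc, Finset.union_assoc, ← D_eq]
  ext Y
  rw [Finset.mem_union, Finset.mem_sdiff]
  constructor
  · intro hY
    by_cases h : Y ∈ remd r B (nbh r (c.at Qac) ∪ rest c)
    · exact Or.inr h
    · exact Or.inl ⟨hY, h⟩
  · rintro (h | h)
    · exact h.1
    · exact (mem_remd.mp h).1

private lemma base_eq (h : IsMat n r B) : B = Base n r \ NB r B := by
  ext X
  rw [Finset.mem_sdiff, mem_NB, mem_Base]
  constructor
  · intro hX
    exact ⟨h.card_eq hX, fun h2 => h2.2 hX⟩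
  · rintro ⟨h1, h2⟩
    by_contra hX
    exact h2 ⟨h1, hX⟩

end

open Classical in
theorem mul_fixed {n r : ℕ} {c : Cell n} (hc : c ∈ cells n r)
    (B2 R : Finset (Finset (Fin n))) :
    ((Mats n r).filter fun B => gcell r B c ∧ surg r B c = B2 ∧ RR r B c = R).card ≤
      2 ^ (4 * n / 5) := by
  set F := (Mats n r).filter fun B => gcell r B c ∧ surg r B c = B2 ∧ RR r B c = R with hF
  have hmem : ∀ B ∈ F, IsMat n r B ∧ gcell r B c ∧ surg r B c = B2 ∧ RR r B c = R := by
    intro B hB
    rw [hF, Finset.mem_filter, mem_Mats] at hB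
    exact hB
  set S := c.at Qac with hS
  set K0 := (NB r B2).erase S ∪ R with hK0
  have hsplit : ∀ B ∈ F, NB r B = K0 ∪ (iso r B ∩ nbh r S) := by
    intro B hB
    obtain ⟨_, _, h2, h3⟩ := hmem B hB
    have h := split (B := B) hc
    rw [h2, h3] at h
    exact h
  have hinj : ∀ B ∈ F, ∀ B' ∈ F, iso r B ∩ nbh r S = iso r B' ∩ nbh r S → B = B' := by
    intro B hB B' hB' h
    rw [base_eq (hmem B hB).1, base_eq (hmem B' hB').1, hsplit B hB, hsplit B' hB', h]
  have hRN : ∀ B ∈ F, R ⊆ NB r B := by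
    intro B hB
    obtain ⟨_, _, _, h3⟩ := hmem B hB
    rw [← h3]
    exact RR_sub_NB
  rcases F.eq_empty_or_nonempty with hE | ⟨B0, hB0⟩
  · rw [hE]
    simp
  by_cases hSR : S ∈ R
  · -- at most one matroid
    have hone : F.card ≤ 1 := by
      rw [Finset.card_le_one]
      intro B hB B' hB'
      have hem : ∀ B ∈ F, iso r B ∩ nbh r S = ∅ := by
        intro B hB
        rw [Finset.eq_empty_iff_forall_notMem]
        intro Y hY
        rw [Finset.mem_inter, mem_iso, mem_nbh] at hY
        exact hY.1.2 S (hRN B hB hSR) (adj_symm hY.2.2)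
      exact hinj B hB B' hB' (by rw [hem B hB, hem B' hB'])
    exact hone.trans Nat.one_le_two_pow
  · -- `S` is a base
    have hSN : ∀ B ∈ F, S ∉ NB r B := by
      intro B hB h
      apply hSR
      obtain ⟨_, _, _, h3⟩ := hmem B hB
      rw [← h3, mem_RR]
      exact ⟨S, mem_T0.mpr (Or.inl ⟨S_mem_rest c, h⟩), self_mem_comp h⟩
    have hKN : ∀ B ∈ F, K0 ⊆ NB r B := by
      intro B hB
      rw [hsplit B hB]
      exact Finset.subset_union_left
    have hWW : ∀ B ∈ F, ∀ X, X ∈ WW r B ↔ X ∈ K0 ∧ ∃ Y ∈ K0, adj r X Y := by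
      intro B hB X
      rw [mem_WW]
      constructor
      · rintro ⟨h1, h2⟩
        rw [mem_iso] at h2
        push Not at h2
        obtain ⟨Y, hY, hXY⟩ := h2 h1
        have hXK : X ∈ K0 := by
          have h3 := h1
          rw [hsplit B hB, Finset.mem_union, Finset.mem_inter] at h3
          rcases h3 with h3 | h3
          · exact h3
          · exact absurd hXY ((mem_iso.mp h3.1).2 Y hY)
        have hYK : Y ∈ K0 := by
          have h3 := hY
          rw [hsplit B hB, Finset.mem_union, Finset.mem_inter] at h3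
          rcases h3 with h3 | h3
          · exact h3
          · exact absurd (adj_symm hXY) ((mem_iso.mp h3.1).2 X h1)
        exact ⟨hXK, Y, hYK, hXY⟩
      · rintro ⟨h1, Y, hY, hXY⟩
        exact ⟨hKN B hB h1, fun h => (mem_iso.mp h).2 Y (hKN B hB hY) hXY⟩
    have hWeq : ∀ B ∈ F, WW r B = WW r B0 := by
      intro B hB
      ext X
      rw [hWW B hB, hWW B0 hB0]
    have hout : ∀ B ∈ F, ∀ w, w ∈ outside r (iso r B) S ↔
        (w ∈ K0 ∧ ∀ Y ∈ K0, ¬ adj r w Y) ∧ w ≠ S ∧ ¬ adj r S w := by
      intro B hB w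
      rw [mem_outside]
      constructor
      · rintro ⟨h1, h2, h3⟩
        have h1' := mem_iso.mp h1
        refine ⟨⟨?_, fun Y hY => h1'.2 Y (hKN B hB hY)⟩, h2, h3⟩
        have h4 := h1'.1
        rw [hsplit B hB, Finset.mem_union, Finset.mem_inter] at h4
        rcases h4 with h4 | h4
        · exact h4
        · exact absurd (mem_nbh.mp h4.2).2 h3
      · rintro ⟨⟨h1, h2⟩, h3, h4⟩
        refine ⟨mem_iso.mpr ⟨hKN B hB h1, ?_⟩, h3, h4⟩
        intro Y hY hwY
        rw [hsplit B hB, Finset.mem_union, Finset.mem_inter] at hY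
        rcases hY with hY | hY
        · exact h2 Y hY hwY
        · exact (mem_iso.mp hY.1).2 w (hKN B hB h1) (adj_symm hwY)
    have houteq : ∀ B ∈ F, outside r (iso r B) S = outside r (iso r B0) S := by
      intro B hB
      ext w
      rw [hout B hB, hout B0 hB0]
    have hfill : ∀ B ∈ F, iso r B ∩ nbh r S ∈
        fillR r (rg r B0) (outside r (iso r B0) S) S := by
      intro B hB
      have hrg : rg r B = rg r B0 := by rw [rg, rg, hWeq B hB]
      have hst := iso_mem_stabs (n := n) (r := r) (B := B)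
      rw [mem_fillR, ← hrg, ← houteq B hB]
      refine ⟨?_, ?_⟩
      · intro Y hY
        rw [Finset.mem_inter] at hY ⊢
        exact ⟨hY.2, (mem_stabs.mp hst).1 hY.1⟩
      · refine stabs_subset hst ?_
        intro w hw
        rw [Finset.mem_union, mem_outside, Finset.mem_inter] at hw
        rcases hw with hw | hw
        · exact hw.1
        · exact hw.1
    have hcost : cost r B0 S ≤ 2 ^ (4 * n / 5) := by
      obtain ⟨_, hg, _, _⟩ := hmem B0 hB0
      rcases hg.2.2.2 with h | h
      · exact absurd h (hSN B0 hB0)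
      · exact h.2.2
    refine le_trans ?_ hcost
    rw [cost, LamR]
    exact Finset.card_le_card_of_injOn (fun B => iso r B ∩ nbh r S)
      (fun B hB => hfill B hB) (fun B hB B' hB' h => hinj B hB B' hB' h)

end Pool.Agent.H41.VH
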