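import Pool.Agent.H41.VH.CandA
import Pool.Agent.H41.VH.CandB
import Pool.Agent.H41.VH.Sg

/-! MODULE Nea (about 130 lines). The first pattern cell of the result is near `ac` (H7).

`nbh_not_wx`: `Z` in `nbh r S` (`S = c.at Qac`), `Z` in `NB r B`. If `S` in `NB r B`: `Z` in `comp S`, and `Z` in `wx` would give `S` in `wx` (`wx_closed`), but
`gcell` says `c.at Q` not in `wx` for all `Q` with 4 elements. Otherwise `Disjoint (nbh r S) (wx r B)` from `gcell`.
`remd_near`: `X` in `remd`: some `Z` in `nbh r S cup rest c` with `Z` in `comp X`; `Z` is a nonbase, not in `wx` (`nbh_not_wx`, `gcell`), `X` in `comp Z`, which is in `cand r Z`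
(`comp_mem_cand`), so `(X \ Z).card <= 24` (`cand_near`); `(Z \ S).card <= 4` (`Z` adjacent to `S`: 1; `Z = c.at Q`: `c.at Q \ c.at Qac = c.at (Q \ Qac) \ c.1`, at most 4); `X \ S` is inside
`(X \ Z) cup (Z \ S)`.
`first_near`: `c0` is not a pattern cell of `NB r B` (`HasPat` fails), but of `NB r (surg r B c)`; so for some `Q` with 4 elements `X = c0.at Q` is in exactly one of the two. By
`NB_surg` either `X = S` (take `S \ X` empty) or `X` in `remd`: `(X \ S).card <= 28` and `(S \ X).card = (X \ S).card` (both have `r` elements). -/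

open scoped BigOperators
open Filter

namespace Pool.Agent.H41.VH

open Pool.Agent.H28.Johnson Pool.Agent.H28.V8 Pool.Agent.H8.VM Pool.Agent.H8.VR
open Pool.Agent.H13.VM Pool.Agent.H97.VZ

variable {n r : ℕ} {B : Finset (Finset (Fin n))} {c c0 : Cell n} {X Z : Finset (Fin n)}

theorem nbh_not_wx (hc : gcell r B c) (hZ : Z ∈ nbh r (c.at Qac)) (hZ' : Z ∈ NB r B) :
    Z ∉ wx r B := by
  rcases hc.2.2.2 with h1 | ⟨h1, -⟩
  · intro hw
    have h2 : c.at Qac ∈ comp r (NB r B) Z :=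
      (comp_closed (NB r B) Z).2 Z (self_mem_comp hZ') _ h1 (adj_symm (mem_nbh.1 hZ).2)
    exact hc.2.2.1 Qac (by decide) (wx_closed hw h2)
  · exact Finset.disjoint_left.1 h1 hZ

private theorem Nea_at (c : Cell n) {Q Q' : Finset (Fin 8)} (hQ : Q.card = 4) :
    (c.at Q \ c.at Q').card ≤ 4 := by
  have h1 : c.at Q \ c.at Q' ⊆ Q.map c.2 := by
    intro x hx
    rw [Finset.mem_sdiff] at hx
    obtain ⟨h2, h3⟩ := hx
    unfold Cell.at loc at h2 h3
    rw [Finset.mem_union] at h2 h3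
    rcases h2 with h2 | h2
    · exact absurd (Or.inl h2) h3
    · exact h2
  refine le_trans (Finset.card_le_card h1) ?_
  rw [Finset.card_map, hQ]

theorem remd_near (h : IsMat n r B) (hr : 1 ≤ r) (hrn : r < n) (hc : gcell r B c)
    (hX : X ∈ remd r B (nbh r (c.at Qac) ∪ rest c)) :
    X.card = r ∧ (X \ c.at Qac).card ≤ 28 := by
  obtain ⟨hX1, Z, hZ, hZX⟩ := mem_remd.1 hX
  have hZN : Z ∈ NB r B := (mem_comp.1 hZX).1
  have hZr : Z.card = r := (mem_NB.1 hZN).1
  have hXZ : X ∈ comp r (NB r B) Z := by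
    rw [comp_eq_of_mem hZX]
    exact self_mem_comp hX1
  have hkey : Z ∉ wx r B ∧ (Z \ c.at Qac).card ≤ 4 := by
    rcases Finset.mem_union.1 hZ with h1 | h1
    · refine ⟨nbh_not_wx hc h1 hZN, ?_⟩
      have h2 := (mem_nbh.1 h1).2.2
      have h3 := Finset.card_sdiff_add_card_inter Z (c.at Qac)
      rw [Finset.inter_comm] at h3
      omega
    · obtain ⟨Q, hQ, -, hQZ⟩ := mem_rest.1 h1
      rw [← hQZ]
      exact ⟨hc.2.2.1 Q hQ, Nea_at c hQ⟩
  obtain ⟨h1, h2⟩ := cand_near hr hrn hZr (comp_mem_cand h hZN hkey.1) X hXZ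
  refine ⟨h1, ?_⟩
  have h3 : X \ c.at Qac ⊆ (X \ Z) ∪ (Z \ c.at Qac) := by
    intro x hx
    rw [Finset.mem_sdiff] at hx
    rw [Finset.mem_union, Finset.mem_sdiff, Finset.mem_sdiff]
    by_cases hz : x ∈ Z
    · exact Or.inr ⟨hz, hx.2⟩
    · exact Or.inl ⟨hx.1, hz⟩
  have h4 := Finset.card_le_card h3
  have h5 := Finset.card_union_le (X \ Z) (Z \ c.at Qac)
  have h6 := hkey.2
  omega

theorem first_near (h : IsMat n r B) (hr : 1 ≤ r) (hrn : r < n) (hc : gcell r B c)
    (hfree : ¬ HasPat r (NB r B)) (hc0 : c0 ∈ cells n r) (hp : Pat (NB r (surg r B c)) c0) :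
    ∃ Q : Finset (Fin 8), Q.card = 4 ∧ (c.at Qac \ c0.at Q).card ≤ 28 := by
  have h1 : ¬ Pat (NB r B) c0 := fun h' => hfree ⟨c0, hc0, h'⟩
  unfold Pat at h1
  push Not at h1
  obtain ⟨Q, hQ, h2⟩ := h1
  have h3 := hp Q hQ
  rw [NB_surg hc.1, Finset.mem_insert, Finset.mem_sdiff] at h3
  refine ⟨Q, hQ, ?_⟩
  by_cases h4 : c0.at Q = c.at Qac
  · rw [h4, Finset.sdiff_self, Finset.card_empty]
    omega
  · have h5 : c0.at Q ∈ remd r B (nbh r (c.at Qac) ∪ rest c) := by
      by_contra h6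
      tauto
    obtain ⟨h6, h7⟩ := remd_near h hr hrn hc h5
    have h8 : (c.at Qac).card = r := mem_Base.1 (at_mem_Base hc.1 (by decide))
    have h9 := Finset.card_sdiff_add_card_inter (c0.at Q) (c.at Qac)
    have h10 := Finset.card_sdiff_add_card_inter (c.at Qac) (c0.at Q)
    rw [Finset.inter_comm] at h10
    omega

end Pool.Agent.H41.VH
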