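import Pool.Agent.H41.VH.Lgt
import Pool.Agent.H13.VM.A4
import Pool.Agent.H13.VM.A5

/-! MODULE Sur (about 150 lines). The local surgery (E2, first half).

Write `C = comp r (NB r B) X`, `B' = sur r B X J = (B cup C) \ J`.
`NB_sur`: `J` is inside `C`, `C` inside `NB r B`, disjoint from `B`.
`trv_stable`: two members `u, v` of `J` which are adjacent are nonbases on a common full line (`exists_line`), in `linesOf`; by the
uniqueness in `mem_trv` `u = v`, but `adj` is irreflexive.
`sur_mem`: `B cup C` is a matroid (`add_components`, `comp_closed`), `J` is inside `B cup C`, stable, and a neighbour `Y` of `u` in `J` which is an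
`r`-set is in `B` or in `NB r B`, in the second case in `C` (`comp_closed`): `del_stable`.
`one_sur`: `X` in `C`, not in `J`, so `X` is a base of `B'`. Let `l` be the only full line through `X` (`thr` has one element), `u` the member of `J` on `l`
(`l` is in `linesOf`); `u <> X`, so `u` is adjacent to `X` (`pts_adj`). If `Y` in `NB r B'` is adjacent to `X`: `Y` not in `C` is impossible (`Y` in `NB r B` adjacent
to `X` is in `C`), so `Y` in `J`; `X`, `Y` are on a common full line, which is `l`, so `Y = u` by uniqueness. `u` is isolated in `NB r B'` (`NB_sur`: members of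
`NB r B \ C` are not adjacent to `u` in `C`; members of `J` are not adjacent by `trv_stable`), so `u` is in `iso r B'`; so `X` is in `reg r (WW r B')`
(`X` is a base, its only neighbour in `NB r B'` is not in `WW r B'`), and `nbr r (iso r B') X = {u}`. -/

open scoped BigOperators
open Filter

namespace Pool.Agent.H41.VH

open Pool.Agent.H28.Johnson Pool.Agent.H28.V8 Pool.Agent.H8.VM Pool.Agent.H8.VR
open Pool.Agent.H13.VM Pool.Agent.H97.VZ

variable {n r : ℕ} {B : Finset (Finset (Fin n))} {X : Finset (Fin n)}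
  {J : Finset (Finset (Fin n))}

private theorem sur_J_sub (hJ : J ∈ trv r B X) {Y : Finset (Fin n)} (hY : Y ∈ J) :
    Y ≠ X ∧ Y ∈ comp r (NB r B) X := by
  have := (mem_trv.1 hJ).1 hY
  rw [Finset.mem_erase] at this
  exact this

theorem NB_sur (hJ : J ∈ trv r B X) :
    NB r (sur r B X J) = (NB r B \ comp r (NB r B) X) ∪ J := by
  classical
  ext Y
  rw [mem_NB, sur, Finset.mem_sdiff, Finset.mem_union, Finset.mem_union, Finset.mem_sdiff, mem_NB]
  constructor
  · rintro ⟨h1, h2⟩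
    by_cases hYJ : Y ∈ J
    · exact Or.inr hYJ
    · left
      by_contra hcon
      apply h2
      refine ⟨?_, hYJ⟩
      by_cases hB : Y ∈ B
      · exact Or.inl hB
      · right
        by_contra hC
        exact hcon ⟨⟨h1, hB⟩, hC⟩
  · rintro (⟨⟨h1, h2⟩, h3⟩ | h)
    · refine ⟨h1, ?_⟩
      rintro ⟨h4 | h4, _⟩
      · exact h2 h4
      · exact h3 h4
    · refine ⟨(mem_NB.1 (mem_comp.1 (sur_J_sub hJ h).2).1).1, ?_⟩
      rintro ⟨_, h4⟩
      exact h4 h

theorem trv_stable (h : IsMat n r B) (hJ : J ∈ trv r B X) : ∀ a ∈ J, ∀ b ∈ J, ¬ adj r a b := by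
  intro a ha b hb hab
  have ha' := (sur_J_sub hJ ha).2
  have hb' := (sur_J_sub hJ hb).2
  obtain ⟨L, hL, hLa, hLb⟩ := exists_line h (mem_comp.1 ha').1 (mem_comp.1 hb').1 hab
  have hL' : L ∈ linesOf r B (comp r (NB r B) X) := mem_linesOf.2 ⟨hL, a, ha', hLa⟩
  have := ((mem_trv.1 hJ).2.2 L hL').2 a ha b hb hLa hLb
  exact hab.1 this

theorem sur_mem (h : IsMat n r B) (hr : 1 ≤ r) (hrn : r < n) (hX : X ∈ NB r B)
    (hJ : J ∈ trv r B X) : sur r B X J ∈ Mats n r := by
  classical
  rw [mem_Mats, sur]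
  refine del_stable (add_components h (comp_closed _ _)) hr hrn ?_ (trv_stable h hJ) ?_
  · intro Y hY
    exact Finset.mem_union_right _ (sur_J_sub hJ hY).2
  · intro S hS Y hY hadj
    rw [Finset.mem_union]
    by_cases hB : Y ∈ B
    · exact Or.inl hB
    · right
      exact (comp_closed (NB r B) X).2 S (sur_J_sub hJ hS).2 Y
        (mem_NB.2 ⟨mem_Base.1 hY, hB⟩) hadj

theorem one_sur (h : IsMat n r B) (hr : 1 ≤ r) (hrn : r < n) (hX : X ∈ NB r B)
    (hX1 : (thr r B X).card = 1) (hJ : J ∈ trv r B X) :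
    X ∈ one r (rg r (sur r B X J)) (iso r (sur r B X J)) := by
  classical
  have hXC : X ∈ comp r (NB r B) X := self_mem_comp hX
  have hXJ : X ∉ J := fun hXJ => (sur_J_sub hJ hXJ).1 rfl
  have hXN : X ∉ NB r (sur r B X J) := by
    rw [NB_sur hJ, Finset.mem_union, Finset.mem_sdiff]
    rintro (⟨_, h2⟩ | h2)
    · exact h2 hXC
    · exact hXJ h2
  -- members of `J` are isolated
  have hiso : ∀ u ∈ J, u ∈ iso r (sur r B X J) := by
    intro u hu
    rw [mem_iso, NB_sur hJ]
    refine ⟨Finset.mem_union_right _ hu, ?_⟩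
    intro Y hY hadj
    rw [Finset.mem_union, Finset.mem_sdiff] at hY
    rcases hY with ⟨h1, h2⟩ | h1
    · exact h2 ((comp_closed (NB r B) X).2 u (sur_J_sub hJ hu).2 Y h1 hadj)
    · exact trv_stable h hJ u hu Y h1 hadj
  -- neighbours of `X` among the nonbases are in `J`
  have hnb : ∀ Y ∈ NB r (sur r B X J), adj r X Y → Y ∈ J := by
    intro Y hY hadj
    rw [NB_sur hJ, Finset.mem_union, Finset.mem_sdiff] at hY
    rcases hY with ⟨h1, h2⟩ | h1
    · exact absurd ((comp_closed (NB r B) X).2 X hXC Y h1 hadj) h2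
    · exact h1
  have hreg : X ∈ rg r (sur r B X J) := by
    rw [rg, mem_reg]
    refine ⟨(mem_NB.1 hX).1, fun hW => hXN (mem_WW.1 hW).1, ?_⟩
    intro Y hY hadj
    rw [mem_WW] at hY
    exact hY.2 (hiso Y (hnb Y hY.1 hadj))
  rw [mem_one]
  refine ⟨hreg, ?_⟩
  obtain ⟨l, hl⟩ := Finset.card_eq_one.1 hX1
  have hlX : l ∈ thr r B X := by rw [hl]; exact Finset.mem_singleton_self _
  rw [mem_thr] at hlX
  have hlC : l ∈ linesOf r B (comp r (NB r B) X) := mem_linesOf.2 ⟨hlX.1, X, hXC, hlX.2⟩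
  obtain ⟨⟨u, hu, hlu⟩, huniq⟩ := (mem_trv.1 hJ).2.2 l hlC
  rw [Finset.card_eq_one]
  refine ⟨u, ?_⟩
  have huN := (mem_comp.1 (sur_J_sub hJ hu).2).1
  have hadj : adj r X u :=
    pts_adj hlX.1 (mem_pts.2 ⟨(mem_NB.1 hX).1, hlX.2⟩) (mem_pts.2 ⟨(mem_NB.1 huN).1, hlu⟩)
      (sur_J_sub hJ hu).1.symm
  ext Y
  rw [mem_nbr, Finset.mem_singleton]
  constructor
  · rintro ⟨h1, h2⟩
    have hYJ := hnb Y (mem_iso.1 h1).1 h2
    have hYN := (mem_comp.1 (sur_J_sub hJ hYJ).2).1
    obtain ⟨L, hL, hLX, hLY⟩ := exists_line h hX hYN h2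
    have hLl : L ∈ thr r B X := mem_thr.2 ⟨hL, hLX⟩
    rw [hl, Finset.mem_singleton] at hLl
    subst hLl
    exact huniq Y hYJ u hu hLY hlu
  · rintro rfl
    exact ⟨hiso _ hu, hadj⟩

end Pool.Agent.H41.VH
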