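import Pool.Agent.H41.VH.Nea
import Pool.Agent.H41.VH.MulB

/-! MODULE Up (about 150 lines). Upper bound for the number of good cells of pattern free matroids (H7, H8).

`up_raw`: for `B2` in `Mats n r` with `HasPat r (NB r B2)` fix one pattern cell `c0(B2)` (`Classical.choose`). The pairs `(B, c)`, `B` in `Fr n r`, `c` in `gcells r B`, are mapped
to `(B2, c)`, `B2 = surg r B c` in `Mats n r` (`surg_mem`), which has the pattern cell `c` (`surg_pat`), so `c0(B2)` is defined, and `c` is one of the at most `n ^ 80` cells of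
`near_cells` for `c0(B2)` (`first_near`). For given `(B2, c)` the number of `B` is at most `(RRs n r c).card * 2 ^ (4 n / 5)` (`RR_mem`, `mul_fixed`, `RRs_card`).
`up`: numbers: `80 log2 n + 80 log2 n (sqrt n + 80) + 4 n / 5 <= 17 n / 20` for large `n`. -/

open scoped BigOperators
open Filter

namespace Pool.Agent.H41.VH

open Pool.Agent.H28.Johnson Pool.Agent.H28.V8 Pool.Agent.H8.VM Pool.Agent.H8.VR
open Pool.Agent.H13.VM Pool.Agent.H97.VZ

open Classical in
/-- the cells near a pattern cell of `B2` -/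
private noncomputable def Up_nc (n r : ℕ) (B2 : Finset (Finset (Fin n))) : Finset (Cell n) :=
  if h : ∃ c0 ∈ cells n r, Pat (NB r B2) c0 then
    (cells n r).filter fun c =>
      ∃ Q : Finset (Fin 8), Q.card = 4 ∧ (c.at Qac \ (Classical.choose h).at Q).card ≤ 28
  else ∅

private lemma Up_nc_card {n r : ℕ} (hn : 100 ≤ n) (B2 : Finset (Finset (Fin n))) :
    (Up_nc n r B2).card ≤ n ^ 80 := by
  classical
  unfold Up_nc
  split_ifs with h
  · exact near_cells hn (Classical.choose_spec h).1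
  · simp

theorem up_raw {n r : ℕ} (hn : 100 ≤ n) (hr : 1 ≤ r) (hrn : r < n) :
    ∑ B ∈ Fr n r, (gcells r B).card ≤
      (Mats n r).card * (n ^ 80 * ((n ^ 80) ^ (Nat.sqrt n + 80) * 2 ^ (4 * n / 5))) := by
  classical
  -- the pairs
  have h1 : ∑ B ∈ Fr n r, (gcells r B).card = ((Fr n r).sigma fun B => gcells r B).card := by
    rw [Finset.card_sigma]
  rw [h1]
  -- the map
  set f : (Σ _ : Finset (Finset (Fin n)), Cell n) → (Σ _ : Finset (Finset (Fin n)), Cell n) :=
    fun p => ⟨surg r p.1 p.2, p.2⟩ with hf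
  set T := (Mats n r).sigma fun B2 => Up_nc n r B2 with hT
  have hmaps : ∀ p ∈ (Fr n r).sigma fun B => gcells r B, f p ∈ T := by
    rintro ⟨B, c⟩ hp
    rw [Finset.mem_sigma] at hp
    obtain ⟨hB, hc⟩ := hp
    obtain ⟨hM, hfree⟩ := mem_Fr.mp hB
    have hg := mem_gcells.mp hc
    have hS := surg_mem hM hr hrn hg.1
    have hP := surg_pat hg.1 hg.2.1
    rw [hT, Finset.mem_sigma]
    refine ⟨hS, ?_⟩
    have hex : ∃ c0 ∈ cells n r, Pat (NB r (surg r B c)) c0 := ⟨c, hg.1, hP⟩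
    show c ∈ Up_nc n r (surg r B c)
    unfold Up_nc
    rw [dif_pos hex]
    exact Finset.mem_filter.mpr ⟨hg.1, first_near hM hr hrn hg hfree
      (Classical.choose_spec hex).1 (Classical.choose_spec hex).2⟩
  have hfib : ∀ q ∈ T, (((Fr n r).sigma fun B => gcells r B).filter fun p => f p = q).card ≤
      (n ^ 80) ^ (Nat.sqrt n + 80) * 2 ^ (4 * n / 5) := by
    rintro ⟨B2, c⟩ hq
    rw [hT, Finset.mem_sigma] at hq
    obtain ⟨hB2, hcN⟩ := hq
    have hc : c ∈ cells n r := by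
      have hcN' : c ∈ Up_nc n r B2 := hcN
      unfold Up_nc at hcN'
      split_ifs at hcN' with h
      · exact (Finset.mem_filter.mp hcN').1
      · simp at hcN'
    have hsub : (((Fr n r).sigma fun B => gcells r B).filter fun p => f p = ⟨B2, c⟩).card ≤
        ((RRs n r c).biUnion fun R =>
          (Mats n r).filter fun B => gcell r B c ∧ surg r B c = B2 ∧ RR r B c = R).card := by
      refine Finset.card_le_card_of_injOn (fun p => p.1) ?_ ?_
      · rintro ⟨B, c'⟩ hp
        have hp' := Finset.mem_filter.mp (Finset.mem_coe.mp hp)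
        obtain ⟨hB, hc'⟩ := Finset.mem_sigma.mp hp'.1
        have hfe := hp'.2
        simp only [hf] at hfe
        injection hfe with e1 e2
        have e2' : c' = c := by simpa using e2
        subst e2'
        have hM := (mem_Fr.mp hB).1
        have hg := mem_gcells.mp hc'
        refine Finset.mem_coe.mpr (Finset.mem_biUnion.mpr ⟨RR r B c', RR_mem hM hg, ?_⟩)
        exact Finset.mem_filter.mpr ⟨mem_Mats.mpr hM, hg, e1, rfl⟩
      · rintro ⟨B, c'⟩ hp ⟨B', c''⟩ hp' he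
        have h2 := (Finset.mem_filter.mp (Finset.mem_coe.mp hp)).2
        have h3 := (Finset.mem_filter.mp (Finset.mem_coe.mp hp')).2
        simp only [hf] at h2 h3
        injection h2 with _ e2
        injection h3 with _ e3
        have e2' : c' = c := by simpa using e2
        have e3' : c'' = c := by simpa using e3
        have he' : B = B' := he
        rw [e2', e3', he']
    refine hsub.trans (Finset.card_biUnion_le.trans ?_)
    refine (Finset.sum_le_card_nsmul _ _ (2 ^ (4 * n / 5)) fun R _ => mul_fixed hc B2 R).trans ?_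
    rw [smul_eq_mul]
    exact Nat.mul_le_mul_right _ (RRs_card hn hr hrn hc)
  have h2 := Finset.card_le_mul_card_image_of_maps_to hmaps _ hfib
  refine h2.trans ?_
  have h3 : T.card ≤ (Mats n r).card * n ^ 80 := by
    rw [hT, Finset.card_sigma]
    exact (Finset.sum_le_card_nsmul _ _ _ fun B2 _ => Up_nc_card hn B2).trans (by
      rw [smul_eq_mul])
  calc (n ^ 80) ^ (Nat.sqrt n + 80) * 2 ^ (4 * n / 5) * T.card
      ≤ (n ^ 80) ^ (Nat.sqrt n + 80) * 2 ^ (4 * n / 5) * ((Mats n r).card * n ^ 80) :=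
        Nat.mul_le_mul_left _ h3
    _ = _ := by ring

theorem up_num : ∀ᶠ n : ℕ in atTop,
    ((n ^ 80 * ((n ^ 80) ^ (Nat.sqrt n + 80) * 2 ^ (4 * n / 5)) : ℕ) : ℝ) ≤
      (2 : ℝ) ^ ((17 / 20 : ℝ) * n) := by
  have hl2 : (0 : ℝ) < Real.log 2 := Real.log_pos (by norm_num)
  have hε : (0 : ℝ) < Real.log 2 / 20 / 6560 := by positivity
  have h0 := (isLittleO_log_rpow_atTop (show (0 : ℝ) < 1 / 2 by norm_num)).def hε
  have h1 := tendsto_natCast_atTop_atTop.eventually h0
  filter_upwards [h1, eventually_ge_atTop 1] with n hn hn1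
  have hn1' : (1 : ℝ) ≤ n := by exact_mod_cast hn1
  have hn0 : (0 : ℝ) < n := by linarith
  rw [Real.norm_eq_abs, Real.norm_eq_abs, abs_of_nonneg (Real.log_nonneg hn1'),
    abs_of_nonneg (by positivity), ← Real.sqrt_eq_rpow] at hn
  have hs1 : (1 : ℝ) ≤ Real.sqrt n := Real.one_le_sqrt.mpr hn1'
  have hs2 : Real.sqrt n * Real.sqrt n = n := Real.mul_self_sqrt hn0.le
  have hs : ((Nat.sqrt n : ℕ) : ℝ) ≤ Real.sqrt n := Real.nat_sqrt_le_real_sqrt
  have hlog : 0 ≤ Real.log n := Real.log_nonneg hn1'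
  -- the exponent of `n`
  have hK : ((80 * (Nat.sqrt n + 81) : ℕ) : ℝ) * Real.log n ≤ Real.log 2 * ((1 / 20 : ℝ) * n) := by
    have h2 : ((80 * (Nat.sqrt n + 81) : ℕ) : ℝ) ≤ 6560 * Real.sqrt n := by
      push_cast
      nlinarith
    calc ((80 * (Nat.sqrt n + 81) : ℕ) : ℝ) * Real.log n
        ≤ (6560 * Real.sqrt n) * (Real.log 2 / 20 / 6560 * Real.sqrt n) :=
          mul_le_mul h2 hn hlog (by positivity)
      _ = Real.log 2 / 20 * (Real.sqrt n * Real.sqrt n) := by ring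
      _ = Real.log 2 * ((1 / 20 : ℝ) * n) := by rw [hs2]; ring
  have hm : ((4 * n / 5 : ℕ) : ℝ) ≤ (4 / 5 : ℝ) * n := by
    have := @Nat.cast_div_le ℝ _ _ _ (4 * n) 5
    push_cast at this
    linarith
  have e1 : ((n ^ 80 * ((n ^ 80) ^ (Nat.sqrt n + 80) * 2 ^ (4 * n / 5)) : ℕ) : ℝ) =
      (n : ℝ) ^ (80 * (Nat.sqrt n + 81)) * (2 : ℝ) ^ (4 * n / 5) := by
    push_cast
    rw [← pow_mul, ← mul_assoc, ← pow_add]
    ring_nf
  rw [e1]
  have e2 : (n : ℝ) ^ (80 * (Nat.sqrt n + 81)) =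
      Real.exp (((80 * (Nat.sqrt n + 81) : ℕ) : ℝ) * Real.log n) := by
    rw [Real.exp_nat_mul, Real.exp_log hn0]
  have e3 : (2 : ℝ) ^ (4 * n / 5) = Real.exp (((4 * n / 5 : ℕ) : ℝ) * Real.log 2) := by
    rw [Real.exp_nat_mul, Real.exp_log (by norm_num)]
  rw [e2, e3, ← Real.exp_add, Real.rpow_def_of_pos (by norm_num : (0 : ℝ) < 2)]
  refine Real.exp_le_exp.mpr ?_
  have h5 : ((4 * n / 5 : ℕ) : ℝ) * Real.log 2 ≤ (4 / 5 : ℝ) * n * Real.log 2 :=
    mul_le_mul_of_nonneg_right hm hl2.le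
  calc ((80 * (Nat.sqrt n + 81) : ℕ) : ℝ) * Real.log n + ((4 * n / 5 : ℕ) : ℝ) * Real.log 2
      ≤ Real.log 2 * ((1 / 20 : ℝ) * n) + (4 / 5 : ℝ) * n * Real.log 2 := add_le_add hK h5
    _ = Real.log 2 * (17 / 20 * n) := by ring

end Pool.Agent.H41.VH
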